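import Pool.Agent.NHT.T1
import Pool.Agent.NHP.Grp
import Pool.Agent.NHP.SmH

/-!
# NHH/Off: homotopies can be moved off a point of a 3-manifold

* `vk`: a space covered by two open sets `U₁`, `U₂` such that paths of `U_i` with the same ends are homotopic, `U₁ ∩ U₂` is
  path connected: paths with the same ends are homotopic.
* `punctured_hom`: paths with the same ends in the punctured box `‖w‖ < r`, `|x| < r`, `(w, x) ≠ 0` of `ℂ × ℝ` are homotopic.
* `homotopic_off`: two paths of `N - {z}` which are homotopic in `N` are homotopic in `N - {z}`.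
-/

namespace Pool.Agent.NHH

open Set CategoryTheory unitInterval Topology Filter
open scoped Manifold ContDiff
open Pool.Agent.RSG (E3 ex Thick)
open Pool.Agent.NHP (core Rep E)
open Pool.Agent.NHQ (PC cc exists_PC)
open Pool.Agent.NHT

/-- van Kampen, the simplest case -/
theorem vk {X : Type*} [TopologicalSpace X] {U₁ U₂ : Set X} (h1 : IsOpen U₁) (h2 : IsOpen U₂) (hc : ∀ x, x ∈ U₁ ∨ x ∈ U₂)
    {r : X} (p1 : ∀ x ∈ U₁, ∃ s : Path r x, ∀ t, s t ∈ U₁)
    (p2 : ∀ x ∈ U₂, ∃ s : Path r x, ∀ t, s t ∈ U₂) (p12 : ∀ x ∈ U₁ ∩ U₂, ∃ s : Path r x, ∀ t, s t ∈ U₁ ∩ U₂)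
    (m1 : ∀ (x y : X) (s s' : Path x y), (∀ t, s t ∈ U₁) → (∀ t, s' t ∈ U₁) → s.Homotopic s')
    (m2 : ∀ (x y : X) (s s' : Path x y), (∀ t, s t ∈ U₂) → (∀ t, s' t ∈ U₂) → s.Homotopic s') {x y : X}
    (s s' : Path x y) : s.Homotopic s' := by
  classical
  -- canonical classes
  have h3 : ∀ x : X, ∃ ε : FundamentalGroupoid.mk r ⟶ FundamentalGroupoid.mk x,
      (∀ s : Path r x, (∀ t, s t ∈ U₁) → cl s = ε) ∧ (∀ s : Path r x, (∀ t, s t ∈ U₂) → cl s = ε) := by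
    intro x
    by_cases hx1 : x ∈ U₁
    · by_cases hx2 : x ∈ U₂
      · obtain ⟨s, hs⟩ := p12 x ⟨hx1, hx2⟩
        exact ⟨cl s, fun s' hs' => cl_eq (m1 _ _ _ _ hs' (fun t => (hs t).1)),
          fun s' hs' => cl_eq (m2 _ _ _ _ hs' (fun t => (hs t).2))⟩
      · obtain ⟨s, hs⟩ := p1 x hx1
        refine ⟨cl s, fun s' hs' => cl_eq (m1 _ _ _ _ hs' hs), fun s' hs' => absurd ?_ hx2⟩
        have := hs' 1
        rwa [s'.target] at this
    · have hx2 := (hc x).resolve_left hx1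
      obtain ⟨s, hs⟩ := p2 x hx2
      refine ⟨cl s, fun s' hs' => absurd ?_ hx1, fun s' hs' => cl_eq (m2 _ _ _ _ hs' hs)⟩
      have := hs' 1
      rwa [s'.target] at this
  choose sg hs1 hs2 using h3
  have key : ∀ {x y : X} (γ : Path x y), sg x ≫ cl γ = sg y := by
    refine path_ind (fun b : Bool => if b then U₁ else U₂) (fun b => by cases b <;> simp [h1, h2])
      (fun x => by
        rcases hc x with h | h
        · exact ⟨true, h⟩
        · exact ⟨false, h⟩) (P := fun {x y} γ => sg x ≫ cl γ = sg y) ?_ ?_ ?_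
    · intro x y z γ δ hγ hδ
      rw [cl_trans, ← Category.assoc, hγ, hδ]
    · intro x y γ δ h hγ
      rw [← cl_eq h, hγ]
    · intro x y γ b hb
      cases b
      · have hb' : ∀ t, γ t ∈ U₂ := fun t => hb ⟨t, rfl⟩
        have hx : x ∈ U₂ := by have := hb' 0; rwa [γ.source] at this
        obtain ⟨s, hs⟩ := p2 x hx
        rw [← hs2 x s hs, ← cl_trans]
        exact hs2 y _ (trans_mem hs hb')
      · have hb' : ∀ t, γ t ∈ U₁ := fun t => hb ⟨t, rfl⟩
        have hx : x ∈ U₁ := by have := hb' 0; rwa [γ.source] at this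
        obtain ⟨s, hs⟩ := p1 x hx
        rw [← hs1 x s hs, ← cl_trans]
        exact hs1 y _ (trans_mem hs hb')
  have e1 := key s
  rw [← key s'] at e1
  have e2 : inv (sg x) ≫ sg x ≫ cl s = inv (sg x) ≫ sg x ≫ cl s' := by rw [e1]
  rw [IsIso.inv_hom_id_assoc, IsIso.inv_hom_id_assoc] at e2
  exact cl_exact e2

section punctured

/-- paths of a star-shaped set -/
theorem star_hom {M : Type*} [AddCommGroup M] [Module ℝ M] [TopologicalSpace M] [ContinuousAdd M] [ContinuousSMul ℝ M]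
    {A : Set M} {c : M} (hA : StarConvex ℝ c A) (hc : c ∈ A) (x y : A) (s s' : Path x y) : s.Homotopic s' := by
  have _ : ContractibleSpace A := hA.contractibleSpace ⟨c, hc⟩
  exact SimplyConnectedSpace.paths_homotopic s s'

/-- paths of a star-shaped subset of `Z` -/
theorem star_hom' {M : Type*} [AddCommGroup M] [Module ℝ M] [TopologicalSpace M] [ContinuousAdd M] [ContinuousSMul ℝ M]
    {A B : Set M} {c : M} (hA : StarConvex ℝ c A) (hc : c ∈ A) (hAB : A ⊆ B) (x y : B) (s s' : Path x y)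
    (hs : ∀ t, (s t : M) ∈ A) (hs' : ∀ t, (s' t : M) ∈ A) : s.Homotopic s' := by
  have hx : (x : M) ∈ A := by have := hs 0; rwa [s.source] at this
  have hy : (y : M) ∈ A := by have := hs 1; rwa [s.target] at this
  have h1 : ∀ s : Path x y, (∀ t, (s t : M) ∈ A) → ∃ s₁ : Path (⟨x, hx⟩ : A) ⟨y, hy⟩, ∀ t, ((s₁ t : A) : M) = s t := by
    intro s hs
    refine ⟨⟨⟨fun t => ⟨s t, hs t⟩, ?_⟩, ?_, ?_⟩, fun t => rfl⟩
    · exact (continuous_subtype_val.comp s.continuous).subtype_mk _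
    · apply Subtype.ext
      change ((s 0 : B) : M) = x
      rw [s.source]
    · apply Subtype.ext
      change ((s 1 : B) : M) = y
      rw [s.target]
  obtain ⟨s₁, e1⟩ := h1 s hs
  obtain ⟨s₂, e2⟩ := h1 s' hs'
  have h2 := (star_hom hA hc _ _ s₁ s₂).map ⟨fun a : A => (⟨a, hAB a.2⟩ : B), continuous_subtype_val.subtype_mk _⟩
  have e3 : s₁.map (f := fun a : A => (⟨a, hAB a.2⟩ : B)) (continuous_subtype_val.subtype_mk _) = s := by
    ext t
    exact e1 t
  have e4 : s₂.map (f := fun a : A => (⟨a, hAB a.2⟩ : B)) (continuous_subtype_val.subtype_mk _) = s' := by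
    ext t
    exact e2 t
  have h3 : (s₁.map (f := fun a : A => (⟨a, hAB a.2⟩ : B)) (continuous_subtype_val.subtype_mk _)).Homotopic
    (s₂.map (f := fun a : A => (⟨a, hAB a.2⟩ : B)) (continuous_subtype_val.subtype_mk _)) := h2
  rwa [e3, e4] at h3

/-- the punctured box -/
def PB (r : ℝ) : Set E := {q | q ∈ Metric.ball (0 : E) r ∧ q ≠ 0}

theorem mem_ball_iff {r : ℝ} {q : E} : q ∈ Metric.ball (0 : E) r ↔ ‖q.1‖ < r ∧ |q.2| < r := by
  rw [mem_ball_zero_iff, Prod.norm_def, max_lt_iff, Real.norm_eq_abs]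

/-- half of the punctured box -/
def HB (ε r : ℝ) : Set E := {q | q ∈ Metric.ball (0 : E) r ∧ (q.1 ≠ 0 ∨ 0 < ε * q.2)}

theorem HB_sub (ε r : ℝ) : HB ε r ⊆ PB r := by
  rintro q ⟨h1, h2⟩
  refine ⟨h1, ?_⟩
  rintro rfl
  rcases h2 with h | h
  · exact h rfl
  · simp at h

theorem HB_star {ε r : ℝ} (hε : ε = 1 ∨ ε = -1) (hr : 0 < r) : StarConvex ℝ ((0, ε * (r / 2)) : E) (HB ε r) ∧
    ((0, ε * (r / 2)) : E) ∈ HB ε r := by
  have hss : ε * ε = 1 := by rcases hε with rfl | rfl <;> norm_num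
  have habs : |ε| = 1 := by rcases hε with rfl | rfl <;> simp
  have hc : ((0, ε * (r / 2)) : E) ∈ HB ε r := by
    refine ⟨mem_ball_iff.2 ⟨by simpa using hr, ?_⟩, Or.inr ?_⟩
    · change |ε * (r / 2)| < r
      rw [abs_mul, habs, abs_of_pos (by linarith)]; linarith
    · change 0 < ε * (ε * (r / 2))
      rw [← mul_assoc, hss]; linarith
  refine ⟨?_, hc⟩
  rintro q ⟨hq1, hq2⟩ a b ha hb hab
  refine ⟨(convex_ball (0 : E) r) hc.1 hq1 ha hb hab, ?_⟩
  have e1 : (a • ((0, ε * (r / 2)) : E) + b • q).1 = b • q.1 := by simp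
  have e2 : (a • ((0, ε * (r / 2)) : E) + b • q).2 = a * (ε * (r / 2)) + b * q.2 := by simp
  rw [e1, e2]
  rcases hb.eq_or_lt with rfl | hb'
  · right
    have : a = 1 := by linarith
    subst this
    have : ε * (1 * (ε * (r / 2)) + 0 * q.2) = ε * ε * (r / 2) := by ring
    rw [this, hss]; linarith
  · rcases hq2 with h | h
    · left
      exact smul_ne_zero hb'.ne' h
    · right
      have : ε * (a * (ε * (r / 2)) + b * q.2) = a * (ε * ε * (r / 2)) + b * (ε * q.2) := by ring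
      rw [this, hss]
      have h1 : 0 ≤ a * (1 * (r / 2)) := by positivity
      have h2 : 0 < b * (ε * q.2) := mul_pos hb' h
      linarith

/-- paths in the intersection of the two halves -/
theorem HB_inter {r : ℝ} (hr : 0 < r) {x y : E} (hx : x ∈ Metric.ball (0 : E) r) (hx0 : x.1 ≠ 0)
    (hy : y ∈ Metric.ball (0 : E) r) (hy0 : y.1 ≠ 0) :
    ∃ s : I → E, Continuous s ∧ s 0 = x ∧ s 1 = y ∧ ∀ t, s t ∈ Metric.ball (0 : E) r ∧ (s t).1 ≠ 0 := by
  rw [mem_ball_iff] at hx hy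
  have h1 : ∀ z : ℂ, z ≠ 0 → ‖z‖ < r → (Complex.log z).re < Real.log r := by
    intro z hz hzr
    rw [Complex.log_re]
    exact Real.log_lt_log (norm_pos_iff.2 hz) hzr
  let C : Set (ℂ × ℝ) := (Complex.reCLM ⁻¹' Iio (Real.log r)) ×ˢ Ioo (-r) r
  have hC : Convex ℝ C := ((convex_Iio _).is_linear_preimage Complex.reCLM.isLinear).prod (convex_Ioo _ _)
  have hxC : ((Complex.log x.1, x.2) : ℂ × ℝ) ∈ C := ⟨h1 _ hx0 hx.1, abs_lt.1 hx.2⟩
  have hyC : ((Complex.log y.1, y.2) : ℂ × ℝ) ∈ C := ⟨h1 _ hy0 hy.1, abs_lt.1 hy.2⟩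
  have h2 : ∀ t : I, (1 - (t : ℝ)) • ((Complex.log x.1, x.2) : ℂ × ℝ) + (t : ℝ) • ((Complex.log y.1, y.2) : ℂ × ℝ) ∈ C :=
    fun t => hC hxC hyC (by linarith [t.2.2]) t.2.1 (by ring)
  refine ⟨fun t => (Complex.exp ((1 - (t : ℝ)) • ((Complex.log x.1, x.2) : ℂ × ℝ) +
    (t : ℝ) • ((Complex.log y.1, y.2) : ℂ × ℝ)).1, ((1 - (t : ℝ)) • ((Complex.log x.1, x.2) : ℂ × ℝ) +
    (t : ℝ) • ((Complex.log y.1, y.2) : ℂ × ℝ)).2), ?_, ?_, ?_, fun t => ⟨mem_ball_iff.2 ⟨?_, ?_⟩, Complex.exp_ne_zero _⟩⟩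
  · exact (Complex.continuous_exp.comp (by fun_prop)).prodMk (by fun_prop)
  · simp [Complex.exp_log hx0]
  · simp [Complex.exp_log hy0]
  · change ‖Complex.exp _‖ < r
    rw [Complex.norm_exp]
    exact (Real.lt_log_iff_exp_lt hr).1 (h2 t).1
  · exact abs_lt.2 (h2 t).2

/-- **The punctured box is simply connected.** -/
theorem punctured_hom {r : ℝ} (hr : 0 < r) {x y : PB r} (s s' : Path x y) : s.Homotopic s' := by
  have hopen : ∀ ε : ℝ, IsOpen {q : PB r | (q : E) ∈ HB ε r} := by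
    intro ε
    have h1 : IsOpen {q : E | q.1 ≠ 0 ∨ 0 < ε * q.2} := by
      apply IsOpen.union
      · exact isOpen_ne_fun continuous_fst continuous_const
      · exact isOpen_lt continuous_const (continuous_const.mul continuous_snd)
    have h2 : {q : PB r | (q : E) ∈ HB ε r} = Subtype.val ⁻¹' {q : E | q.1 ≠ 0 ∨ 0 < ε * q.2} := by
      ext q
      exact ⟨fun h => h.2, fun h => ⟨q.2.1, h⟩⟩
    rw [h2]
    exact h1.preimage continuous_subtype_val
  have hrm : (((r / 2 : ℝ) : ℂ), (0 : ℝ)) ∈ PB r := by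
    refine ⟨mem_ball_iff.2 ⟨?_, ?_⟩, ?_⟩
    · change ‖((r / 2 : ℝ) : ℂ)‖ < r
      rw [Complex.norm_real, Real.norm_eq_abs, abs_of_pos (by linarith)]; linarith
    · simpa using hr
    · intro h
      have := congrArg (fun q : E => q.1.re) h
      simp at this
      linarith
  have hr1 : (((r / 2 : ℝ) : ℂ)) ≠ 0 := by
    intro h
    have := congrArg Complex.re h
    simp at this
    linarith
  have hstar : ∀ ε : ℝ, (ε = 1 ∨ ε = -1) → ∀ (x y : PB r) (s s' : Path x y), (∀ t, s t ∈ {q : PB r | (q : E) ∈ HB ε r}) →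
      (∀ t, s' t ∈ {q : PB r | (q : E) ∈ HB ε r}) → s.Homotopic s' := fun ε hε x y s s' hs hs' =>
    star_hom' (HB_star hε hr).1 (HB_star hε hr).2 (HB_sub ε r) x y s s' hs hs'
  have hconn : ∀ ε : ℝ, (ε = 1 ∨ ε = -1) → ∀ x ∈ {q : PB r | (q : E) ∈ HB ε r},
      ∃ s : Path (⟨_, hrm⟩ : PB r) x, ∀ t, s t ∈ {q : PB r | (q : E) ∈ HB ε r} := by
    intro ε hε x hx
    have h1 := (HB_star hε hr)
    have h2 : IsPathConnected (HB ε r) := h1.1.isPathConnected h1.2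
    have h3 := (h2.preimage_coe (HB_sub ε r)).joinedIn ⟨_, hrm⟩ ⟨hrm.1, Or.inl hr1⟩ x hx
    exact ⟨h3.somePath, h3.somePath_mem⟩
  refine vk (hopen 1) (hopen (-1)) ?_ (r := ⟨_, hrm⟩) (hconn 1 (Or.inl rfl)) (hconn (-1) (Or.inr rfl)) ?_ (hstar 1 (Or.inl rfl)) (hstar (-1) (Or.inr rfl)) s s'
  · rintro ⟨q, hq1, hq2⟩
    by_cases h : q.1 = 0
    · rcases lt_trichotomy q.2 0 with h2 | h2 | h2
      · exact Or.inr ⟨hq1, Or.inr (by change 0 < -1 * q.2; linarith)⟩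
      · exact absurd (Prod.ext h h2) hq2
      · exact Or.inl ⟨hq1, Or.inr (by change 0 < 1 * q.2; linarith)⟩
    · exact Or.inl ⟨hq1, Or.inl h⟩
  · rintro ⟨q, hq⟩ ⟨h1, h2⟩
    have hq0 : q.1 ≠ 0 := by
      rcases h1.2 with h | h
      · exact h
      · rcases h2.2 with h' | h'
        · exact h'
        · change 0 < 1 * q.2 at h
          change 0 < -1 * q.2 at h'
          linarith
    obtain ⟨s, h3, h4, h5, h6⟩ := HB_inter hr hrm.1 hr1 hq.1 hq0
    have hs : ∀ t, s t ∈ PB r := fun t => ⟨(h6 t).1, fun h => (h6 t).2 (by rw [h]; rfl)⟩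
    exact ⟨⟨⟨fun t => ⟨s t, hs t⟩, h3.subtype_mk _⟩, Subtype.ext h4, Subtype.ext h5⟩,
      fun t => ⟨⟨(h6 t).1, Or.inl (h6 t).2⟩, ⟨(h6 t).1, Or.inl (h6 t).2⟩⟩⟩

end punctured

section

variable {N : Type*} [TopologicalSpace N] [ChartedSpace E3 N]

/-- small balls in an open set, for the surjectivity -/
theorem ball_goodS {Y : Set N} (hY : IsOpen Y) {x : N} (hx : x ∈ Y) {U : Set N} (hU : IsOpen U) (hxU : x ∈ U) :
    ∃ V : Set N, GoodS Y V ∧ x ∈ V ∧ V ⊆ U ∧ V ⊆ Y ∧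
      ∀ (y : Y) (s : Path y y), (∀ t, (s t : N) ∈ V) → s.Homotopic (Path.refl y) := by
  obtain ⟨C, F, g, hc, ho, hxC, hCU⟩ := exists_ball x (hU.inter hY) ⟨hxU, hx⟩
  refine ⟨F '' C, ⟨ho, ⟨⟨x, hx⟩, hxC⟩, ?_, fun x hx y hy => hc.pc hx hy, fun x y s s' hs hs' => hc.hom s s' hs hs'⟩,
    hxC, fun y hy => (hCU hy).1, fun y hy => (hCU hy).2, ?_⟩
  · intro x y hx hy
    obtain ⟨s, hs⟩ := hc.pc hx hy
    refine ⟨⟨⟨fun t => ⟨s t, (hCU (hs t)).2⟩, ?_⟩, Subtype.ext s.source, Subtype.ext s.target⟩, fun t => hs t⟩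
    exact s.continuous.subtype_mk _
  · intro y s hs
    classical
    let F' : E3 → Y := fun a => if h : a ∈ C then ⟨F a, (hCU ⟨a, h, rfl⟩).2⟩ else ⟨x, hx⟩
    have hF' : ∀ a ∈ C, (F' a : N) = F a := fun a ha => by simp only [F']; rw [dif_pos ha]
    have hc' : Cvx C F' (fun y => g y) := by
      refine ⟨hc.conv, ?_, ?_, ?_⟩
      · refine (Topology.IsInducing.subtypeVal.continuousOn_iff).2 ?_
        exact hc.contF.congr (fun a ha => hF' a ha)
      · refine hc.contg.comp continuous_subtype_val.continuousOn ?_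
        rintro _ ⟨a, ha, rfl⟩
        rw [hF' a ha]; exact ⟨a, ha, rfl⟩
      · intro a ha
        rw [hF' a ha]; exact hc.inv a ha
    refine hc'.hom s (Path.refl y) (by
      intro t
      obtain ⟨a, ha, hat⟩ := hs t
      exact ⟨a, ha, Subtype.ext ((hF' a ha).trans hat)⟩) (by
      intro t
      obtain ⟨a, ha, hat⟩ := hs 0
      refine ⟨a, ha, Subtype.ext ((hF' a ha).trans hat |>.trans ?_)⟩
      rw [s.source]; rfl)

variable [IsManifold (𝓡 3) ∞ N] [T2Space N]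

/-- small neighbourhoods of the point `z` -/
theorem point_goodS (z : N) {U : Set N} (hU : IsOpen U) (hz : z ∈ U) :
    ∃ V : Set N, GoodS {z}ᶜ V ∧ z ∈ V ∧ V ⊆ U ∧
      ∀ (y : ({z}ᶜ : Set N)) (s : Path y y), (∀ t, (s t : N) ∈ V) → s.Homotopic (Path.refl y) := by
  obtain ⟨β, hβ, hβU, hβ0⟩ := NHP.exists_chart hU hz
  obtain ⟨g, hg, hgs⟩ := hβ.inv
  have hb : (0 : E) ∈ Metric.ball (0 : E) 2 := by simp
  have hcv : Cvx (Metric.ball (0 : E) 2) β g := by
    refine ⟨convex_ball _ _, hβ.contOn, fun y hy => ((hgs y hy).continuousAt).continuousWithinAt, hg⟩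
  have hne : ∀ q ∈ PB 2, β q ∈ ({z}ᶜ : Set N) := by
    rintro q ⟨hq, hq0⟩ h
    apply hq0
    exact hβ.inj hq hb (h.trans hβ0.symm)
  have hPB : ∀ y : ({z}ᶜ : Set N), (y : N) ∈ β '' Metric.ball (0 : E) 2 → g y ∈ PB 2 ∧ β (g y) = y := by
    intro y hy
    have h1 := hcv.mem hy
    refine ⟨⟨h1.1, fun h0 => y.2 ?_⟩, h1.2⟩
    rw [h0, hβ0] at h1
    exact h1.2.symm
  let F : PB 2 → ({z}ᶜ : Set N) := fun q => ⟨β q, hne q q.2⟩
  have hF : Continuous F := by
    refine Continuous.subtype_mk ?_ _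
    exact hβ.contOn.comp_continuous continuous_subtype_val (fun q => q.2.1)
  have hlift : ∀ {x y : ({z}ᶜ : Set N)} (s : Path x y), (∀ t, (s t : N) ∈ β '' Metric.ball (0 : E) 2) →
      ∀ (x' y' : PB 2), F x' = x → F y' = y → ∃ s₁ : Path x' y', ∀ t, F (s₁ t) = s t := by
    rintro x y s hs x' y' hx' hy'
    have h1 : ∀ t, g (s t) ∈ PB 2 ∧ β (g (s t)) = s t := fun t => hPB (s t) (hs t)
    have h2 : ∀ q : PB 2, g (F q) = q := fun q => hg q q.2.1
    refine ⟨⟨⟨fun t => ⟨g (s t), (h1 t).1⟩, ?_⟩, ?_, ?_⟩, fun t => Subtype.ext (h1 t).2⟩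
    · refine Continuous.subtype_mk ?_ _
      exact hcv.contg.comp_continuous (continuous_subtype_val.comp s.continuous) hs
    · apply Subtype.ext
      change g (s 0) = x'
      rw [s.source, ← hx', h2]
    · apply Subtype.ext
      change g (s 1) = y'
      rw [s.target, ← hy', h2]
  have hex : ∀ x : ({z}ᶜ : Set N), (x : N) ∈ β '' Metric.ball (0 : E) 2 → ∃ x' : PB 2, F x' = x := fun x hx =>
    ⟨⟨g x, (hPB x hx).1⟩, Subtype.ext (hPB x hx).2⟩
  have hpc : IsPathConnected (PB 2) := by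
    have h1 : IsPathConnected (HB 1 2) := (HB_star (ε := 1) (r := 2) (Or.inl rfl) (by norm_num)).1.isPathConnected
      (HB_star (ε := 1) (r := 2) (Or.inl rfl) (by norm_num)).2
    have h2 : IsPathConnected (HB (-1) 2) := (HB_star (ε := -1) (r := 2) (Or.inr rfl) (by norm_num)).1.isPathConnected
      (HB_star (ε := -1) (r := 2) (Or.inr rfl) (by norm_num)).2
    have h3 : PB 2 = HB 1 2 ∪ HB (-1) 2 := by
      apply Subset.antisymm
      · rintro q ⟨hq1, hq2⟩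
        by_cases h : q.1 = 0
        · rcases lt_trichotomy q.2 0 with h2 | h2 | h2
          · exact Or.inr ⟨hq1, Or.inr (by linarith)⟩
          · exact absurd (Prod.ext h h2) hq2
          · exact Or.inl ⟨hq1, Or.inr (by linarith)⟩
        · exact Or.inl ⟨hq1, Or.inl h⟩
      · exact union_subset (HB_sub _ _) (HB_sub _ _)
    rw [h3]
    refine h1.union h2 ⟨((1 : ℂ), (0 : ℝ)), ⟨mem_ball_iff.2 (by norm_num), Or.inl (by norm_num)⟩,
      ⟨mem_ball_iff.2 (by norm_num), Or.inl (by norm_num)⟩⟩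
  refine ⟨β '' Metric.ball (0 : E) 2, ⟨hβ.img Metric.isOpen_ball Subset.rfl, ?_, ?_, fun x hx y hy => hcv.pc hx hy,
    fun x y s s' hs hs' => hcv.hom s s' hs hs'⟩, ⟨0, hb, hβ0⟩, hβU, ?_⟩
  · have h1 : ((1 : ℂ), (0 : ℝ)) ∈ PB 2 := ⟨mem_ball_iff.2 (by norm_num), by simp⟩
    exact ⟨F ⟨_, h1⟩, ⟨_, h1.1, rfl⟩⟩
  · intro x y hx hy
    obtain ⟨x', rfl⟩ := hex x hx
    obtain ⟨y', rfl⟩ := hex y hy
    have h1 := hpc.joinedIn x' x'.2 y' y'.2
    let s : Path x' y' := ⟨⟨fun t => ⟨h1.somePath t, h1.somePath_mem t⟩, h1.somePath.continuous.subtype_mk _⟩,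
      Subtype.ext h1.somePath.source, Subtype.ext h1.somePath.target⟩
    exact ⟨s.map hF, fun t => ⟨_, (s t).2.1, rfl⟩⟩
  · intro y s hs
    have hy : (y : N) ∈ β '' Metric.ball (0 : E) 2 := by have := hs 0; rwa [s.source] at this
    obtain ⟨y', hy'⟩ := hex y hy
    obtain ⟨s₁, hs₁⟩ := hlift s hs y' y' hy' hy'
    subst hy'
    have h1 := (punctured_hom (by norm_num) s₁ (Path.refl y')).map ⟨F, hF⟩
    have e1 : s₁.map hF = s := by ext t; exact congrArg Subtype.val (hs₁ t)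
    have e2 : (Path.refl y').map hF = Path.refl (F y') := by ext t; rfl
    have h2 : (s₁.map hF).Homotopic ((Path.refl y').map hF) := h1
    rwa [e1, e2] at h2

theorem base_point_S (z x : N) (U : Set N) (hU : IsOpen U) (hx : x ∈ U) : ∃ V : Set N, GoodS {z}ᶜ V ∧ x ∈ V ∧ V ⊆ U := by
  by_cases h : x = z
  · subst h
    obtain ⟨V, h1, h2, h3, -⟩ := point_goodS x hU hx
    exact ⟨V, h1, h2, h3⟩
  · obtain ⟨V, h1, h2, h3, -⟩ := ball_goodS (Y := {z}ᶜ) isClosed_singleton.isOpen_compl h hU hx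
    exact ⟨V, h1, h2, h3⟩

/-- a path can be moved off a point -/
theorem exists_path_off {z : N} {a b : ({z}ᶜ : Set N)} (c : Path (a : N) (b : N)) :
    ∃ s : Path a b, (incl s).Homotopic c := exists_lift_path (base_point_S z) c

/-- **Homotopies can be moved off a point.** -/
theorem homotopic_off [ConnectedSpace N] {z : N} {a b : ({z}ᶜ : Set N)} (s s' : Path a b)
    (h : (incl s).Homotopic (incl s')) : s.Homotopic s' := by
  have _ : LocallyPathConnectedSpace N := ChartedSpace.locallyPathConnectedSpace E3 N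
  have _ : PathConnectedSpace N := pathConnectedSpace_iff_connectedSpace.2 inferInstance
  have h2 : ∀ x : ({z}ᶜ : Set N), Nonempty (FundamentalGroupoid.mk a ⟶ FundamentalGroupoid.mk x) := by
    intro x
    obtain ⟨c⟩ := PathConnectedSpace.joined (a : N) (x : N)
    obtain ⟨s, -⟩ := exists_path_off c
    exact ⟨cl s⟩
  let sg : ∀ x : ({z}ᶜ : Set N), (FundamentalGroupoid.mk a ⟶ FundamentalGroupoid.mk x) := fun x => (h2 x).some
  let q : ∀ x y : ({z}ᶜ : Set N), (FundamentalGroupoid.mk x ⟶ FundamentalGroupoid.mk y) →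
      FundamentalGroup ({z}ᶜ : Set N) a := fun x y α => (fa (sg x ≫ α ≫ inv (sg y)))⁻¹
  have hq : ∀ x y z α β, q x z (α ≫ β) = q x y α * q y z β := by
    intro x y z α β
    have h3 : sg x ≫ (α ≫ β) ≫ inv (sg z) = (sg x ≫ α ≫ inv (sg y)) ≫ (sg y ≫ β ≫ inv (sg z)) := by simp
    change (fa (sg x ≫ (α ≫ β) ≫ inv (sg z)))⁻¹ =
      (fa (sg x ≫ α ≫ inv (sg y)))⁻¹ * (fa (sg y ≫ β ≫ inv (sg z)))⁻¹
    rw [h3, fa_comp, mul_inv_rev]
  have hbase : ∀ x : N, ∀ U : Set N, IsOpen U → x ∈ U → ∃ V : Set N, GoodN q V ∧ x ∈ V ∧ V ⊆ U := by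
    intro x U hU hx
    have htri : ∀ V : Set N, (∀ (y : ({z}ᶜ : Set N)) (s : Path y y), (∀ t, (s t : N) ∈ V) → s.Homotopic (Path.refl y)) →
        ∀ (x : ({z}ᶜ : Set N)) (s : Path x x), (∀ t, (s t : N) ∈ V) → q x x (cl s) = 1 := by
      intro V hV x s hs
      rw [cl_eq (hV x s hs), cl_refl, q_one q hq]
    by_cases h : x = z
    · subst h
      obtain ⟨V, h1, h2, h3, h4⟩ := point_goodS x hU hx
      exact ⟨V, ⟨h1.opn, h1.ne, h1.con, htri V h4⟩, h2, h3⟩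
    · obtain ⟨V, h1, h2, h3, -, h4⟩ := ball_goodS (Y := {z}ᶜ) isClosed_singleton.isOpen_compl h hU hx
      exact ⟨V, ⟨h1.opn, h1.ne, h1.con, htri V h4⟩, h2, h3⟩
  have h3 := q_eq_of_homotopic hq hbase s s' h
  have h4 : fa (sg a ≫ cl s ≫ inv (sg b)) = fa (sg a ≫ cl s' ≫ inv (sg b)) := inv_injective h3
  have h5 : sg a ≫ cl s ≫ inv (sg b) = sg a ≫ cl s' ≫ inv (sg b) := h4
  have h6 : inv (sg a) ≫ (sg a ≫ cl s ≫ inv (sg b)) ≫ sg b = inv (sg a) ≫ (sg a ≫ cl s' ≫ inv (sg b)) ≫ sg b := by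
    rw [h5]
  apply cl_exact
  simpa using h6

end

end Pool.Agent.NHH
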