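import Pool.Agent.NHT.Hyp
import Pool.Agent.NHE.Cnn
import Pool.Agent.NHE.KCh
import Pool.Agent.NHQ.Sg

/-!
# NHH/Bgm: freely homotopic thick knots: common base point, germ and class

`κ`, `κ'` with freely homotopic cores; a push of `N` carries `κ'` to a thick knot `κ''` (perhaps with the mirror image of the
tube) which is equal to `κ` near `(0, 0)` and whose core has the same class in `π₁(N, κ (0, 0))` as the core of `κ`.
-/

open scoped Manifold ContDiff Topology unitInterval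
open Set Filter CategoryTheory
open Pool.Agent.RSG (E3 ex Thick)
open Pool.Agent.NHP
open Pool.Agent.NHQ (PC cc exists_PC)
open Pool.Agent.NHT (FreeHomotopic)

namespace Pool.Agent.NHH

section
variable {N : Type*} [TopologicalSpace N] [ChartedSpace E3 N]

/-- the class of a path and of its image under a push -/
theorem bgm_push {O : Set N} {V : ℝ → Equiv.Perm N} (hV : Push O V) {f : ℝ → N} {x y x' y' : N}
    {γ : FundamentalGroupoid.mk x ⟶ FundamentalGroupoid.mk y} (h : PC f γ)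
    {α : FundamentalGroupoid.mk x ⟶ FundamentalGroupoid.mk x'} {β : FundamentalGroupoid.mk y ⟶ FundamentalGroupoid.mk y'}
    (ha : PC (fun s => V s x) α) (hb : PC (fun s => V s y) β) : PC (fun t => V 1 (f t)) (inv α ≫ γ ≫ β) := by
  have hx : V 1 x = x' := ha.one
  have hy : V 1 y = y' := hb.one
  have hc1 : Continuous (V 1) := hV.cont.comp (Continuous.prodMk continuous_const continuous_id)
  obtain ⟨γ₁, hγ₁⟩ := exists_PC (x := x') (y := y') (f := fun t => V 1 (f t))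
    (hc1.comp_continuousOn h.cont) (by rw [h.zero, hx]) (by rw [h.one, hy])
  have hH : ContinuousOn (fun q : ℝ × ℝ => V q.1 (f q.2)) (Icc (0 : ℝ) 1 ×ˢ Icc (0 : ℝ) 1) := by
    refine hV.cont.comp_continuousOn (f := fun q : ℝ × ℝ => (q.1, f q.2)) ?_
    exact continuousOn_fst.prodMk (h.cont.comp continuousOn_snd (fun q hq => hq.2))
  have hsq := PC.square (H := fun q : ℝ × ℝ => V q.1 (f q.2)) hH (γ₀ := γ) (γ₁ := γ₁) (α := α) (β := β)
    (h.congr (fun t _ => by change V 0 (f t) = f t; rw [hV.zero]; rfl)) hγ₁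
    (ha.congr (fun s _ => by change V s (f 0) = V s x; rw [h.zero]))
    (hb.congr (fun s _ => by change V s (f 1) = V s y; rw [h.one]))
  have : inv α ≫ γ ≫ β = γ₁ := by rw [hsq]; simp
  rw [this]
  exact hγ₁

/-- the image of a thick knot under a push -/
theorem thick_push {O : Set N} {V : ℝ → Equiv.Perm N} (hV : Push O V) (s : ℝ) {κ : ℝ × ℂ → N} (hκ : Thick κ) :
    Thick fun q => V s (κ q) := by
  refine ⟨fun l v => ?_, fun l v hv => ?_, fun l v l' v' hv hv' h => ?_⟩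
  · rw [hκ.per]
  · exact (hκ.loc l v hv).comp (𝓡 3) N (hV.loc s _)
  · exact hκ.inj l v l' v' hv hv' ((V s).injective h)

/-- mirror image of the tube, as a diffeomorphism -/
noncomputable def mir : Diffeomorph 𝓘(ℝ, ℝ × ℂ) 𝓘(ℝ, ℝ × ℂ) (ℝ × ℂ) (ℝ × ℂ) ∞ where
  toFun q := (q.1, starRingEnd ℂ q.2)
  invFun q := (q.1, starRingEnd ℂ q.2)
  left_inv q := by simp
  right_inv q := by simp
  contMDiff_toFun := by
    have h : ContDiff ℝ ∞ fun q : ℝ × ℂ => (q.1, starRingEnd ℂ q.2) :=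
      contDiff_fst.prodMk (Complex.conjCLE.contDiff.comp contDiff_snd)
    exact h.contMDiff
  contMDiff_invFun := by
    have h : ContDiff ℝ ∞ fun q : ℝ × ℂ => (q.1, starRingEnd ℂ q.2) :=
      contDiff_fst.prodMk (Complex.conjCLE.contDiff.comp contDiff_snd)
    exact h.contMDiff

theorem thick_mir {κ : ℝ × ℂ → N} (hκ : Thick κ) : Thick fun q : ℝ × ℂ => κ (q.1, starRingEnd ℂ q.2) := by
  refine ⟨fun l v => hκ.per l _, fun l v hv => ?_, fun l v l' v' hv hv' h => ?_⟩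
  · have h1 : IsLocalDiffeomorphAt 𝓘(ℝ, ℝ × ℂ) 𝓘(ℝ, ℝ × ℂ) ∞ mir (l, v) := mir.isLocalDiffeomorph _
    exact h1.comp (𝓡 3) N (hκ.loc l (starRingEnd ℂ v) (by rwa [RCLike.norm_conj]))
  · obtain ⟨h1, h2⟩ := hκ.inj l _ l' _ (by rwa [RCLike.norm_conj]) (by rwa [RCLike.norm_conj]) h
    exact ⟨(starRingEnd ℂ).injective h1, h2⟩

variable [IsManifold (𝓡 3) ∞ N] [T2Space N]

/-- **Base point, germ and class.** -/
theorem base_germ {κ κ' : ℝ × ℂ → N} (hκ : Thick κ) (hκ' : Thick κ') (hF : FreeHomotopic κ κ') :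
    ∃ (V : ℝ → Equiv.Perm N) (κ'' : ℝ × ℂ → N)
      (o : FundamentalGroupoid.mk (κ (0, 0)) ⟶ FundamentalGroupoid.mk (κ (0, 0))),
      Push univ V ∧ Thick κ'' ∧ (∀ l, κ'' (l, 0) = V 1 (κ' (l, 0))) ∧
      (∃ ρ : ℝ, 0 < ρ ∧ ∀ (l : ℝ) (v : ℂ), |l| < ρ → ‖v‖ < ρ → κ'' (l, v) = κ (l, v)) ∧
      PC (fun l => κ (l, 0)) o ∧ PC (fun l => κ'' (l, 0)) o := by
  obtain ⟨H, hH, hper, h0, h1⟩ := hF
  -- the track of the base point
  let y : (univ : Set N) := ⟨κ' (0, 0), mem_univ _⟩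
  let y' : (univ : Set N) := ⟨κ (0, 0), mem_univ _⟩
  have hH0 : H (0, 0) = κ (0, 0) := h0 0
  have hH1 : H (1, 0) = κ' (0, 0) := h1 0
  obtain ⟨c, hc⟩ := rep_of (Y := (univ : Set N)) (y := y) (y' := y') (f := fun s => H (1 - s, 0))
    (hH.comp (by fun_prop)).continuousOn (fun _ _ => mem_univ _) (by rw [sub_zero]; exact hH1)
    (by rw [sub_self]; exact hH0)
  have hBl := NHE.Bl_sub (ε := 1 / 2) (by norm_num) le_rfl
  have hφ : Cht (Bl (1 / 2)) (footT κ' 0 1) := (NHE.foot_cht hκ' 0).mono (isOpen_Bl _) hBl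
  have hφ' : Cht (Bl (1 / 2)) (footT κ 0 1) := (NHE.foot_cht hκ 0).mono (isOpen_Bl _) hBl
  have hf0 : ∀ κ : ℝ × ℂ → N, footT κ 0 1 0 = κ (0, 0) := by
    intro κ
    rw [NHE.kch_foot]
    simp only [Prod.fst_zero, Complex.zero_re, add_zero, Prod.snd_zero, Complex.zero_im]
    rfl
  obtain ⟨V, hV, hVc, ρ, hρ, hgerm⟩ := NHE.connect isOpen_univ c (by norm_num : (0 : ℝ) < 1 / 2) hφ hφ' (subset_univ _)
    (hf0 κ') (hf0 κ)
  -- the classes
  have hcκ : ∀ {κ : ℝ × ℂ → N}, Thick κ → Continuous fun l : ℝ => κ (l, 0) := by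
    intro κ hκ
    rw [continuous_iff_continuousAt]
    intro l
    exact (NHE.kch_cont hκ (l := l) (v := 0) (by simp)).comp (f := fun l : ℝ => ((l, 0) : ℝ × ℂ)) (by fun_prop)
  obtain ⟨o, ho⟩ := exists_PC (x := κ (0, 0)) (y := κ (0, 0)) (hcκ hκ).continuousOn rfl (by
    have := hκ.per 0 0
    rwa [zero_add] at this)
  obtain ⟨o', ho'⟩ := exists_PC (x := κ' (0, 0)) (y := κ' (0, 0)) (hcκ hκ').continuousOn rfl (by
    have := hκ'.per 0 0
    rwa [zero_add] at this)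
  obtain ⟨a, ha⟩ := exists_PC (x := κ (0, 0)) (y := κ' (0, 0)) (f := fun s => H (s, 0))
    (hH.comp (by fun_prop)).continuousOn hH0 hH1
  have hsq : o ≫ a = a ≫ o' := by
    refine PC.square hH.continuousOn ?_ ?_ ha ?_
    · exact ho.congr (fun t _ => h0 t)
    · exact ho'.congr (fun t _ => h1 t)
    · refine ha.congr (fun s _ => ?_)
      have := hper s 0
      rwa [zero_add] at this
  -- the trace of the base point
  have htr : PC (fun s => V s (κ' (0, 0))) (inv a) := by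
    have e1 : PC (fun s => H (1 - s, 0)) (inv a) := ha.symm
    obtain ⟨γ, h2, h3⟩ := hVc
    obtain ⟨γ', h4, h5⟩ := hc
    have e2 : PC (fun s => V s (κ' (0, 0))) (NHQ.cl (γ.map continuous_subtype_val)) := ⟨_, fun t => h2 t, rfl⟩
    have e3 : PC (fun s => H (1 - s, 0)) (NHQ.cl (γ'.map continuous_subtype_val)) := ⟨_, fun t => h4 t, rfl⟩
    have e4 : NHQ.cl (γ.map continuous_subtype_val) = NHQ.cl (γ'.map continuous_subtype_val) :=
      NHQ.cl_eq ((h3.trans h5.symm).map ⟨Subtype.val, continuous_subtype_val⟩)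
    rw [e4, e3.unique e1] at e2
    exact e2
  have hcls : PC (fun l => V 1 (κ' (l, 0))) o := by
    have e1 := bgm_push hV ho' htr htr
    have e2 : inv (inv a) ≫ o' ≫ inv a = o := by
      rw [IsIso.inv_inv, ← Category.assoc, ← hsq, Category.assoc, IsIso.hom_inv_id, Category.comp_id]
    rwa [e2] at e1
  -- the germ
  have hfoot : ∀ (κ : ℝ × ℂ → N) (l : ℝ) (v : ℂ), footT κ 0 1 ((⟨l, v.im⟩ : ℂ), v.re) = κ (l, v) := by
    intro κ l v
    rw [NHE.kch_foot, zero_add]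
  have hmem : ∀ (l : ℝ) (v : ℂ), |l| < ρ / 2 → ‖v‖ < ρ / 2 → ((⟨l, v.im⟩ : ℂ), v.re) ∈ Bl ρ := by
    intro l v hl hv
    change ‖(⟨l, v.im⟩ : ℂ)‖ ^ 2 + v.re ^ 2 < ρ ^ 2
    rw [NHE.kch_norm_sq]
    have e1 : v.re ^ 2 + v.im ^ 2 = ‖v‖ ^ 2 := by
      rw [← NHE.kch_norm_sq]
    have e2 : l ^ 2 < (ρ / 2) ^ 2 := sq_lt_sq' (by linarith [(abs_lt.1 hl).1]) (abs_lt.1 hl).2
    have e3 : ‖v‖ ^ 2 < (ρ / 2) ^ 2 := by
      have := norm_nonneg v
      nlinarith
    nlinarith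
  rcases hgerm with hg | hg
  · refine ⟨V, fun q => V 1 (κ' q), o, hV, thick_push hV 1 hκ', fun l => rfl, ⟨ρ / 2, by linarith, fun l v hl hv => ?_⟩,
      ho, hcls⟩
    have := hg _ (hmem l v hl hv)
    rwa [hfoot, hfoot] at this
  · refine ⟨V, fun q => V 1 (κ' (q.1, starRingEnd ℂ q.2)), o, hV, thick_push hV 1 (thick_mir hκ'), fun l => ?_,
      ⟨ρ / 2, by linarith, fun l v hl hv => ?_⟩, ho, ?_⟩
    · change V 1 (κ' (l, starRingEnd ℂ 0)) = _
      rw [map_zero]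
    · have h2 := hg _ (hmem l (starRingEnd ℂ v) hl (by rwa [RCLike.norm_conj]))
      rw [hfoot] at h2
      have h3 : refL ((⟨l, (starRingEnd ℂ v).im⟩ : ℂ), (starRingEnd ℂ v).re) = ((⟨l, v.im⟩ : ℂ), v.re) := by
        rw [refL_apply]
        refine Prod.ext ?_ ?_
        · apply Complex.ext <;> simp
        · simp
      rw [h3, hfoot] at h2
      exact h2
    · refine hcls.congr (fun l _ => ?_)
      change V 1 (κ' (l, starRingEnd ℂ 0)) = _
      rw [map_zero]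

end

end Pool.Agent.NHH
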