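import Mathlib

/-!
# NHH/Chn: chains over an interval (difficulty 2)

`R` is reflexive and transitive on `D`, `[a, b] \ D` is finite, and every `s ∈ [a, b]` has a neighbourhood in which `R x y` for all `x ≤ y` of `D`.  Then `R a b`.
PROOF.  `T = {t ∈ [a, b] | ∀ y ∈ D, a ≤ y → y ≤ t → R a y}`, `a ∈ T`; `s = sSup T`, `ε` for `s`; choose `t ∈ T`, `s - ε < t ≤ s`.  CLAIM: every `y ∈ D`, `a ≤ y ≤ b`, `y < s + ε` satisfies `R a y`: clear for `y ≤ t`.  For `y > t`: if `s - ε < a` then `a ∈ D` is in the neighbourhood and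
`R a y`; otherwise `(s - ε, t)` is infinite, so there is `z ∈ D` in it (`z ∈ [a, b]`), `R a z` (`t ∈ T`), `R z y`.  So `min b (s + ε / 2) ∈ T`, hence `min b (s + ε/2) ≤ s`, `s = b`, and `b ∈ T`, `R a b`.
-/

open Set

namespace Pool.Agent.NHH

theorem chain {D : Set ℝ} {R : ℝ → ℝ → Prop} {a b : ℝ} (hab : a ≤ b) (ha : a ∈ D) (hb : b ∈ D) (hrefl : ∀ x ∈ D, R x x)
    (htr : ∀ x ∈ D, ∀ y ∈ D, ∀ z ∈ D, R x y → R y z → R x z) (hD : (Icc a b \ D).Finite)
    (hloc : ∀ s ∈ Icc a b, ∃ ε : ℝ, 0 < ε ∧ ∀ x ∈ D, ∀ y ∈ D, x ∈ Icc a b → y ∈ Icc a b → |x - s| < ε → |y - s| < ε → x ≤ y → R x y) :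
    R a b := by
  set T : Set ℝ := {t | t ∈ Icc a b ∧ ∀ y ∈ D, a ≤ y → y ≤ t → R a y} with hT
  have haT : a ∈ T := by
    refine ⟨⟨le_rfl, hab⟩, fun y _ h1 h2 => ?_⟩
    have : y = a := le_antisymm h2 h1
    rw [this]
    exact hrefl a ha
  have hbdd : BddAbove T := ⟨b, fun t ht => ht.1.2⟩
  set s := sSup T with hs
  have has : a ≤ s := le_csSup hbdd haT
  have hsb : s ≤ b := csSup_le ⟨a, haT⟩ fun t ht => ht.1.2
  obtain ⟨ε, hε, hloc'⟩ := hloc s ⟨has, hsb⟩
  obtain ⟨t, htT, hst⟩ := exists_lt_of_lt_csSup ⟨a, haT⟩ (show s - ε < sSup T by rw [← hs]; linarith)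
  have hts : t ≤ s := le_csSup hbdd htT
  have claim : ∀ y ∈ D, a ≤ y → y ≤ b → y < s + ε → R a y := by
    intro y hy h1 h2 h3
    rcases le_or_gt y t with h | h
    · exact htT.2 y hy h1 h
    · have hys : |y - s| < ε := by
        rw [abs_lt]
        constructor <;> linarith
      rcases lt_or_ge (s - ε) a with h4 | h4
      · apply hloc' a ha y hy ⟨le_rfl, hab⟩ ⟨h1, h2⟩ _ hys h1
        rw [abs_lt]
        constructor <;> linarith
      · have hinf : (Ioo (s - ε) t \ (Icc a b \ D)).Infinite := (Ioo_infinite hst).sdiff hD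
        obtain ⟨z, ⟨hz1, hz2⟩, hz3⟩ := hinf.nonempty
        have hzI : z ∈ Icc a b := ⟨by linarith, by linarith⟩
        have hzD : z ∈ D := by
          by_contra hn
          exact hz3 ⟨hzI, hn⟩
        refine htr a ha z hzD y hy (htT.2 z hzD hzI.1 hz2.le) ?_
        apply hloc' z hzD y hy hzI ⟨h1, h2⟩ _ hys (by linarith)
        rw [abs_lt]
        constructor <;> linarith
  have hmem : min b (s + ε / 2) ∈ T := by
    refine ⟨⟨le_min hab (by linarith), min_le_left _ _⟩, fun y hy h1 h2 => ?_⟩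
    have h3 := le_min_iff.mp h2
    exact claim y hy h1 h3.1 (by linarith [h3.2])
  have hle : min b (s + ε / 2) ≤ s := le_csSup hbdd hmem
  rcases min_le_iff.mp hle with h | h
  · exact claim b hb hab le_rfl (by linarith)
  · linarith

end Pool.Agent.NHH
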