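import Mathlib
import Pool.Agent.CSG.LDa
import Pool.Agent.CSG.LDb
import Pool.Agent.NHP.Grp
import Pool.Agent.NHP.SmH

/-!
# NHH/Spt: a smooth family of maps near the identity is a push (difficulty 4)

`P s u : N → N` smooth in `(s, u, y)`, `P s 0 = id`, `P s u y = y` for `y ∉ C` (`C` compact).  For `|u|` small (uniformly for
`s ∈ I`, `I` compact) `P s u` is the end of a push.
-/

open scoped Manifold ContDiff Topology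
open Set Filter
open Pool.Agent.CSG (stp)
open Pool.Agent.RSG (E3 ex Thick)

open Pool.Agent.NHP


namespace Pool.Agent.NHH

variable {N : Type*} [TopologicalSpace N] [ChartedSpace E3 N] [IsManifold (𝓡 3) ∞ N] [T2Space N]

/-- a smooth local right inverse of `P s u` near the image of `y` -/
def spt_H (P : ℝ → ℝ → N → N) (a : ℝ × ℝ × N) : Prop :=
  ∃ h : ℝ × ℝ × N → N, ContMDiffAt (𝓘(ℝ, ℝ).prod (𝓘(ℝ, ℝ).prod (𝓡 3))) (𝓡 3) ∞ h (a.1, a.2.1, P a.1 a.2.1 a.2.2) ∧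
    ∀ᶠ b in 𝓝 (a.1, a.2.1, P a.1 a.2.1 a.2.2), P b.1 b.2.1 (h b) = b.2.2

omit [IsManifold (𝓡 3) ∞ N] [T2Space N] in
theorem spt_theta {P : ℝ → ℝ → N → N}
    (hP : ContMDiff (𝓘(ℝ, ℝ).prod (𝓘(ℝ, ℝ).prod (𝓡 3))) (𝓡 3) ∞ fun q : ℝ × ℝ × N => P q.1 q.2.1 q.2.2)
    (h0 : ∀ s y, P s 0 y = y) (s₁ : ℝ) {β : E → N} (hβ : Cht (Metric.ball 0 2) β) {g : N → E}
    (hg : ∀ q ∈ Metric.ball (0 : E) 2, g (β q) = q) (hgs : ∀ x ∈ β '' Metric.ball 0 2, ContMDiffAt (𝓡 3) 𝓘(ℝ, ℂ × ℝ) ∞ g x) :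
    (∀ᶠ a : ℝ × ℝ × E in 𝓝 (s₁, 0, 0), a.2.2 ∈ Metric.ball (0 : E) 2 ∧ P a.1 a.2.1 (β a.2.2) ∈ β '' Metric.ball 0 2) ∧
    IsLocalDiffeomorphAt 𝓘(ℝ, ℝ × ℝ × E) 𝓘(ℝ, ℝ × ℝ × E) ∞
      (fun a : ℝ × ℝ × E => (a.1, a.2.1, g (P a.1 a.2.1 (β a.2.2)))) (s₁, 0, 0) := by
  have hn : (∞ : WithTop ℕ∞) ≠ 0 := by simp
  have h00 : (0 : E) ∈ Metric.ball (0 : E) 2 := by simp
  have hPc : Continuous fun q : ℝ × ℝ × N => P q.1 q.2.1 q.2.2 := hP.continuous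
  have hopen : IsOpen (β '' Metric.ball (0 : E) 2) := hβ.img Metric.isOpen_ball subset_rfl
  have hβc : ∀ q ∈ Metric.ball (0 : E) 2, ContinuousAt β q := fun q hq => CSG.ld_continuousAt (hβ.loc q hq)
  have hW : ∀ᶠ a : ℝ × ℝ × E in 𝓝 (s₁, 0, 0), a.2.2 ∈ Metric.ball (0 : E) 2 ∧
      P a.1 a.2.1 (β a.2.2) ∈ β '' Metric.ball 0 2 := by
    have h1 : ∀ᶠ a : ℝ × ℝ × E in 𝓝 (s₁, 0, 0), a.2.2 ∈ Metric.ball (0 : E) 2 := by
      have hc : ContinuousAt (fun a : ℝ × ℝ × E => a.2.2) (s₁, 0, 0) := by fun_prop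
      exact hc.eventually (Metric.isOpen_ball.mem_nhds h00)
    have h2 : ∀ᶠ a : ℝ × ℝ × E in 𝓝 (s₁, 0, 0), P a.1 a.2.1 (β a.2.2) ∈ β '' Metric.ball 0 2 := by
      have hc1 : ContinuousAt (fun a : ℝ × ℝ × E => β a.2.2) (s₁, 0, 0) := by
        refine ContinuousAt.comp (g := β) (hβc _ h00) ?_
        fun_prop
      have hc2 : ContinuousAt (fun a : ℝ × ℝ × E => (a.1, a.2.1, β a.2.2)) (s₁, 0, 0) := by
        refine ContinuousAt.prodMk (by fun_prop) (ContinuousAt.prodMk (by fun_prop) hc1)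
      have hc3 : ContinuousAt (fun a : ℝ × ℝ × E => P a.1 a.2.1 (β a.2.2)) (s₁, 0, 0) :=
        ContinuousAt.comp (g := fun q : ℝ × ℝ × N => P q.1 q.2.1 q.2.2) hPc.continuousAt hc2
      refine hc3.eventually (hopen.mem_nhds ?_)
      show P s₁ 0 (β 0) ∈ _
      rw [h0]
      exact ⟨0, h00, rfl⟩
    exact h1.and h2
  refine ⟨hW, ?_⟩
  have hsm : ∀ a : ℝ × ℝ × E, a.2.2 ∈ Metric.ball (0 : E) 2 → P a.1 a.2.1 (β a.2.2) ∈ β '' Metric.ball 0 2 →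
      ContDiffAt ℝ ∞ (fun a : ℝ × ℝ × E => g (P a.1 a.2.1 (β a.2.2))) a := by
    intro a ha1 ha2
    rw [← contMDiffAt_iff_contDiffAt]
    have h1 : ContMDiffAt 𝓘(ℝ, ℝ × ℝ × E) (𝓡 3) ∞ (fun a : ℝ × ℝ × E => β a.2.2) a := by
      have h2 : ContMDiffAt 𝓘(ℝ, ℂ × ℝ) (𝓡 3) ∞ β a.2.2 := (hβ.loc _ ha1).contMDiffAt
      refine ContMDiffAt.comp (g := β) (f := fun a : ℝ × ℝ × E => a.2.2) a h2 ?_
      exact (contDiff_snd.comp contDiff_snd).contMDiff.contMDiffAt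
    have h3 : ContMDiffAt 𝓘(ℝ, ℝ × ℝ × E) (𝓘(ℝ, ℝ).prod (𝓘(ℝ, ℝ).prod (𝓡 3))) ∞
        (fun a : ℝ × ℝ × E => (a.1, a.2.1, β a.2.2)) a := by
      refine ContMDiffAt.prodMk ?_ (ContMDiffAt.prodMk ?_ h1)
      · exact contDiff_fst.contMDiff.contMDiffAt
      · exact (contDiff_fst.comp contDiff_snd).contMDiff.contMDiffAt
    have h4 : ContMDiffAt 𝓘(ℝ, ℝ × ℝ × E) (𝓡 3) ∞ (fun a : ℝ × ℝ × E => P a.1 a.2.1 (β a.2.2)) a :=
      ContMDiffAt.comp (g := fun q : ℝ × ℝ × N => P q.1 q.2.1 q.2.2) a hP.contMDiffAt h3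
    exact ContMDiffAt.comp (g := g) a (hgs _ ha2) h4
  have hΘs : ∀ a : ℝ × ℝ × E, a.2.2 ∈ Metric.ball (0 : E) 2 → P a.1 a.2.1 (β a.2.2) ∈ β '' Metric.ball 0 2 →
      ContDiffAt ℝ ∞ (fun a : ℝ × ℝ × E => (a.1, a.2.1, g (P a.1 a.2.1 (β a.2.2)))) a := by
    intro a ha1 ha2
    exact contDiff_fst.contDiffAt.prodMk ((contDiff_fst.comp contDiff_snd).contDiffAt.prodMk (hsm a ha1 ha2))
  refine CSG.ld_of_fderiv (hW.mono fun a ha => hΘs a ha.1 ha.2) rfl ?_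
  intro v hv
  have hp : DifferentiableAt ℝ (fun a : ℝ × ℝ × E => g (P a.1 a.2.1 (β a.2.2))) (s₁, 0, 0) :=
    (hsm _ hW.self_of_nhds.1 hW.self_of_nhds.2).differentiableAt hn
  have hd : HasFDerivAt (fun a : ℝ × ℝ × E => (a.1, a.2.1, g (P a.1 a.2.1 (β a.2.2))))
      ((ContinuousLinearMap.fst ℝ ℝ (ℝ × E)).prod
        (((ContinuousLinearMap.fst ℝ ℝ E).comp (ContinuousLinearMap.snd ℝ ℝ (ℝ × E))).prod
          (fderiv ℝ (fun a : ℝ × ℝ × E => g (P a.1 a.2.1 (β a.2.2))) (s₁, 0, 0)))) (s₁, 0, 0) := by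
    refine HasFDerivAt.prodMk hasFDerivAt_fst (HasFDerivAt.prodMk ?_ hp.hasFDerivAt)
    exact hasFDerivAt_fst.comp _ hasFDerivAt_snd
  rw [hd.fderiv] at hv
  obtain ⟨a, b, c⟩ := v
  have ha : a = 0 := congrArg Prod.fst hv
  have hb : b = 0 := congrArg (fun z : ℝ × ℝ × E => z.2.1) hv
  have hc : fderiv ℝ (fun a : ℝ × ℝ × E => g (P a.1 a.2.1 (β a.2.2))) (s₁, 0, 0) (a, b, c) = 0 :=
    congrArg (fun z : ℝ × ℝ × E => z.2.2) hv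
  subst ha hb
  have hq : HasFDerivAt (fun q : E => ((s₁, 0, q) : ℝ × ℝ × E))
      ((ContinuousLinearMap.inr ℝ ℝ (ℝ × E)).comp (ContinuousLinearMap.inr ℝ ℝ E)) (0 : E) := by
    have h2 : HasFDerivAt (fun q : E => (((0 : ℝ), q) : ℝ × E)) (ContinuousLinearMap.inr ℝ ℝ E) (0 : E) :=
      hasFDerivAt_prodMk_right (0 : ℝ) (0 : E)
    exact HasFDerivAt.comp (0 : E) (hasFDerivAt_prodMk_right s₁ ((0 : ℝ), (0 : E))) h2
  have h5 : HasFDerivAt (fun q : E => g (P s₁ 0 (β q)))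
      ((fderiv ℝ (fun a : ℝ × ℝ × E => g (P a.1 a.2.1 (β a.2.2))) (s₁, 0, 0)).comp
        ((ContinuousLinearMap.inr ℝ ℝ (ℝ × E)).comp (ContinuousLinearMap.inr ℝ ℝ E))) (0 : E) :=
    HasFDerivAt.comp (g := fun a : ℝ × ℝ × E => g (P a.1 a.2.1 (β a.2.2))) (f := fun q : E => ((s₁, 0, q) : ℝ × ℝ × E))
      (0 : E) hp.hasFDerivAt hq
  have h6 : HasFDerivAt (fun q : E => g (P s₁ 0 (β q))) (ContinuousLinearMap.id ℝ E) (0 : E) := by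
    refine (hasFDerivAt_id (0 : E)).congr_of_eventuallyEq ?_
    filter_upwards [Metric.isOpen_ball.mem_nhds h00] with q hq'
    show g (P s₁ 0 (β q)) = q
    rw [h0, hg q hq']
  have h7 := congrArg (fun L : E →L[ℝ] E => L c) (h5.unique h6)
  have h8 : fderiv ℝ (fun a : ℝ × ℝ × E => g (P a.1 a.2.1 (β a.2.2))) (s₁, 0, 0) (0, 0, c) = c := h7
  have h9 : c = 0 := by rw [← h8]; exact hc
  rw [h9]
  rfl

omit [IsManifold (𝓡 3) ∞ N] [T2Space N] in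
/-- the chart coordinates of a neighbourhood of `y₁` -/
theorem spt_nhds {y₁ : N} {β : E → N} (hβ : Cht (Metric.ball 0 2) β) (hβ0 : β 0 = y₁) {g : N → E}
    (hg : ∀ q ∈ Metric.ball (0 : E) 2, g (β q) = q) (hgs : ∀ x ∈ β '' Metric.ball 0 2, ContMDiffAt (𝓡 3) 𝓘(ℝ, ℂ × ℝ) ∞ g x)
    {s₁ : ℝ} {p : ℝ × ℝ × E → Prop} (hp : ∀ᶠ a : ℝ × ℝ × E in 𝓝 (s₁, 0, 0), p a) :
    ∀ᶠ a : ℝ × ℝ × N in 𝓝 (s₁, 0, y₁), a.2.2 ∈ β '' Metric.ball 0 2 ∧ p (a.1, a.2.1, g a.2.2) := by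
  have h00 : (0 : E) ∈ Metric.ball (0 : E) 2 := by simp
  have hopen : IsOpen (β '' Metric.ball (0 : E) 2) := hβ.img Metric.isOpen_ball subset_rfl
  have hy : y₁ ∈ β '' Metric.ball (0 : E) 2 := ⟨0, h00, hβ0⟩
  have hgy : g y₁ = 0 := by rw [← hβ0, hg 0 h00]
  have h1 : ∀ᶠ a : ℝ × ℝ × N in 𝓝 (s₁, 0, y₁), a.2.2 ∈ β '' Metric.ball 0 2 := by
    have hc : ContinuousAt (fun a : ℝ × ℝ × N => a.2.2) (s₁, 0, y₁) := by fun_prop
    exact hc.eventually (hopen.mem_nhds hy)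
  have h2 : ContinuousAt (fun a : ℝ × ℝ × N => (a.1, a.2.1, g a.2.2)) (s₁, 0, y₁) := by
    refine ContinuousAt.prodMk (by fun_prop) (ContinuousAt.prodMk (by fun_prop) ?_)
    refine ContinuousAt.comp (g := g) (hgs _ hy).continuousAt ?_
    fun_prop
  refine h1.and (h2.eventually ?_)
  show ∀ᶠ y in 𝓝 (s₁, 0, g y₁), p y
  rw [hgy]
  exact hp

theorem spt_loc1 {P : ℝ → ℝ → N → N}
    (hP : ContMDiff (𝓘(ℝ, ℝ).prod (𝓘(ℝ, ℝ).prod (𝓡 3))) (𝓡 3) ∞ fun q : ℝ × ℝ × N => P q.1 q.2.1 q.2.2)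
    (h0 : ∀ s y, P s 0 y = y) (s₁ : ℝ) (y₁ : N) : ∀ᶠ a in 𝓝 (s₁, (0 : ℝ), y₁), spt_H P a := by
  have hPc : Continuous fun q : ℝ × ℝ × N => P q.1 q.2.1 q.2.2 := hP.continuous
  obtain ⟨β, hβ, -, hβ0⟩ := exists_chart (Y := (univ : Set N)) isOpen_univ (mem_univ y₁)
  obtain ⟨g, hg, hgs⟩ := hβ.inv
  have hopen : IsOpen (β '' Metric.ball (0 : E) 2) := hβ.img Metric.isOpen_ball subset_rfl
  obtain ⟨hW, hΘ⟩ := spt_theta hP h0 s₁ hβ hg hgs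
  have h1 := hW.eventually_nhds.and (CSG.ld_eventually hΘ)
  have h2 := spt_nhds hβ hβ0 hg hgs h1
  filter_upwards [h2] with a ha
  obtain ⟨s, u, y⟩ := a
  obtain ⟨⟨q, hq, hqy⟩, hWa, hΘa⟩ := ha
  simp only at hqy hWa hΘa
  subst hqy
  rw [hg q hq] at hWa hΘa
  set L := hΘa.localInverse with hL
  obtain ⟨-, hPq⟩ := hWa.self_of_nhds
  simp only at hPq
  have hL1 : ContMDiffAt 𝓘(ℝ, ℝ × ℝ × E) 𝓘(ℝ, ℝ × ℝ × E) ∞ L (s, u, g (P s u (β q))) := hΘa.localInverse_contMDiffAt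
  have hL2 : L (s, u, g (P s u (β q))) = (s, u, q) := hΘa.localInverse_left_inv hΘa.localInverse_mem_target
  have hL3 := hΘa.localInverse_eventuallyEq_right
  have hfst : ContMDiffAt (𝓘(ℝ, ℝ).prod (𝓘(ℝ, ℝ).prod (𝓡 3))) 𝓘(ℝ, ℝ) ∞ (fun b : ℝ × ℝ × N => b.1) (s, u, P s u (β q)) :=
    contMDiffAt_fst
  have hsnd : ContMDiffAt (𝓘(ℝ, ℝ).prod (𝓘(ℝ, ℝ).prod (𝓡 3))) 𝓘(ℝ, ℝ) ∞ (fun b : ℝ × ℝ × N => b.2.1) (s, u, P s u (β q)) :=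
    ContMDiffAt.comp (I' := 𝓘(ℝ, ℝ).prod (𝓡 3)) (g := fun b : ℝ × N => b.1) (f := fun b : ℝ × ℝ × N => b.2) _
      contMDiffAt_fst contMDiffAt_snd
  have htrd : ContMDiffAt (𝓘(ℝ, ℝ).prod (𝓘(ℝ, ℝ).prod (𝓡 3))) (𝓡 3) ∞ (fun b : ℝ × ℝ × N => b.2.2) (s, u, P s u (β q)) :=
    ContMDiffAt.comp (I' := 𝓘(ℝ, ℝ).prod (𝓡 3)) (g := fun b : ℝ × N => b.2) (f := fun b : ℝ × ℝ × N => b.2) _
      contMDiffAt_snd contMDiffAt_snd
  have hG : ContMDiffAt (𝓘(ℝ, ℝ).prod (𝓘(ℝ, ℝ).prod (𝓡 3))) 𝓘(ℝ, ℝ × ℝ × E) ∞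
      (fun b : ℝ × ℝ × N => (b.1, b.2.1, g b.2.2)) (s, u, P s u (β q)) := by
    refine hfst.prodMk_space (hsnd.prodMk_space ?_)
    exact ContMDiffAt.comp (g := g) (s, u, P s u (β q)) (hgs _ hPq) htrd
  have hLG : ContMDiffAt (𝓘(ℝ, ℝ).prod (𝓘(ℝ, ℝ).prod (𝓡 3))) 𝓘(ℝ, ℝ × ℝ × E) ∞
      (fun b : ℝ × ℝ × N => L (b.1, b.2.1, g b.2.2)) (s, u, P s u (β q)) :=
    ContMDiffAt.comp (g := L) (s, u, P s u (β q)) hL1 hG
  refine ⟨fun b => β (L (b.1, b.2.1, g b.2.2)).2.2, ?_, ?_⟩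
  · show ContMDiffAt (𝓘(ℝ, ℝ).prod (𝓘(ℝ, ℝ).prod (𝓡 3))) (𝓡 3) ∞ (fun b : ℝ × ℝ × N => β (L (b.1, b.2.1, g b.2.2)).2.2)
      (s, u, P s u (β q))
    have h3 : ContMDiffAt 𝓘(ℝ, ℝ × ℝ × E) (𝓡 3) ∞ (fun a : ℝ × ℝ × E => β a.2.2) (s, u, q) := by
      have h4 : ContMDiffAt 𝓘(ℝ, ℂ × ℝ) (𝓡 3) ∞ β q := (hβ.loc _ hq).contMDiffAt
      refine ContMDiffAt.comp (g := β) (f := fun a : ℝ × ℝ × E => a.2.2) (s, u, q) h4 ?_
      exact (contDiff_snd.comp contDiff_snd).contMDiff.contMDiffAt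
    rw [← hL2] at h3
    exact ContMDiffAt.comp (g := fun a : ℝ × ℝ × E => β a.2.2) (s, u, P s u (β q)) h3 hLG
  · show ∀ᶠ b in 𝓝 (s, u, P s u (β q)), P b.1 b.2.1 (β (L (b.1, b.2.1, g b.2.2)).2.2) = b.2.2
    have h3 : ∀ᶠ b : ℝ × ℝ × N in 𝓝 (s, u, P s u (β q)), b.2.2 ∈ β '' Metric.ball 0 2 :=
      htrd.continuousAt.eventually (hopen.mem_nhds hPq)
    have h4 := hG.continuousAt.eventually hL3
    have h5 : ∀ᶠ b : ℝ × ℝ × N in 𝓝 (s, u, P s u (β q)), (L (b.1, b.2.1, g b.2.2)).2.2 ∈ Metric.ball (0 : E) 2 ∧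
        P (L (b.1, b.2.1, g b.2.2)).1 (L (b.1, b.2.1, g b.2.2)).2.1 (β (L (b.1, b.2.1, g b.2.2)).2.2) ∈ β '' Metric.ball 0 2 := by
      have h6 := hLG.continuousAt.tendsto
      rw [show L ((s, u, P s u (β q)).1, (s, u, P s u (β q)).2.1, g (s, u, P s u (β q)).2.2) = (s, u, q) from hL2] at h6
      exact h6.eventually hWa
    filter_upwards [h3, h4, h5] with b hb3 hb4 hb5
    obtain ⟨s', u', z⟩ := b
    simp only at hb3 hb4 hb5 ⊢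
    have e1 : (L (s', u', g z)).1 = s' := congrArg Prod.fst hb4
    have e2 : (L (s', u', g z)).2.1 = u' := congrArg (fun w : ℝ × ℝ × E => w.2.1) hb4
    have e3 : g (P (L (s', u', g z)).1 (L (s', u', g z)).2.1 (β (L (s', u', g z)).2.2)) = g z :=
      congrArg (fun w : ℝ × ℝ × E => w.2.2) hb4
    obtain ⟨-, hb6⟩ := hb5
    rw [e1, e2] at e3 hb6
    obtain ⟨q₂, hq₂, he₂⟩ := hb6
    obtain ⟨q₃, hq₃, he₃⟩ := hb3
    rw [← he₂, ← he₃, hg _ hq₂, hg _ hq₃] at e3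
    rw [← he₂, e3, he₃]

theorem spt_loc2 {P : ℝ → ℝ → N → N}
    (hP : ContMDiff (𝓘(ℝ, ℝ).prod (𝓘(ℝ, ℝ).prod (𝓡 3))) (𝓡 3) ∞ fun q : ℝ × ℝ × N => P q.1 q.2.1 q.2.2)
    (h0 : ∀ s y, P s 0 y = y) (s₁ : ℝ) (y₁ : N) : ∃ A ∈ 𝓝 (s₁, (0 : ℝ), y₁), ∀ s u y y', (s, u, y) ∈ A → (s, u, y') ∈ A →
      P s u y = P s u y' → y = y' := by
  obtain ⟨β, hβ, -, hβ0⟩ := exists_chart (Y := (univ : Set N)) isOpen_univ (mem_univ y₁)
  obtain ⟨g, hg, hgs⟩ := hβ.inv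
  obtain ⟨hW, hΘ⟩ := spt_theta hP h0 s₁ hβ hg hgs
  obtain ⟨U, hU, hinj⟩ := CSG.ld_injOn hΘ
  have h2 := spt_nhds hβ hβ0 hg hgs (hW.and hU)
  refine ⟨_, h2, ?_⟩
  rintro s u y y' ⟨⟨q, hq, rfl⟩, h3, h4⟩ ⟨⟨q', hq', rfl⟩, h3', h4'⟩ he
  simp only at h3 h4 h3' h4'
  rw [hg q hq] at h3 h4
  rw [hg q' hq'] at h3' h4'
  have h5 := hinj h4 h4' (by
    show (s, u, g (P s u (β q))) = (s, u, g (P s u (β q')))
    rw [he])
  have h6 : q = q' := congrArg (fun w : ℝ × ℝ × E => w.2.2) h5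
  rw [h6]

/-- uniform injectivity -/
theorem spt_inj {P : ℝ → ℝ → N → N} {C : Set N} (hC : IsCompact C)
    (hP : ContMDiff (𝓘(ℝ, ℝ).prod (𝓘(ℝ, ℝ).prod (𝓡 3))) (𝓡 3) ∞ fun q : ℝ × ℝ × N => P q.1 q.2.1 q.2.2)
    (h0 : ∀ s y, P s 0 y = y) (hout : ∀ s u, ∀ y ∉ C, P s u y = y) {I : Set ℝ} (hI : IsCompact I) :
    ∀ᶠ u in 𝓝 (0 : ℝ), ∀ s ∈ I, Function.Injective (P s u) := by
  have hPc : Continuous fun q : ℝ × ℝ × N => P q.1 q.2.1 q.2.2 := hP.continuous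
  let C' : Set N := C ∪ (fun q : ℝ × ℝ × N => P q.1 q.2.1 q.2.2) '' (I ×ˢ (Icc (-1) 1 ×ˢ C))
  have hC' : IsCompact C' := hC.union ((hI.prod (isCompact_Icc.prod hC)).image hPc)
  have h1 : ∀ᶠ u in 𝓝 (0 : ℝ), ∀ a ∈ I ×ˢ (C' ×ˢ C'), P a.1 u a.2.1 = P a.1 u a.2.2 → a.2.1 = a.2.2 := by
    refine (hI.prod (hC'.prod hC')).eventually_forall_of_forall_eventually ?_
    rintro ⟨s, y, y'⟩ -
    show ∀ᶠ z : ℝ × ℝ × N × N in 𝓝 (0, s, y, y'), P z.2.1 z.1 z.2.2.1 = P z.2.1 z.1 z.2.2.2 → z.2.2.1 = z.2.2.2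
    by_cases hy : y = y'
    · subst hy
      obtain ⟨A, hA, hA2⟩ := spt_loc2 hP h0 s y
      have c1 : ContinuousAt (fun z : ℝ × ℝ × N × N => (z.2.1, z.1, z.2.2.1)) (0, s, y, y) := by fun_prop
      have c2 : ContinuousAt (fun z : ℝ × ℝ × N × N => (z.2.1, z.1, z.2.2.2)) (0, s, y, y) := by fun_prop
      filter_upwards [c1.eventually hA, c2.eventually hA] with z h3 h4 h5
      exact hA2 _ _ _ _ h3 h4 h5
    · have c1 : ContinuousAt (fun z : ℝ × ℝ × N × N => P z.2.1 z.1 z.2.2.1) (0, s, y, y') := by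
        refine ContinuousAt.comp (g := fun q : ℝ × ℝ × N => P q.1 q.2.1 q.2.2)
          (f := fun z : ℝ × ℝ × N × N => (z.2.1, z.1, z.2.2.1)) hPc.continuousAt ?_
        fun_prop
      have c2 : ContinuousAt (fun z : ℝ × ℝ × N × N => P z.2.1 z.1 z.2.2.2) (0, s, y, y') := by
        refine ContinuousAt.comp (g := fun q : ℝ × ℝ × N => P q.1 q.2.1 q.2.2)
          (f := fun z : ℝ × ℝ × N × N => (z.2.1, z.1, z.2.2.2)) hPc.continuousAt ?_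
        fun_prop
      have h3 : ∀ᶠ z : ℝ × ℝ × N × N in 𝓝 (0, s, y, y'), P z.2.1 z.1 z.2.2.1 ≠ P z.2.1 z.1 z.2.2.2 := by
        have hne : P s 0 y ≠ P s 0 y' := by rwa [h0, h0]
        have hne' : (P s 0 y, P s 0 y') ∈ (Set.diagonal N)ᶜ := hne
        exact (c1.prodMk c2).eventually (isClosed_diagonal.isOpen_compl.mem_nhds hne')
      filter_upwards [h3] with z hz h
      exact absurd h hz
  have h2 : ∀ᶠ u in 𝓝 (0 : ℝ), u ∈ Icc (-1 : ℝ) 1 := Icc_mem_nhds (by norm_num) (by norm_num)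
  filter_upwards [h1, h2] with u hu1 hu2 s hs y y' he
  have key : ∀ y y', y ∈ C → P s u y = P s u y' → y = y' := by
    intro y y' hy he
    have hy1 : y ∈ C' := Or.inl hy
    have hy2 : y' ∈ C' := by
      by_cases hy' : y' ∈ C
      · exact Or.inl hy'
      · right
        refine ⟨(s, u, y), ⟨hs, hu2, hy⟩, ?_⟩
        show P s u y = y'
        rw [he, hout s u y' hy']
    exact hu1 (s, y, y') ⟨hs, hy1, hy2⟩ he
  by_cases hy : y ∈ C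
  · exact key y y' hy he
  · by_cases hy' : y' ∈ C
    · exact (key y' y hy' he.symm).symm
    · rwa [hout s u y hy, hout s u y' hy'] at he

/-- local inverses everywhere -/
theorem spt_inv {P : ℝ → ℝ → N → N} {C : Set N} (hC : IsCompact C)
    (hP : ContMDiff (𝓘(ℝ, ℝ).prod (𝓘(ℝ, ℝ).prod (𝓡 3))) (𝓡 3) ∞ fun q : ℝ × ℝ × N => P q.1 q.2.1 q.2.2)
    (h0 : ∀ s y, P s 0 y = y) (hout : ∀ s u, ∀ y ∉ C, P s u y = y) {I : Set ℝ} (hI : IsCompact I) :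
    ∀ᶠ u in 𝓝 (0 : ℝ), ∀ s ∈ I, ∀ y, spt_H P (s, u, y) := by
  have h1 : ∀ᶠ u in 𝓝 (0 : ℝ), ∀ a ∈ I ×ˢ C, spt_H P (a.1, u, a.2) := by
    refine (hI.prod hC).eventually_forall_of_forall_eventually ?_
    rintro ⟨s, y⟩ -
    show ∀ᶠ z : ℝ × ℝ × N in 𝓝 (0, s, y), spt_H P (z.2.1, z.1, z.2.2)
    have c1 : ContinuousAt (fun z : ℝ × ℝ × N => (z.2.1, z.1, z.2.2)) (0, s, y) := by fun_prop
    exact c1.eventually (spt_loc1 hP h0 s y)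
  filter_upwards [h1] with u hu s hs y
  by_cases hy : y ∈ C
  · exact hu (s, y) ⟨hs, hy⟩
  · refine ⟨fun b => b.2.2, ?_, ?_⟩
    · exact ContMDiffAt.comp (I' := 𝓘(ℝ, ℝ).prod (𝓡 3)) (g := fun b : ℝ × N => b.2) (f := fun b : ℝ × ℝ × N => b.2) _
        contMDiffAt_snd contMDiffAt_snd
    · show ∀ᶠ b in 𝓝 (s, u, P s u y), P b.1 b.2.1 b.2.2 = b.2.2
      rw [hout s u y hy]
      have c1 : ContinuousAt (fun z : ℝ × ℝ × N => z.2.2) (s, u, y) := by fun_prop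
      filter_upwards [c1.eventually (hC.isClosed.isOpen_compl.mem_nhds hy)] with b hb
      exact hout _ _ _ hb

omit [IsManifold (𝓡 3) ∞ N] in
theorem spt_surj {P : ℝ → ℝ → N → N} {C : Set N} (hC : IsCompact C)
    (hP : ContMDiff (𝓘(ℝ, ℝ).prod (𝓘(ℝ, ℝ).prod (𝓡 3))) (𝓡 3) ∞ fun q : ℝ × ℝ × N => P q.1 q.2.1 q.2.2)
    (h0 : ∀ s y, P s 0 y = y) (hout : ∀ s u, ∀ y ∉ C, P s u y = y) {s u : ℝ} (hH : ∀ y, spt_H P (s, u, y)) :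
    Function.Surjective (P s u) := by
  have hPc : Continuous fun q : ℝ × ℝ × N => P q.1 q.2.1 q.2.2 := hP.continuous
  have hPu : Continuous (P s u) := hPc.comp (f := fun y : N => (s, u, y)) (by fun_prop)
  have hop : IsOpen (range (P s u)) := by
    rw [isOpen_iff_mem_nhds]
    rintro _ ⟨y, rfl⟩
    obtain ⟨h, -, h2⟩ := hH y
    have c1 : ContinuousAt (fun z : N => (s, u, z)) (P s u y) := by fun_prop
    filter_upwards [c1.eventually h2] with z hz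
    exact ⟨_, hz⟩
  have hcl : IsClosed (range (P s u)) := by
    have h1 : range (P s u) = P s u '' C ∪ closure Cᶜ := by
      apply Subset.antisymm
      · rintro _ ⟨y, rfl⟩
        by_cases hy : y ∈ C
        · exact Or.inl ⟨y, hy, rfl⟩
        · right
          rw [hout s u y hy]
          exact subset_closure hy
      · rintro z (⟨y, -, rfl⟩ | hz)
        · exact ⟨y, rfl⟩
        · have h2 : IsClosed {y : N | P s u y = y} := isClosed_eq hPu continuous_id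
          have h3 : closure Cᶜ ⊆ {y : N | P s u y = y} := h2.closure_subset_iff.2 fun y hy => hout s u y hy
          exact ⟨z, h3 hz⟩
    rw [h1]
    exact (hC.image hPu).isClosed.union isClosed_closure
  intro z
  have hpre : IsPreconnected ((fun t : ℝ => P s (t * u) z) '' univ) := by
    refine isPreconnected_univ.image _ ?_
    have : Continuous (fun t : ℝ => P s (t * u) z) :=
      hPc.comp (f := fun t : ℝ => (s, t * u, z)) (by fun_prop)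
    exact this.continuousOn
  have h1 := hpre.subset_isClopen ⟨hcl, hop⟩ ⟨P s u z, ⟨1, mem_univ _, by simp⟩, ⟨z, rfl⟩⟩
  have h2 : z ∈ (fun t : ℝ => P s (t * u) z) '' univ := ⟨0, mem_univ _, by simp [h0]⟩
  exact h1 h2

theorem small_push {P : ℝ → ℝ → N → N} {C O : Set N} (hC : IsCompact C) (hCO : C ⊆ O)
    (hP : ContMDiff (𝓘(ℝ, ℝ).prod (𝓘(ℝ, ℝ).prod (𝓡 3))) (𝓡 3) ∞ fun q : ℝ × ℝ × N => P q.1 q.2.1 q.2.2)
    (h0 : ∀ s y, P s 0 y = y) (hout : ∀ s u, ∀ y ∉ C, P s u y = y) {I : Set ℝ} (hI : IsCompact I) :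
    ∃ ε : ℝ, 0 < ε ∧ ∀ s ∈ I, ∀ u : ℝ, |u| ≤ ε → ∃ V : ℝ → Equiv.Perm N, Push O V ∧ ∀ y, V 1 y = P s u y := by
  have h1 := (spt_inj hC hP h0 hout hI).and (spt_inv hC hP h0 hout hI)
  obtain ⟨ε, hε, h2⟩ := Metric.eventually_nhds_iff.1 h1
  refine ⟨ε / 2, by positivity, ?_⟩
  intro s hs u hu
  have hst : ∀ t, |u * stp 0 1 t| < ε := by
    intro t
    have a1 : 0 ≤ stp 0 1 t := CSG.stp_nonneg _ _ _
    have a2 : stp 0 1 t ≤ 1 := CSG.stp_le_one _ _ _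
    rw [abs_mul, abs_of_nonneg a1]
    have a3 : |u| * stp 0 1 t ≤ |u| * 1 := mul_le_mul_of_nonneg_left a2 (abs_nonneg u)
    linarith
  have hinj : ∀ t, Function.Injective (P s (u * stp 0 1 t)) := fun t =>
    (h2 (by rw [dist_zero_right, Real.norm_eq_abs]; exact hst t)).1 s hs
  have hH : ∀ t y, spt_H P (s, u * stp 0 1 t, y) := fun t =>
    (h2 (by rw [dist_zero_right, Real.norm_eq_abs]; exact hst t)).2 s hs
  have hsurj : ∀ t, Function.Surjective (P s (u * stp 0 1 t)) := fun t => spt_surj hC hP h0 hout (hH t)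
  let V : ℝ → Equiv.Perm N := fun t => Equiv.ofBijective (P s (u * stp 0 1 t)) ⟨hinj t, hsurj t⟩
  have hVa : ∀ t y, V t y = P s (u * stp 0 1 t) y := fun t y => rfl
  have hst' : ContMDiff (𝓘(ℝ, ℝ).prod (𝓡 3)) 𝓘(ℝ, ℝ) ∞ (fun q : ℝ × N => u * stp 0 1 q.1) := by
    have a1 : ContMDiff 𝓘(ℝ, ℝ) 𝓘(ℝ, ℝ) ∞ (fun t : ℝ => u * stp 0 1 t) :=
      (contDiff_const.mul (CSG.stp_smooth 0 1)).contMDiff
    exact a1.comp contMDiff_fst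
  have hpair : ContMDiff (𝓘(ℝ, ℝ).prod (𝓡 3)) (𝓘(ℝ, ℝ).prod (𝓘(ℝ, ℝ).prod (𝓡 3))) ∞
      (fun q : ℝ × N => (s, u * stp 0 1 q.1, q.2)) := contMDiff_const.prodMk (hst'.prodMk contMDiff_snd)
  refine ⟨V, ⟨?_, ?_, ?_, ⟨C, hC, hCO, fun t x hx => hout s _ x hx⟩⟩, ?_⟩
  · exact hP.comp hpair
  · rintro ⟨t₀, z₀⟩
    obtain ⟨h, hh1, hh2⟩ := hH t₀ ((V t₀).symm z₀)
    have he : P s (u * stp 0 1 t₀) ((V t₀).symm z₀) = z₀ := (V t₀).apply_symm_apply z₀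
    simp only [he] at hh1 hh2
    have h3 : ContMDiffAt (𝓘(ℝ, ℝ).prod (𝓡 3)) (𝓡 3) ∞ (fun q : ℝ × N => h (s, u * stp 0 1 q.1, q.2)) (t₀, z₀) :=
      ContMDiffAt.comp (g := h) (f := fun q : ℝ × N => (s, u * stp 0 1 q.1, q.2)) (t₀, z₀) hh1 hpair.contMDiffAt
    refine h3.congr_of_eventuallyEq ?_
    have h4 : ContinuousAt (fun q : ℝ × N => (s, u * stp 0 1 q.1, q.2)) (t₀, z₀) := hpair.continuous.continuousAt
    filter_upwards [h4.eventually hh2] with q hq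
    show (V q.1).symm q.2 = h (s, u * stp 0 1 q.1, q.2)
    rw [Equiv.symm_apply_eq]
    exact hq.symm
  · ext y
    show P s (u * stp 0 1 0) y = y
    rw [CSG.stp_zero (by norm_num) le_rfl, mul_zero, h0]
  · intro y
    rw [hVa, CSG.stp_one (by norm_num) le_rfl, mul_one]

end Pool.Agent.NHH
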