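import Mathlib
import Pool.Agent.NHH.Spt

/-!
# NHH/Cut: cutoff functions and cut isotopies (difficulty 2)

`exists_cutN`: `N` is T2 and locally Euclidean (`ChartedSpace.locallyCompactSpace`), not necessarily paracompact.  For `y ∈ A` take a `SmoothBumpFunction (𝓡 3) y` with `tsupport ⊆ U` (`SmoothBumpFunction.nhds_basis_tsupport`), which is `1` near `y` and has compact support; `A` is covered by finitely many of the open sets
`{f_i = 1}` (interiors); `χ = 1 - ∏ (1 - f_i)`.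
`cut_push`: `small_push` with `P s u y = W (s + u * χ y) ((W s).symm y)`, `C` = the compact support of `W` (`Push.supp`), `O`.
-/

open scoped Manifold ContDiff Topology
open Set Filter
open Pool.Agent.CSG (stp)
open Pool.Agent.RSG (E3 ex Thick)

open Pool.Agent.NHP


namespace Pool.Agent.NHH

variable {N : Type*} [TopologicalSpace N] [ChartedSpace E3 N] [IsManifold (𝓡 3) ∞ N] [T2Space N]

theorem exists_cutN {A U : Set N} (hA : IsCompact A) (hU : IsOpen U) (hAU : A ⊆ U) :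
    ∃ χ : N → ℝ, ContMDiff (𝓡 3) 𝓘(ℝ, ℝ) ∞ χ ∧ (∀ y, 0 ≤ χ y ∧ χ y ≤ 1) ∧ (∀ y ∈ A, χ y = 1) ∧ IsCompact (tsupport χ) ∧
      tsupport χ ⊆ U := by
  refine hA.induction_on (p := fun B : Set N => ∃ χ : N → ℝ, ContMDiff (𝓡 3) 𝓘(ℝ, ℝ) ∞ χ ∧ (∀ y, 0 ≤ χ y ∧ χ y ≤ 1) ∧
    (∀ y ∈ B, χ y = 1) ∧ IsCompact (tsupport χ) ∧ tsupport χ ⊆ U) ?_ ?_ ?_ ?_
  · refine ⟨fun _ => 0, contMDiff_const, fun y => ⟨le_rfl, zero_le_one⟩, fun y hy => absurd hy (notMem_empty y), ?_, ?_⟩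
    · have h : tsupport (fun _ : N => (0 : ℝ)) = ∅ := by
        rw [tsupport_eq_empty_iff]
        rfl
      rw [h]
      exact isCompact_empty
    · have h : tsupport (fun _ : N => (0 : ℝ)) = ∅ := by
        rw [tsupport_eq_empty_iff]
        rfl
      rw [h]
      exact empty_subset _
  · rintro B B' hB ⟨χ, h1, h2, h3, h4⟩
    exact ⟨χ, h1, h2, fun y hy => h3 y (hB hy), h4⟩
  · rintro B B' ⟨χ, h1, h2, h3, h4, h5⟩ ⟨φ, g1, g2, g3, g4, g5⟩
    have hts : tsupport (fun y => χ y + φ y - χ y * φ y) ⊆ tsupport χ ∪ tsupport φ := by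
      refine closure_minimal ?_ ((isClosed_tsupport χ).union (isClosed_tsupport φ))
      intro y hy
      by_contra hc
      have c1 : χ y = 0 := image_eq_zero_of_notMem_tsupport fun h => hc (Or.inl h)
      have c2 : φ y = 0 := image_eq_zero_of_notMem_tsupport fun h => hc (Or.inr h)
      refine hy ?_
      show χ y + φ y - χ y * φ y = 0
      rw [c1, c2]
      ring
    refine ⟨fun y => χ y + φ y - χ y * φ y, (h1.add g1).sub (h1.mul g1), ?_, ?_, ?_, ?_⟩
    · intro y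
      obtain ⟨a1, a2⟩ := h2 y
      obtain ⟨b1, b2⟩ := g2 y
      constructor
      · show 0 ≤ χ y + φ y - χ y * φ y
        nlinarith [mul_nonneg a1 (sub_nonneg.2 b2)]
      · show χ y + φ y - χ y * φ y ≤ 1
        nlinarith [mul_nonneg (sub_nonneg.2 a2) (sub_nonneg.2 b2)]
    · rintro y (hy | hy)
      · show χ y + φ y - χ y * φ y = 1
        rw [h3 y hy]
        ring
      · show χ y + φ y - χ y * φ y = 1
        rw [g3 y hy]
        ring
    · exact (h4.union g4).of_isClosed_subset (isClosed_tsupport _) hts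
    · exact hts.trans (union_subset h5 g5)
  · intro y hy
    obtain ⟨f, -, hf⟩ := (SmoothBumpFunction.nhds_basis_tsupport (I := 𝓡 3) y).mem_iff.1 (hU.mem_nhds (hAU hy))
    refine ⟨{z | f z = 1}, mem_nhdsWithin_of_mem_nhds f.eventuallyEq_one, f, f.contMDiff, fun z => ⟨f.nonneg, f.le_one⟩,
      fun z hz => hz, f.hasCompactSupport, hf⟩

theorem cut_push {O : Set N} {W : ℝ → Equiv.Perm N} (hW : Push O W) {χ : N → ℝ} (hχ : ContMDiff (𝓡 3) 𝓘(ℝ, ℝ) ∞ χ)
    {I : Set ℝ} (hI : IsCompact I) :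
    ∃ ε : ℝ, 0 < ε ∧ ∀ s ∈ I, ∀ u : ℝ, |u| ≤ ε → ∃ V : ℝ → Equiv.Perm N, Push O V ∧
      ∀ y, V 1 y = W (s + u * χ y) ((W s).symm y) := by
  obtain ⟨C, hC, hCO, hsup⟩ := hW.supp
  refine small_push (P := fun s u y => W (s + u * χ y) ((W s).symm y)) hC hCO ?_ ?_ ?_ hI
  · have h1 : ContMDiff (𝓘(ℝ, ℝ).prod (𝓘(ℝ, ℝ).prod (𝓡 3))) 𝓘(ℝ, ℝ) ∞ fun q : ℝ × ℝ × N => q.1 + q.2.1 * χ q.2.2 :=
      contMDiff_fst.add ((contMDiff_fst.comp contMDiff_snd).mul (hχ.comp (contMDiff_snd.comp contMDiff_snd)))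
    have h2 : ContMDiff (𝓘(ℝ, ℝ).prod (𝓘(ℝ, ℝ).prod (𝓡 3))) (𝓡 3) ∞ fun q : ℝ × ℝ × N => (W q.1).symm q.2.2 :=
      hW.smooth_symm.comp (contMDiff_fst.prodMk (contMDiff_snd.comp contMDiff_snd))
    exact hW.smooth.comp (h1.prodMk h2)
  · intro s y
    show W (s + 0 * χ y) ((W s).symm y) = y
    rw [zero_mul, add_zero, Equiv.apply_symm_apply]
  · intro s u y hy
    show W (s + u * χ y) ((W s).symm y) = y
    have h1 : (W s).symm y = y := by
      rw [Equiv.symm_apply_eq]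
      exact (hsup s y hy).symm
    rw [h1]
    exact hsup _ y hy

end Pool.Agent.NHH
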