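import Mathlib
import Pool.Agent.NHP.Defs
import Pool.Agent.NHQ.Defs

/-!
# NHH/Defs: homotopic knots are related by pushes and crossing changes, definitions

`k : ℝ → N` is a curve of period `1` (the core of a thick knot), `0 < b < 1`, `W` is a push of `N - {k 0, k b}`.

* `kcf b k W th`: the curve `k` on `[0, b]` and `x ↦ W (th x) (k x)` on `[b, 1]`; `kc b k W s`: the same with `th = s` constant.
* `Frm b k W`: `W` is a push of `N - {k 0, k b}`.
* `Free b k W s`: at the time `s` the moved arc `k (b, 1)` does not meet the fixed arc `k [0, b]`.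
* `Bxx ρ`: the box `|u|, |y|, |τ| < ρ` in `E`, points `(u + i y, τ)`.
* `Trv b k W s x z ρ G`: at the time `s` the point `k x` of the moving arc crosses the fixed arc transversally in `k z`:
  `G` is a chart on `Bxx ρ` with `G (u, τ) = W (s + τ) (k (x + u))`, `G (i y, 0) = k (z + y)`.
-/

open scoped Manifold ContDiff Topology
open Set Filter
open Pool.Agent.RSG (E3 ex Thick)
open Pool.Agent.NHP

namespace Pool.Agent.NHH

/-- the box -/
def Bxx (ρ : ℝ) : Set E := {q | |q.1.re| < ρ ∧ |q.1.im| < ρ ∧ |q.2| < ρ}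

section
variable {N : Type*} [TopologicalSpace N]

/-- `k` on `[0, b]`, `x ↦ W (th x) (k x)` on `[b, 1]` -/
noncomputable def kcf (b : ℝ) (k : ℝ → N) (W : ℝ → Equiv.Perm N) (th : ℝ → ℝ) (x : ℝ) : N := by
  classical
  exact if Int.fract x ≤ b then k x else W (th (Int.fract x)) (k x)

/-- the curve at the time `s` -/
noncomputable def kc (b : ℝ) (k : ℝ → N) (W : ℝ → Equiv.Perm N) (s : ℝ) : ℝ → N := kcf b k W fun _ => s

/-- no crossing at the time `s` -/
def Free (b : ℝ) (k : ℝ → N) (W : ℝ → Equiv.Perm N) (s : ℝ) : Prop :=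
  ∀ x ∈ Ioo b 1, W s (k x) ∉ k '' Icc 0 b

end

section
variable {N : Type*} [TopologicalSpace N] [ChartedSpace E3 N]

/-- a curve and an isotopy which fixes `k 0` and `k b` -/
structure Frm (b : ℝ) (k : ℝ → N) (W : ℝ → Equiv.Perm N) : Prop where
  pos : 0 < b
  lt : b < 1
  push : Push ({k 0, k b}ᶜ) W

/-- a transversal crossing -/
structure Trv (b : ℝ) (k : ℝ → N) (W : ℝ → Equiv.Perm N) (s x z ρ : ℝ) (G : E → N) : Prop where
  pos : 0 < ρ
  x1 : b < x - ρ
  x2 : x + ρ < 1
  z1 : 0 < z - ρ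
  z2 : z + ρ < b
  cht : Cht (Bxx ρ) G
  mov : ∀ u τ : ℝ, |u| < ρ → |τ| < ρ → G ((u : ℂ), τ) = W (s + τ) (k (x + u))
  fix : ∀ y : ℝ, |y| < ρ → G (⟨0, y⟩, 0) = k (z + y)

end

end Pool.Agent.NHH
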