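import Mathlib
import Pool.Agent.NHH.Defs
import Pool.Agent.NHH.Cut
import Pool.Agent.NHH.Chn
import Pool.Agent.NHQ.Lab

/-!
# NHH/FrA: no crossings: the curves differ by a push (difficulty 3)

`kc_zero`: `W 0 = id`, `k` has period `1`.
`free_near`: `C` = compact support of `W` (`Push.supp`, `C ⊆ {k 0, k b}ᶜ`, `W s y = y` for `y ∉ C`, and `(W s).symm y = y`; `W s '' C = C`).  `A = W s₀ '' (k '' Icc b 1) ∩ C`, `H = k '' Icc 0 b ∩ C` are compact (`C` closed: T2) and disjoint: `W s₀ (k y) = k z`, `y = b` or `y = 1` gives `k b` or `k 1 = k 0`, not in `C`;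
`y ∈ (b, 1)`: `Free`.  `exists_cutN` for `A ⊆ Hᶜ`: `χ = 1` on `A`, `χ = 0` on `H` (`tsupport χ ⊆ Hᶜ`).  `cut_push` with `I = {s₀}`: for `|u| ≤ ε` `V 1 y = W (s₀ + u χ y) ((W s₀).symm y)`.  Let `s = s₀ + u`.  For `x` with `fract x ≤ b`: `y = k x = k (fract x) ∈ k '' [0, b]`: if `y ∈ C` then `χ y = 0`, `V 1 y = y`;
if `y ∉ C` both `W` fix `y`.  For `fract x > b`: `y = W s₀ (k x)`, `k x = k (fract x)`; if `y ∈ C`: `y ∈ A`, `V 1 y = W s (k x)`; if `y ∉ C`: `k x = (W s₀).symm y = y ∉ C` and `V 1 y = y = W s (k x)`.  (`Mv (k 0)`: `{k 0, k b}ᶜ ⊆ {k 0}ᶜ`.)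
`free_mv`: `chain` with `D = univ`, `R x y = Mv (k 0) (kc b k W x) (kc b k W y)` (`Mv.refl`, `Mv.trans`, `Mv.symm` in NHQ/Lab) on the interval; replace `W`-times outside of `[s₀, s₁]` by nothing: only points of `[s₀, s₁]` occur (use `D = Icc s₀ s₁`).
-/

open scoped Manifold ContDiff Topology
open Set Filter
open Pool.Agent.CSG (stp)
open Pool.Agent.RSG (E3 ex Thick)
open Pool.Agent.KNT (bmp)
open Pool.Agent.NHP
open Pool.Agent.NHQ (Crv Mv fing)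

namespace Pool.Agent.NHH

variable {N : Type*} [TopologicalSpace N] [ChartedSpace E3 N] [IsManifold (𝓡 3) ∞ N] [T2Space N]

theorem kc_zero {b : ℝ} {k : ℝ → N} {W : ℝ → Equiv.Perm N} (hF : Frm b k W) : kc b k W 0 = k := by
  funext x
  unfold kc kcf
  split_ifs with h
  · rfl
  · rw [hF.push.zero]
    rfl

theorem kc_per {b : ℝ} {k : ℝ → N} {W : ℝ → Equiv.Perm N} (hper : ∀ x, k (x + 1) = k x) (th : ℝ → ℝ) (x : ℝ) :
    kcf b k W th (x + 1) = kcf b k W th x := by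
  unfold kcf
  rw [Int.fract_add_one, hper]

theorem kcf_at_zero {b : ℝ} {k : ℝ → N} {W : ℝ → Equiv.Perm N} (hF : Frm b k W) (th : ℝ → ℝ) : kcf b k W th 0 = k 0 := by
  unfold kcf
  rw [Int.fract_zero, if_pos hF.pos.le]

omit [TopologicalSpace N] [ChartedSpace E3 N] [IsManifold (𝓡 3) ∞ N] [T2Space N] in
theorem fra_fract {k : ℝ → N} (hper : ∀ x, k (x + 1) = k x) (x : ℝ) : k (Int.fract x) = k x := by
  have h1 : Function.Periodic k 1 := hper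
  have h2 := h1.sub_int_mul_eq ⌊x⌋ (x := x)
  rw [mul_one] at h2
  exact h2

theorem free_near {b : ℝ} {k : ℝ → N} {W : ℝ → Equiv.Perm N} (hF : Frm b k W) (hk : Continuous k) (hper : ∀ x, k (x + 1) = k x)
    {s₀ : ℝ} (hs : Free b k W s₀) : ∃ ε : ℝ, 0 < ε ∧ ∀ s : ℝ, |s - s₀| ≤ ε → Mv (k 0) (kc b k W s₀) (kc b k W s) := by
  obtain ⟨C, hC, hCO, hsup⟩ := hF.push.supp
  have hsym : ∀ s y, y ∉ C → (W s).symm y = y := by
    intro s y hy
    rw [Equiv.symm_apply_eq]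
    exact (hsup s y hy).symm
  have hfr : ∀ x, k (Int.fract x) = k x := fra_fract hper
  have h0C : k 0 ∉ C := fun h => hCO h (Or.inl rfl)
  have hbC : k b ∉ C := fun h => hCO h (Or.inr rfl)
  have hWs : Continuous (W s₀) := hF.push.cont.comp (Continuous.prodMk_right s₀)
  have hA : IsCompact (W s₀ '' (k '' Icc b 1) ∩ C) :=
    ((isCompact_Icc.image hk).image hWs).inter_right hC.isClosed
  have hH : IsCompact (k '' Icc 0 b ∩ C) := (isCompact_Icc.image hk).inter_right hC.isClosed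
  have hAH : W s₀ '' (k '' Icc b 1) ∩ C ⊆ (k '' Icc 0 b ∩ C)ᶜ := by
    rintro _ ⟨⟨_, ⟨z, hz, rfl⟩, rfl⟩, hyC⟩ ⟨h2, -⟩
    rcases hz.1.eq_or_lt with h3 | h3
    · rw [← h3, hsup s₀ _ hbC] at hyC
      exact hbC hyC
    · rcases hz.2.eq_or_lt with h4 | h4
      · have h5 : k 1 = k 0 := by
          have := hper 0
          rwa [zero_add] at this
        rw [h4, h5, hsup s₀ _ h0C] at hyC
        exact h0C hyC
      · exact hs z ⟨h3, h4⟩ h2
  obtain ⟨χ, hχ, -, hχ1, -, hχs⟩ := exists_cutN hA hH.isClosed.isOpen_compl hAH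
  have hχ0 : ∀ y ∈ k '' Icc 0 b ∩ C, χ y = 0 := fun y hy =>
    image_eq_zero_of_notMem_tsupport fun h => hχs h hy
  obtain ⟨ε, hε, H⟩ := cut_push hF.push hχ (I := {s₀}) isCompact_singleton
  refine ⟨ε, hε, fun s hsε => ?_⟩
  obtain ⟨V, hV, hV1⟩ := H s₀ rfl (s - s₀) hsε
  refine ⟨V, hV.mono fun y hy h => hy (Or.inl h), fun x => ?_⟩
  rw [hV1]
  unfold kc kcf
  by_cases hx : Int.fract x ≤ b
  · rw [if_pos hx, if_pos hx]
    by_cases hc : k x ∈ C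
    · rw [hχ0 (k x) ⟨⟨Int.fract x, ⟨Int.fract_nonneg x, hx⟩, hfr x⟩, hc⟩, mul_zero, add_zero, Equiv.apply_symm_apply]
    · rw [hsym s₀ _ hc, hsup _ _ hc]
  · rw [if_neg hx, if_neg hx, Equiv.symm_apply_apply]
    by_cases hc : W s₀ (k x) ∈ C
    · rw [hχ1 _ ⟨⟨k x, ⟨Int.fract x, ⟨(not_le.1 hx).le, (Int.fract_lt_one x).le⟩, hfr x⟩, rfl⟩, hc⟩]
      congr 2
      ring
    · have h2 := hsym s₀ _ hc
      rw [Equiv.symm_apply_apply] at h2
      rw [← h2] at hc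
      rw [hsup _ _ hc, hsup _ _ hc]

theorem free_mv {b : ℝ} {k : ℝ → N} {W : ℝ → Equiv.Perm N} (hF : Frm b k W) (hk : Continuous k) (hper : ∀ x, k (x + 1) = k x)
    {s₀ s₁ : ℝ} (h : s₀ ≤ s₁) (hs : ∀ s ∈ Icc s₀ s₁, Free b k W s) : Mv (k 0) (kc b k W s₀) (kc b k W s₁) := by
  refine chain (D := Icc s₀ s₁) (R := fun x y => Mv (k 0) (kc b k W x) (kc b k W y)) h ⟨le_rfl, h⟩ ⟨h, le_rfl⟩
    (fun x _ => NHQ.Mv.refl _ _) (fun x _ y _ z _ h1 h2 => NHQ.Mv.trans h1 h2) (by simp) ?_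
  intro s hs'
  obtain ⟨ε, hε, H⟩ := free_near hF hk hper (hs s hs')
  exact ⟨ε, hε, fun x hx y hy _ _ h1 h2 _ => NHQ.Mv.trans (NHQ.Mv.symm (H x h1.le)) (H y h2.le)⟩

end Pool.Agent.NHH
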