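import Mathlib
import Pool.Agent.NHH.Defs
import Pool.Agent.NHP.Grp

/-!
# NHH/Crx: finitely many crossings at one time (difficulty 3)

`Crx`: the crossings at the time `s₀`, with boxes of the same size `ρ`, pairwise disjoint, such that only the strands of the crossing enter the boxes (for times `s₀ + τ`, `|τ| < ρ`).
`exists_crx`.  `X` = the finite set of crossing parameters at the time `s₀`; `X ≃ Fin m`.  `Trv` passes to smaller `ρ` (`Bxx` monotone; `Cht.mono`).  The points `n_i = G_i 0 = W s₀ (k (x_i)) = k (z_i)` are different for different `i` (`W s₀` and `k` on `[b, 1)` injective: `hinj`).  CONDITIONS for small `ρ`: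
* `sepx`: clear.  * `disj`: `n_i ≠ n_j`, T2, `G_i` continuous at `0` (`Cht.contOn`), `Bxx ρ` is a basis of neighbourhoods of `0`.
* `exc1`: let `ρ'` be the original size.  The set `M = {(τ, y) | |τ| ≤ ρ'/2, y ∈ [b, 1], |y - x_i| ≥ ρ'/2}` is compact, the map `(τ, y) ↦ W (s₀ + τ) (k y)` is continuous, and for `τ = 0` its value is not `n_i` (injectivity of `W s₀`; `k y = k x_i`, `y ∈ [b, 1]`, `x_i ∈ (b, 1)` implies `y = x_i`: `hinj`).
  So (tube lemma / compactness) there are `δ > 0` and a neighbourhood of `n_i` (hence a box `G_i '' Bxx δ`) such that `|τ| < δ`, `|y - x_i| ≥ ρ'/2` imply `W (s₀ + τ) (k y) ∉ G_i '' Bxx δ`.  If `|y - x_i| < ρ'/2` then the point is `G_i (y - x_i, τ)` (`mov`), and `G_i` is injective on `Bxx ρ'`, so it is in `G_i '' Bxx ρ`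
  (`ρ ≤ δ`) iff `|y - x_i| < ρ`.
* `exc2`: the same with `k y`, `y ∈ [0, b]`, and `fix`.
-/

open scoped Manifold ContDiff Topology
open Set Filter
open Pool.Agent.CSG (stp)
open Pool.Agent.RSG (E3 ex Thick)
open Pool.Agent.KNT (bmp)
open Pool.Agent.NHP
open Pool.Agent.NHQ (Crv Mv fing)

namespace Pool.Agent.NHH

variable {N : Type*} [TopologicalSpace N] [ChartedSpace E3 N] [IsManifold (𝓡 3) ∞ N] [T2Space N]

/-- the crossings at the time `s₀` -/
structure Crx (b : ℝ) (k : ℝ → N) (W : ℝ → Equiv.Perm N) (s₀ : ℝ) {m : ℕ} (x z : Fin m → ℝ) (ρ : ℝ) (G : Fin m → E → N) :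
    Prop where
  rho : 0 < ρ
  trv : ∀ i, Trv b k W s₀ (x i) (z i) ρ (G i)
  all : ∀ y ∈ Ioo b 1, W s₀ (k y) ∈ k '' Icc 0 b → ∃ i, y = x i
  sepx : ∀ i j, i ≠ j → 2 * ρ ≤ |x i - x j|
  disj : ∀ i j, i ≠ j → Disjoint (G i '' Bxx ρ) (G j '' Bxx ρ)
  exc1 : ∀ i, ∀ τ : ℝ, |τ| < ρ → ∀ y ∈ Icc b 1, W (s₀ + τ) (k y) ∈ G i '' Bxx ρ → |y - x i| < ρ
  exc2 : ∀ i, ∀ y ∈ Icc 0 b, k y ∈ G i '' Bxx ρ → |y - z i| < ρ

omit [IsManifold (𝓡 3) ∞ N] [T2Space N] in
theorem bxx_open (ρ : ℝ) : IsOpen (Bxx ρ) := by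
  unfold Bxx
  refine IsOpen.inter ?_ (IsOpen.inter ?_ ?_)
  · exact isOpen_lt (continuous_abs.comp (Complex.continuous_re.comp continuous_fst)) continuous_const
  · exact isOpen_lt (continuous_abs.comp (Complex.continuous_im.comp continuous_fst)) continuous_const
  · exact isOpen_lt (continuous_abs.comp continuous_snd) continuous_const

theorem crx_bxx_mono {ρ ρ' : ℝ} (h : ρ' ≤ ρ) : Bxx ρ' ⊆ Bxx ρ := fun _ hq =>
  ⟨hq.1.trans_le h, hq.2.1.trans_le h, hq.2.2.trans_le h⟩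

theorem crx_bxx_zero {ρ : ℝ} (h : 0 < ρ) : (0 : E) ∈ Bxx ρ := by
  refine ⟨?_, ?_, ?_⟩ <;> simpa using h

omit [IsManifold (𝓡 3) ∞ N] [T2Space N] in
theorem Trv.mono {b : ℝ} {k : ℝ → N} {W : ℝ → Equiv.Perm N} {s x z ρ : ℝ} {G : E → N} (h : Trv b k W s x z ρ G) {ρ' : ℝ}
    (h0 : 0 < ρ') (h1 : ρ' ≤ ρ) : Trv b k W s x z ρ' G where
  pos := h0
  x1 := by linarith [h.x1]
  x2 := by linarith [h.x2]
  z1 := by linarith [h.z1]
  z2 := by linarith [h.z2]
  cht := h.cht.mono (bxx_open ρ') (crx_bxx_mono h1)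
  mov u τ hu hτ := h.mov u τ (hu.trans_le h1) (hτ.trans_le h1)
  fix y hy := h.fix y (hy.trans_le h1)

/-- the boxes are a basis of neighbourhoods of `0` -/
theorem crx_bxx_small {U : Set E} (hU : U ∈ 𝓝 (0 : E)) : ∀ᶠ ρ : ℝ in 𝓝 0, Bxx ρ ⊆ U := by
  obtain ⟨ε, hε, hb⟩ := Metric.mem_nhds_iff.1 hU
  have h1 : ∀ᶠ ρ : ℝ in 𝓝 0, ρ < ε / 2 := eventually_lt_nhds (by linarith)
  filter_upwards [h1] with ρ hρ q hq
  refine hb ?_
  rw [mem_ball_zero_iff, Prod.norm_def]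
  have h2 : ‖q.1‖ ≤ |q.1.re| + |q.1.im| := Complex.norm_le_abs_re_add_abs_im q.1
  have h3 := hq.1
  have h4 := hq.2.1
  have h5 := hq.2.2
  refine max_lt (by linarith) ?_
  rw [Real.norm_eq_abs]
  have := abs_nonneg q.2
  linarith [abs_nonneg q.1.re]

omit [IsManifold (𝓡 3) ∞ N] [T2Space N] in
theorem crx_img_small {ρ' : ℝ} (hρ : 0 < ρ') {G : E → N} (hG : Cht (Bxx ρ') G) {U : Set N} (hU : U ∈ 𝓝 (G 0)) :
    ∀ᶠ ρ : ℝ in 𝓝 0, G '' Bxx ρ ⊆ U := by
  have h1 : ContinuousAt G 0 := hG.contOn.continuousAt ((bxx_open ρ').mem_nhds (crx_bxx_zero hρ))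
  filter_upwards [crx_bxx_small (h1 hU)] with ρ hρ
  rintro _ ⟨q, hq, rfl⟩
  exact hρ hq

omit [IsManifold (𝓡 3) ∞ N] in
/-- a compact family of points away from the centre stays away from a small box -/
theorem crx_away {K : Set ℝ} (hK : IsCompact K) {Φ : ℝ × ℝ → N} (hΦ : Continuous Φ) {ρ' : ℝ} (hρ : 0 < ρ') {G : E → N}
    (hG : Cht (Bxx ρ') G) (hne : ∀ y ∈ K, Φ (0, y) ≠ G 0) :
    ∀ᶠ ρ : ℝ in 𝓝 0, ∀ y ∈ K, ∀ τ : ℝ, |τ| < ρ → Φ (τ, y) ∉ G '' Bxx ρ := by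
  refine hK.eventually_forall_of_forall_eventually (P := fun ρ y => ∀ τ : ℝ, |τ| < ρ → Φ (τ, y) ∉ G '' Bxx ρ)
    fun y hy => ?_
  obtain ⟨U, V, hU, hV, hyU, hnV, hUV⟩ := t2_separation (hne y hy)
  have h1 : ∀ᶠ ρ : ℝ in 𝓝 0, G '' Bxx ρ ⊆ V := crx_img_small hρ hG (hV.mem_nhds hnV)
  have h2 : Φ ⁻¹' U ∈ 𝓝 ((0 : ℝ), y) := hΦ.continuousAt.preimage_mem_nhds (hU.mem_nhds hyU)
  obtain ⟨ε, hε, hb⟩ := Metric.mem_nhds_iff.1 h2
  have h3 : ∀ᶠ q : ℝ × ℝ in 𝓝 ((0 : ℝ), y), q.1 < ε :=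
    continuous_fst.continuousAt.eventually (eventually_lt_nhds hε)
  have h4 : ∀ᶠ q : ℝ × ℝ in 𝓝 ((0 : ℝ), y), |q.2 - y| < ε := by
    have : ContinuousAt (fun q : ℝ × ℝ => |q.2 - y|) ((0 : ℝ), y) := by fun_prop
    refine this.eventually (eventually_lt_nhds ?_)
    simpa using hε
  have hcf : ContinuousAt (Prod.fst : ℝ × ℝ → ℝ) ((0 : ℝ), y) := continuous_fst.continuousAt
  have h5 : ∀ᶠ q : ℝ × ℝ in 𝓝 ((0 : ℝ), y), G '' Bxx q.1 ⊆ V := hcf.eventually h1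
  filter_upwards [h3, h4, h5] with q hq3 hq4 hq5 τ hτ hmem
  refine (Set.disjoint_left.1 hUV) (a := Φ (τ, q.2)) ?_ (hq5 hmem)
  refine hb ?_
  rw [Metric.mem_ball, Prod.dist_eq]
  refine max_lt ?_ ?_
  · rw [Real.dist_eq, sub_zero]; exact hτ.trans hq3
  · rw [Real.dist_eq]; exact hq4

theorem crx_int {a c : ℝ} {n : ℤ} (h : c = a + n) (h1 : c - a < 1) (h2 : a - c < 1) : c = a := by
  have h3 : (n : ℝ) < 1 := by linarith
  have h4 : (-1 : ℝ) < n := by linarith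
  have h5 : n < 1 := by exact_mod_cast h3
  have h6 : -1 < n := by exact_mod_cast h4
  have h7 : n = 0 := by omega
  rw [h7] at h
  simpa using h

theorem exists_crx {b : ℝ} {k : ℝ → N} {W : ℝ → Equiv.Perm N} (hF : Frm b k W) (hk : Continuous k)
    (hinj : ∀ x y, k x = k y → ∃ n : ℤ, y = x + n) {s₀ : ℝ} (hfin : {y | y ∈ Ioo b 1 ∧ W s₀ (k y) ∈ k '' Icc 0 b}.Finite)
    (htrv : ∀ y ∈ Ioo b 1, W s₀ (k y) ∈ k '' Icc 0 b → ∃ (z ρ : ℝ) (G : E → N), Trv b k W s₀ y z ρ G) :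
    ∃ (m : ℕ) (x z : Fin m → ℝ) (ρ : ℝ) (G : Fin m → E → N), Crx b k W s₀ x z ρ G := by
  classical
  have hb0 := hF.pos
  have hb1 := hF.lt
  set X := hfin.toFinset with hX
  obtain ⟨e⟩ : Nonempty (Fin X.card ≃ X) := ⟨X.equivFin.symm⟩
  set x : Fin X.card → ℝ := fun i => (e i : ℝ) with hx
  have hxX : ∀ i, x i ∈ Ioo b 1 ∧ W s₀ (k (x i)) ∈ k '' Icc 0 b := fun i =>
    hfin.mem_toFinset.1 (e i).2
  have hxinj : ∀ i j, x i = x j → i = j := fun i j hij => e.injective (Subtype.ext hij)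
  choose z ρ0 G hT using fun i => htrv (x i) (hxX i).1 (hxX i).2
  have hc0 : ∀ i, G i 0 = W s₀ (k (x i)) := fun i => by
    have := (hT i).mov 0 0 (by simpa using (hT i).pos) (by simpa using (hT i).pos)
    rw [add_zero, add_zero] at this
    exact this
  have hc1 : ∀ i, G i 0 = k (z i) := fun i => by
    have := (hT i).fix 0 (by simpa using (hT i).pos)
    rw [add_zero] at this
    exact this
  have hne : ∀ i j, i ≠ j → G i 0 ≠ G j 0 := by
    intro i j hij h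
    rw [hc0, hc0] at h
    obtain ⟨n, hn⟩ := hinj _ _ ((W s₀).injective h)
    have h1 := (hxX i).1
    have h2 := (hxX j).1
    exact hij (hxinj i j (crx_int hn (by linarith [h1.1, h2.2]) (by linarith [h1.2, h2.1])).symm)
  have hcontW : Continuous fun q : ℝ × N => W q.1 q.2 := hF.push.smooth.continuous
  have hΦ1 : Continuous fun q : ℝ × ℝ => W (s₀ + q.1) (k q.2) :=
    hcontW.comp ((continuous_const.add continuous_fst).prodMk (hk.comp continuous_snd))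
  have hΦ2 : Continuous fun q : ℝ × ℝ => k q.2 := hk.comp continuous_snd
  -- the conditions
  have c1 : ∀ᶠ ρ : ℝ in 𝓝[>] 0, ∀ i, ρ ≤ ρ0 i / 2 := by
    refine eventually_all.2 fun i => ?_
    exact nhdsWithin_le_nhds (eventually_le_nhds (by linarith [(hT i).pos]))
  have c2 : ∀ᶠ ρ : ℝ in 𝓝[>] 0, ∀ i j, i ≠ j → 2 * ρ ≤ |x i - x j| := by
    refine eventually_all.2 fun i => eventually_all.2 fun j => ?_
    by_cases hij : i = j
    · exact Eventually.of_forall fun ρ h => absurd hij h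
    · have h1 : 0 < |x i - x j| := abs_pos.2 (sub_ne_zero.2 fun h => hij (hxinj i j h))
      have h2 : ∀ᶠ ρ : ℝ in 𝓝[>] 0, ρ < |x i - x j| / 2 :=
        nhdsWithin_le_nhds (eventually_lt_nhds (by linarith))
      filter_upwards [h2] with ρ hρ _
      linarith
  have c3 : ∀ᶠ ρ : ℝ in 𝓝[>] 0, ∀ i j, i ≠ j → Disjoint (G i '' Bxx ρ) (G j '' Bxx ρ) := by
    refine eventually_all.2 fun i => eventually_all.2 fun j => ?_
    by_cases hij : i = j
    · exact Eventually.of_forall fun ρ h => absurd hij h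
    · obtain ⟨U, V, hU, hV, hiU, hjV, hUV⟩ := t2_separation (hne i j hij)
      have h1 := crx_img_small (hT i).pos (hT i).cht (hU.mem_nhds hiU)
      have h2 := crx_img_small (hT j).pos (hT j).cht (hV.mem_nhds hjV)
      filter_upwards [nhdsWithin_le_nhds h1, nhdsWithin_le_nhds h2] with ρ a1 a2 _
      exact hUV.mono a1 a2
  have c4 : ∀ᶠ ρ : ℝ in 𝓝[>] 0, ∀ i, ∀ y ∈ Icc b 1 ∩ {y | ρ0 i / 2 ≤ |y - x i|}, ∀ τ : ℝ, |τ| < ρ →
      W (s₀ + τ) (k y) ∉ G i '' Bxx ρ := by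
    refine eventually_all.2 fun i => nhdsWithin_le_nhds ?_
    have hK : IsCompact (Icc b 1 ∩ {y | ρ0 i / 2 ≤ |y - x i|}) :=
      isCompact_Icc.inter_right (isClosed_le continuous_const
        (continuous_abs.comp (continuous_id.sub continuous_const)))
    refine crx_away hK hΦ1 (hT i).pos (hT i).cht fun y hy h => ?_
    simp only [add_zero] at h
    rw [hc0] at h
    obtain ⟨n, hn⟩ := hinj _ _ ((W s₀).injective h)
    have h1 := (hxX i).1
    have h2 := crx_int hn (by linarith [h1.2, hy.1.1]) (by linarith [h1.1, hy.1.2])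
    have h3 : ρ0 i / 2 ≤ |y - x i| := hy.2
    rw [← h2, sub_self, abs_zero] at h3
    linarith [(hT i).pos]
  have c5 : ∀ᶠ ρ : ℝ in 𝓝[>] 0, ∀ i, ∀ y ∈ Icc 0 b ∩ {y | ρ0 i / 2 ≤ |y - z i|}, ∀ τ : ℝ, |τ| < ρ →
      k y ∉ G i '' Bxx ρ := by
    refine eventually_all.2 fun i => nhdsWithin_le_nhds ?_
    have hK : IsCompact (Icc 0 b ∩ {y | ρ0 i / 2 ≤ |y - z i|}) :=
      isCompact_Icc.inter_right (isClosed_le continuous_const
        (continuous_abs.comp (continuous_id.sub continuous_const)))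
    refine crx_away hK hΦ2 (hT i).pos (hT i).cht fun y hy h => ?_
    simp only at h
    rw [hc1] at h
    obtain ⟨n, hn⟩ := hinj _ _ h
    have h1 := (hT i).z1
    have h1' := (hT i).z2
    have hp := (hT i).pos
    have h2 := crx_int hn (by linarith [hy.1.1]) (by linarith [hy.1.2])
    have h3 : ρ0 i / 2 ≤ |y - z i| := hy.2
    rw [h2, sub_self, abs_zero] at h3
    linarith
  have c0 : ∀ᶠ ρ : ℝ in 𝓝[>] 0, 0 < ρ := self_mem_nhdsWithin
  obtain ⟨ρ, a0, a1, a2, a3, a4, a5⟩ := (c0.and (c1.and (c2.and (c3.and (c4.and c5))))).exists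
  have hle : ∀ i, ρ ≤ ρ0 i := fun i => by linarith [a1 i, (hT i).pos]
  refine ⟨X.card, x, z, ρ, G, a0, fun i => (hT i).mono a0 (hle i), ?_, a2, a3, ?_, ?_⟩
  · intro y hy hyk
    have hyX : y ∈ X := hfin.mem_toFinset.2 ⟨hy, hyk⟩
    exact ⟨e.symm ⟨y, hyX⟩, by rw [hx]; simp⟩
  · intro i τ hτ y hy hmem
    by_cases hyx : ρ0 i / 2 ≤ |y - x i|
    · exact absurd hmem (a4 i y ⟨hy, hyx⟩ τ hτ)
    · push Not at hyx
      have hp := (hT i).pos
      obtain ⟨q, hq, hqe⟩ := hmem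
      have h1 : |y - x i| < ρ0 i := by linarith
      have h2 : |τ| < ρ0 i := hτ.trans_le (hle i)
      have h3 := (hT i).mov (y - x i) τ h1 h2
      rw [add_sub_cancel, ← hqe] at h3
      have h4 : (((y - x i : ℝ) : ℂ), τ) ∈ Bxx (ρ0 i) := by
        refine ⟨?_, ?_, h2⟩
        · rw [Complex.ofReal_re]; exact h1
        · rw [Complex.ofReal_im, abs_zero]; exact hp
      have h5 := (hT i).cht.inj h4 (crx_bxx_mono (hle i) hq) h3
      have h6 := hq.1
      rw [← h5] at h6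
      rw [Complex.ofReal_re] at h6
      exact h6
  · intro i y hy hmem
    by_cases hyx : ρ0 i / 2 ≤ |y - z i|
    · exact absurd hmem (a5 i y ⟨hy, hyx⟩ 0 (by simpa using a0))
    · push Not at hyx
      have hp := (hT i).pos
      obtain ⟨q, hq, hqe⟩ := hmem
      have h1 : |y - z i| < ρ0 i := by linarith
      have h3 := (hT i).fix (y - z i) h1
      rw [add_sub_cancel, ← hqe] at h3
      have h4 : ((⟨0, y - z i⟩ : ℂ), (0 : ℝ)) ∈ Bxx (ρ0 i) := by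
        refine ⟨?_, h1, ?_⟩
        · simpa using hp
        · simpa using hp
      have h5 := (hT i).cht.inj h4 (crx_bxx_mono (hle i) hq) h3
      have h6 := hq.2.1
      rw [← h5] at h6
      exact h6

end Pool.Agent.NHH
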