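import Mathlib
import Pool.Agent.NHH.Crx
import Pool.Agent.NHQ.FgB

/-!
# NHH/Bum: bumps of the time function, the chord of a crossing (difficulty 3)

`thb s₀ d ρ x J y = s₀ - d + 2 d Σ_(i ∈ J) bmp ((y - x i) / (ρ / 2))`; the bump `i` is zero for `|y - x i| ≥ ρ / 16` and `1` for `|y - x i| ≤ ρ / 32` (`bmp_zero`, `bmp_one` in NHQ/FgB); by `sepx` (`2 ρ ≤ |x i - x j|`) at most one bump is not zero at `y`.
* `thb_mem`: the sum is in `[0, 1]`.  `thb_near`, `thb_out`: `|y - x i| < ρ`: only the bump `i` can be non-zero.  `thb_insert`: `|y - x i| ≥ ρ`: the bump `i` is zero.  `thb_univ`.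
* `Tc G ρ d (w, t) = G ((ρ/2) w, -d + d t)`.  The affine map sends `TD` into `Bxx ρ` (`‖(ρ/2) w‖ < ρ/2`, `|-d + d t| < 5 d / 4 ≤ 5 ρ / 16`), is injective with bijective derivative: `Cht.comp`.
* `crx_zero`: `k 0 ∉ G i '' Bxx ρ`: otherwise `exc2` with `y = 0` gives `|0 - z i| < ρ`, but `0 < z i - ρ`.
* `crx_chd`: `hit` ⊆: let `Tc q = kcf l`, `f = fract l`, `k l = k f`.  `f ≤ b`: `exc2` gives `|f - z_i| < ρ`, so `k f = G_i (⟨0, f - z_i⟩, 0)` (`fix`), and by injectivity of `G_i` on `Bxx ρ`: `re w = 0`, `-d + d t = 0`, so `t = 1`: `q ∈ TS`.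
  `f > b`: the value is `W (thb f) (k f)`, `|thb f - s₀| ≤ d < ρ`, `exc1` gives `|f - x_i| < ρ`, so `thb f = s₀ - d` (`i ∉ J`) and the value is `G_i (f - x_i, -d)` (`mov`): `im w = 0`, `t = 0`.
  ⊇: foot `q = (u, 0)`: `Tc q = G_i (ρ/2 u, -d) = W (s₀ - d) (k f)`, `f = x_i + ρ/2 u ∈ (b, 1)`, `fract f = f`, `thb f = s₀ - d`: it is `kcf f`.  Tip `q = (i v, 1)`: `G_i (i (ρ/2) v, 0) = k f`, `f = z_i + ρ/2 v ∈ (0, b)`.
-/

open scoped Manifold ContDiff Topology
open Set Filter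
open Pool.Agent.CSG (stp)
open Pool.Agent.RSG (E3 ex Thick)
open Pool.Agent.KNT (bmp)
open Pool.Agent.NHP
open Pool.Agent.NHQ (Crv Mv fing)

namespace Pool.Agent.NHH

/-- the time function with bumps at the crossings of `J` -/
noncomputable def thb {m : ℕ} (s₀ d ρ : ℝ) (x : Fin m → ℝ) (J : Finset (Fin m)) (y : ℝ) : ℝ :=
  s₀ - d + 2 * d * ∑ i ∈ J, bmp ((y - x i) / (ρ / 2))

/-- the chord of a crossing -/
noncomputable def Tc {N : Type*} (G : E → N) (ρ d : ℝ) (q : E) : N := G (((ρ / 2 : ℝ) : ℂ) * q.1, -d + d * q.2)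

variable {N : Type*} [TopologicalSpace N] [ChartedSpace E3 N] [IsManifold (𝓡 3) ∞ N] [T2Space N]

/-- the affine map of the chord -/
noncomputable def bumA (ρ d : ℝ) (q : E) : E := (((ρ / 2 : ℝ) : ℂ) * q.1, -d + d * q.2)

theorem bumA_mem {ρ d : ℝ} (hρ : 0 < ρ) (hd : 0 < d) (hd' : d ≤ ρ / 4) {q : E} (hq : q ∈ TD) : bumA ρ d q ∈ Bxx ρ := by
  obtain ⟨h1, h2, h3⟩ := hq
  have hre : |q.1.re| < 1 := (Complex.abs_re_le_norm _).trans_lt h1
  have him : |q.1.im| < 1 := (Complex.abs_im_le_norm _).trans_lt h1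
  refine ⟨?_, ?_, ?_⟩
  · change |(((ρ / 2 : ℝ) : ℂ) * q.1).re| < ρ
    rw [Complex.re_ofReal_mul, abs_mul, abs_of_pos (by linarith : (0 : ℝ) < ρ / 2)]
    nlinarith
  · change |(((ρ / 2 : ℝ) : ℂ) * q.1).im| < ρ
    rw [Complex.im_ofReal_mul, abs_mul, abs_of_pos (by linarith : (0 : ℝ) < ρ / 2)]
    nlinarith
  · change |(-d + d * q.2)| < ρ
    rw [abs_lt]
    constructor <;> nlinarith

theorem bumA_inj {ρ d : ℝ} (hρ : 0 < ρ) (hd : 0 < d) : Function.Injective (bumA ρ d) := by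
  intro q q' h
  have h1 : ((ρ / 2 : ℝ) : ℂ) * q.1 = ((ρ / 2 : ℝ) : ℂ) * q'.1 := congrArg Prod.fst h
  have h2 : -d + d * q.2 = -d + d * q'.2 := congrArg Prod.snd h
  have h3 : ((ρ / 2 : ℝ) : ℂ) ≠ 0 := by
    rw [Complex.ofReal_ne_zero]
    linarith
  have h4 : d * q.2 = d * q'.2 := by linarith
  exact Prod.ext (mul_left_cancel₀ h3 h1) (mul_left_cancel₀ hd.ne' h4)

theorem bumA_deriv (ρ d : ℝ) (q : E) :
    HasFDerivAt (bumA ρ d) (((ρ / 2 : ℝ) • ContinuousLinearMap.fst ℝ ℂ ℝ).prod (d • ContinuousLinearMap.snd ℝ ℂ ℝ)) q := by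
  have h1 : HasFDerivAt (fun q : E => (ρ / 2 : ℝ) • q.1) ((ρ / 2 : ℝ) • ContinuousLinearMap.fst ℝ ℂ ℝ) q :=
    (ContinuousLinearMap.fst ℝ ℂ ℝ).hasFDerivAt.const_smul (ρ / 2)
  have h2 : HasFDerivAt (fun q : E => -d + d • q.2) (d • ContinuousLinearMap.snd ℝ ℂ ℝ) q :=
    ((ContinuousLinearMap.snd ℝ ℂ ℝ).hasFDerivAt.const_smul d).const_add (-d)
  have h3 : bumA ρ d = fun q : E => ((ρ / 2 : ℝ) • q.1, -d + d • q.2) := by
    funext q
    unfold bumA
    rw [Complex.real_smul, smul_eq_mul]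
  rw [h3]
  exact h1.prodMk h2

theorem bumA_bij {ρ d : ℝ} (hρ : 0 < ρ) (hd : 0 < d) (q : E) : Function.Bijective (fderiv ℝ (bumA ρ d) q) := by
  rw [(bumA_deriv ρ d q).fderiv]
  have hρ' : ρ / 2 ≠ 0 := by positivity
  constructor
  · intro a c h
    have h1 : (ρ / 2 : ℝ) • a.1 = (ρ / 2 : ℝ) • c.1 := congrArg Prod.fst h
    have h2 : d • a.2 = d • c.2 := congrArg Prod.snd h
    exact Prod.ext (smul_right_injective ℂ hρ' h1) (smul_right_injective ℝ hd.ne' h2)
  · rintro ⟨w, t⟩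
    refine ⟨((ρ / 2 : ℝ)⁻¹ • w, d⁻¹ • t), ?_⟩
    change ((ρ / 2 : ℝ) • ((ρ / 2 : ℝ)⁻¹ • w), d • (d⁻¹ • t)) = (w, t)
    rw [smul_inv_smul₀ hρ', smul_inv_smul₀ hd.ne']

theorem bumA_smooth (ρ d : ℝ) : ContDiff ℝ ∞ (bumA ρ d) := by
  unfold bumA
  exact (contDiff_const.mul contDiff_fst).prodMk (contDiff_const.add (contDiff_const.mul contDiff_snd))

theorem bum_TD_open : IsOpen TD := by
  have h1 : IsOpen {q : E | ‖q.1‖ < 1} := isOpen_lt (by fun_prop) continuous_const
  have h2 : IsOpen {q : E | -(1 / 4) < q.2} := isOpen_lt continuous_const (by fun_prop)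
  have h3 : IsOpen {q : E | q.2 < 5 / 4} := isOpen_lt (by fun_prop) continuous_const
  exact h1.inter (h2.inter h3)

theorem bum_fract {N : Type*} {k : ℝ → N} (hper : ∀ x, k (x + 1) = k x) (l : ℝ) : k l = k (Int.fract l) := by
  have h : Function.Periodic k 1 := hper
  have h1 := h.sub_zsmul_eq ⌊l⌋ (x := l)
  rw [zsmul_one] at h1
  rw [← h1]
  rfl

section
variable {b : ℝ} {k : ℝ → N} {W : ℝ → Equiv.Perm N} {s₀ : ℝ} {m : ℕ} {x z : Fin m → ℝ} {ρ : ℝ} {G : Fin m → E → N}

omit [IsManifold (𝓡 3) ∞ N] [T2Space N] in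
theorem bum_far (h : Crx b k W s₀ x z ρ G) {y : ℝ} {j : Fin m} (hy : ρ / 16 ≤ |y - x j|) : bmp ((y - x j) / (ρ / 2)) = 0 := by
  have hρ := h.rho
  apply Pool.Agent.NHQ.bmp_zero
  rw [abs_div, abs_of_pos (by linarith : (0 : ℝ) < ρ / 2), le_div_iff₀ (by linarith)]
  linarith

omit [IsManifold (𝓡 3) ∞ N] [T2Space N] in
theorem bum_other (h : Crx b k W s₀ x z ρ G) {y : ℝ} {i j : Fin m} (hij : j ≠ i) (hy : |y - x i| < ρ) :
    bmp ((y - x j) / (ρ / 2)) = 0 := by
  have hρ := h.rho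
  apply bum_far h
  have h1 := h.sepx i j hij.symm
  have h2 : |x i - x j| ≤ |y - x i| + |y - x j| := by
    have := abs_sub_le (x i) y (x j)
    rw [abs_sub_comm (x i) y] at this
    exact this
  linarith

omit [IsManifold (𝓡 3) ∞ N] [T2Space N] in
theorem bum_sum (h : Crx b k W s₀ x z ρ G) (J : Finset (Fin m)) (y : ℝ) :
    0 ≤ ∑ i ∈ J, bmp ((y - x i) / (ρ / 2)) ∧ ∑ i ∈ J, bmp ((y - x i) / (ρ / 2)) ≤ 1 := by
  have hρ := h.rho
  refine ⟨Finset.sum_nonneg fun i _ => Pool.Agent.NHQ.bmp_nonneg _, ?_⟩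
  by_cases h1 : ∃ i ∈ J, |y - x i| < ρ
  · obtain ⟨i, hi, h2⟩ := h1
    rw [Finset.sum_eq_single_of_mem i hi fun j _ hj => bum_other h hj h2]
    exact Pool.Agent.NHQ.bmp_le_one _
  · push Not at h1
    rw [Finset.sum_eq_zero fun j hj => bum_far h (by linarith [h1 j hj])]
    exact zero_le_one

omit [IsManifold (𝓡 3) ∞ N] [T2Space N] in
theorem thb_mem (h : Crx b k W s₀ x z ρ G) {d : ℝ} (hd : 0 < d) (J : Finset (Fin m)) (y : ℝ) : |thb s₀ d ρ x J y - s₀| ≤ d := by
  obtain ⟨h1, h2⟩ := bum_sum h J y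
  unfold thb
  rw [abs_le]
  constructor <;> nlinarith

omit [IsManifold (𝓡 3) ∞ N] [T2Space N] in
theorem thb_near (h : Crx b k W s₀ x z ρ G) {d : ℝ} {J : Finset (Fin m)} {i : Fin m} (hi : i ∈ J) {y : ℝ} (hy : |y - x i| < ρ) :
    thb s₀ d ρ x J y = s₀ - d + 2 * d * bmp ((y - x i) / (ρ / 2)) := by
  unfold thb
  rw [Finset.sum_eq_single_of_mem i hi fun j _ hj => bum_other h hj hy]

omit [IsManifold (𝓡 3) ∞ N] [T2Space N] in
theorem thb_out (h : Crx b k W s₀ x z ρ G) {d : ℝ} {J : Finset (Fin m)} {i : Fin m} (hi : i ∉ J) {y : ℝ} (hy : |y - x i| < ρ) :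
    thb s₀ d ρ x J y = s₀ - d := by
  unfold thb
  have h1 : ∀ j ∈ J, bmp ((y - x j) / (ρ / 2)) = 0 := by
    intro j hj
    apply bum_other h _ hy
    rintro rfl
    exact hi hj
  rw [Finset.sum_eq_zero h1, mul_zero, add_zero]

omit [IsManifold (𝓡 3) ∞ N] [T2Space N] in
theorem thb_insert (h : Crx b k W s₀ x z ρ G) {d : ℝ} {J : Finset (Fin m)} {i : Fin m} {y : ℝ} (hy : ρ ≤ |y - x i|) :
    thb s₀ d ρ x (insert i J) y = thb s₀ d ρ x J y := by
  have hρ := h.rho
  by_cases hi : i ∈ J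
  · rw [Finset.insert_eq_of_mem hi]
  · unfold thb
    rw [Finset.sum_insert hi, bum_far h (by linarith), zero_add]

omit [IsManifold (𝓡 3) ∞ N] [T2Space N] in
theorem crx_zero (h : Crx b k W s₀ x z ρ G) (i : Fin m) : k 0 ∉ G i '' Bxx ρ := by
  intro h1
  have h2 := (h.trv i).z1
  have h3 := (h.trv i).z2
  have h4 := h.rho
  have h5 := h.exc2 i 0 ⟨le_rfl, by linarith⟩ h1
  rw [abs_lt] at h5
  linarith [h5.1]

omit [IsManifold (𝓡 3) ∞ N] [T2Space N] in
theorem tc_sub (h : Crx b k W s₀ x z ρ G) {d : ℝ} (hd : 0 < d) (hd' : d ≤ ρ / 4) (i : Fin m) : Tc (G i) ρ d '' TD ⊆ G i '' Bxx ρ := by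
  rintro _ ⟨q, hq, rfl⟩
  exact ⟨bumA ρ d q, bumA_mem h.rho hd hd' hq, rfl⟩

theorem crx_chd (h : Crx b k W s₀ x z ρ G) (hper : ∀ x, k (x + 1) = k x) {d : ℝ} (hd : 0 < d) (hd' : d ≤ ρ / 4)
    {J : Finset (Fin m)} {i : Fin m} (hi : i ∉ J) : Chd (range (kcf b k W (thb s₀ d ρ x J))) (Tc (G i) ρ d) := by
  have hρ := h.rho
  have ht := h.trv i
  refine ⟨?_, ?_⟩
  · have h1 := ht.cht.comp bum_TD_open (f := bumA ρ d) (fun q _ => (bumA_smooth ρ d).contDiffAt) (fun q _ => bumA_bij hρ hd q)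
      (bumA_inj hρ hd).injOn (fun q hq => bumA_mem hρ hd hd' hq)
    exact h1
  · apply Subset.antisymm
    · rintro y ⟨⟨l, rfl⟩, q, hq, hql⟩
      refine ⟨q, ⟨hq, ?_⟩, hql⟩
      have hqB := bumA_mem hρ hd hd' hq
      have hql' : G i (bumA ρ d q) = kcf b k W (thb s₀ d ρ x J) l := hql
      have hf0 := Int.fract_nonneg l
      have hf1 := Int.fract_lt_one l
      have hmem : kcf b k W (thb s₀ d ρ x J) l ∈ G i '' Bxx ρ := hql' ▸ mem_image_of_mem _ hqB
      by_cases hfb : Int.fract l ≤ b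
      · right
        have e1 : kcf b k W (thb s₀ d ρ x J) l = k (Int.fract l) := by
          unfold kcf
          rw [if_pos hfb]
          exact bum_fract hper l
        rw [e1] at hmem hql'
        have h2 := h.exc2 i _ ⟨hf0, hfb⟩ hmem
        have h3 := ht.fix _ h2
        rw [show z i + (Int.fract l - z i) = Int.fract l by ring] at h3
        have h4 : bumA ρ d q = (⟨0, Int.fract l - z i⟩, 0) := by
          apply ht.cht.inj hqB _ (hql'.trans h3.symm)
          refine ⟨?_, h2, ?_⟩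
          · simpa using hρ
          · simpa using hρ
        have h5 : ((ρ / 2 : ℝ) : ℂ) * q.1 = ⟨0, Int.fract l - z i⟩ := congrArg Prod.fst h4
        have h6 : -d + d * q.2 = 0 := congrArg Prod.snd h4
        have h7 : ρ / 2 * q.1.re = 0 := by
          have := congrArg Complex.re h5
          rw [Complex.re_ofReal_mul] at this
          exact this
        constructor
        · have h8 : d * (q.2 - 1) = 0 := by linarith
          rcases mul_eq_zero.1 h8 with h9 | h9
          · exact absurd h9 hd.ne'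
          · linarith
        · rcases mul_eq_zero.1 h7 with h9 | h9
          · linarith
          · exact h9
      · left
        have e1 : kcf b k W (thb s₀ d ρ x J) l = W (thb s₀ d ρ x J (Int.fract l)) (k (Int.fract l)) := by
          unfold kcf
          rw [if_neg hfb]
          rw [← bum_fract hper l]
        rw [e1] at hmem hql'
        push Not at hfb
        have h1 := thb_mem h hd J (Int.fract l)
        have h2 : |Int.fract l - x i| < ρ := by
          apply h.exc1 i (thb s₀ d ρ x J (Int.fract l) - s₀) (by linarith) _ ⟨hfb.le, hf1.le⟩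
          rw [show s₀ + (thb s₀ d ρ x J (Int.fract l) - s₀) = thb s₀ d ρ x J (Int.fract l) by ring]
          exact hmem
        rw [thb_out h hi h2] at hql'
        have h3 := ht.mov _ (-d) h2 (by rw [abs_neg, abs_of_pos hd]; linarith)
        rw [show x i + (Int.fract l - x i) = Int.fract l by ring, ← sub_eq_add_neg] at h3
        have h4 : bumA ρ d q = (((Int.fract l - x i : ℝ) : ℂ), -d) := by
          apply ht.cht.inj hqB _ (hql'.trans h3.symm)
          refine ⟨?_, ?_, ?_⟩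
          · change |((Int.fract l - x i : ℝ) : ℂ).re| < ρ
            rw [Complex.ofReal_re]
            exact h2
          · change |((Int.fract l - x i : ℝ) : ℂ).im| < ρ
            rw [Complex.ofReal_im, abs_zero]
            exact hρ
          · change |(-d)| < ρ
            rw [abs_neg, abs_of_pos hd]
            linarith
        have h5 : ((ρ / 2 : ℝ) : ℂ) * q.1 = ((Int.fract l - x i : ℝ) : ℂ) := congrArg Prod.fst h4
        have h6 : -d + d * q.2 = -d := congrArg Prod.snd h4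
        have h7 : ρ / 2 * q.1.im = 0 := by
          have := congrArg Complex.im h5
          rw [Complex.im_ofReal_mul, Complex.ofReal_im] at this
          exact this
        constructor
        · have h8 : d * q.2 = 0 := by linarith
          rcases mul_eq_zero.1 h8 with h9 | h9
          · exact absurd h9 hd.ne'
          · exact h9
        · rcases mul_eq_zero.1 h7 with h9 | h9
          · linarith
          · exact h9
    · rintro _ ⟨q, ⟨hq, hq'⟩, rfl⟩
      refine ⟨?_, q, hq, rfl⟩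
      have hre : |q.1.re| < 1 := (Complex.abs_re_le_norm _).trans_lt hq.1
      have him : |q.1.im| < 1 := (Complex.abs_im_le_norm _).trans_lt hq.1
      have hx1 := ht.x1
      have hx2 := ht.x2
      have hz1 := ht.z1
      have hz2 := ht.z2
      rcases hq' with ⟨h2, h3⟩ | ⟨h2, h3⟩
      · have hu : |ρ / 2 * q.1.re| < ρ := by
          rw [abs_mul, abs_of_pos (by linarith : (0 : ℝ) < ρ / 2)]
          nlinarith
        have hu' := abs_lt.1 hu
        have hfr : Int.fract (x i + ρ / 2 * q.1.re) = x i + ρ / 2 * q.1.re := by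
          rw [Int.fract_eq_self]
          constructor <;> linarith [hu'.1, hu'.2]
        refine ⟨x i + ρ / 2 * q.1.re, ?_⟩
        unfold kcf
        rw [hfr, if_neg (by push Not; linarith [hu'.1]),
          thb_out h hi (by rw [show x i + ρ / 2 * q.1.re - x i = ρ / 2 * q.1.re by ring]; exact hu)]
        have h4 := ht.mov _ (-d) hu (by rw [abs_neg, abs_of_pos hd]; linarith)
        rw [← sub_eq_add_neg] at h4
        rw [← h4]
        unfold Tc
        rw [h2, mul_zero, add_zero]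
        congr 2
        apply Complex.ext
        · rw [Complex.ofReal_re, Complex.re_ofReal_mul]
        · rw [Complex.ofReal_im, Complex.im_ofReal_mul, h3, mul_zero]
      · have hu : |ρ / 2 * q.1.im| < ρ := by
          rw [abs_mul, abs_of_pos (by linarith : (0 : ℝ) < ρ / 2)]
          nlinarith
        have hu' := abs_lt.1 hu
        have hfr : Int.fract (z i + ρ / 2 * q.1.im) = z i + ρ / 2 * q.1.im := by
          rw [Int.fract_eq_self]
          constructor <;> linarith [hu'.1, hu'.2]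
        refine ⟨z i + ρ / 2 * q.1.im, ?_⟩
        unfold kcf
        rw [hfr, if_pos (by linarith [hu'.2])]
        rw [← ht.fix _ hu]
        unfold Tc
        rw [h2, mul_one, neg_add_cancel]
        congr 2
        apply Complex.ext
        · rw [Complex.re_ofReal_mul, h3, mul_zero]
        · rw [Complex.im_ofReal_mul]

end

end Pool.Agent.NHH
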