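import Mathlib
import Pool.Agent.NHH.Bum
import Pool.Agent.NHH.Cut
import Pool.Agent.NHQ.Lab

/-!
# NHH/Lst: after all bumps the curve differs from the curve at the time `s₀ + d` by a push (difficulty 4)

`ext_chart`: a smooth function on `E` with compact support in `O` is transported to `N` by the chart and extended by `0` (smooth on `β '' O` by `Cht.inv`; zero off the compact, hence closed, image of the support; these two open sets cover `N`).
`crx_last`.  `λ t = bmp (t / (4 ρ))`: `1` for `|t| ≤ ρ/4`, `0` for `|t| ≥ ρ/2`.  `β_i` = extension by the chart `G i` on `Bxx ρ` of `bmp (re w / (ρ/2)) λ (im w) λ τ`.  For `|τ| ≤ ρ/4`, `y ∈ [b, 1]`: `β_i (W (s₀ + τ) (k y)) = bmp ((y - x i)/(ρ/2))`: if `|y - x i| < ρ` the point is `G_i (y - x_i, τ)` (`mov`); otherwise it is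
not in `G_i '' Bxx ρ` (`exc1`) and both sides are `0`.
`C` = compact support of `W` (`C ⊆ {k 0, k b}ᶜ`; `W s y = y`, `(W s).symm y = y` for `y ∉ C`).  `H = k '' [0, b] ∩ C`, compact.  `Y = {y ∈ [b, 1] | ∀ i, ρ/32 ≤ |y - x i|}`, compact.  For `y ∈ Y`: `W s₀ (k y) ∉ H` (`y = b`, `y = 1`: the value is `k b`, `k 0`, not in `C`; `y ∈ (b, 1)`: `all`).
By compactness (tube lemma for `{0} × Y`) there is `ρ₃ > 0` with `W (s₀ + τ) (k y) ∉ H` for `|τ| ≤ ρ₃`, `y ∈ Y`.  `M = {W (s₀ + τ) (k y) | |τ| ≤ ρ₃, y ∈ Y} ∩ C` is compact and disjoint from `H`; `ψ` = `exists_cutN` for `M ⊆ Hᶜ` (`ψ = 0` on `H`).  `χ = ψ (1 - Σ_i β_i)`.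
`cut_push` for `W`, `χ`, `I = [s₀ - 1, s₀ + 1]`: `ε`.  `δ = min (ρ/4) (min ρ₃ (min (ε/2) 1))`.  For `0 < d < δ`: `s = s₀ + d`, `u = -2 d`: `V 1 y = W (s₀ + d - 2 d χ y) ((W (s₀ + d)).symm y)`.  CLAIM: `V 1 (kc (s₀ + d) l) = kcf (thb univ) l`.  `f = fract l`.
* `f ≤ b`: `y = k f`: if `y ∈ C`: `y ∈ H`, `ψ y = 0`, `V 1 y = y`; if `y ∉ C`: `V 1 y = y`.
* `f > b`: `y = W (s₀ + d) (k f)`.  `y ∉ C`: then `k f = y ∉ C` and both sides are `k f`.  `y ∈ C`: if `|f - x_i| < ρ/32` for some `i`: `Σ β = 1` (the others are `0`: `sepx`), `χ y = 0`, `V 1 y = y`, and `thb univ f = s₀ - d + 2 d`.  Otherwise `f ∈ Y`, `y ∈ M`, `ψ y = 1`,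
  `V 1 y = W (s₀ + d - 2 d (1 - Σ bmp)) (k f) = W (thb univ f) (k f)`.
`Mv.symm`.
-/

open scoped Manifold ContDiff Topology
open Set Filter
open Pool.Agent.CSG (stp)
open Pool.Agent.RSG (E3 ex Thick)
open Pool.Agent.KNT (bmp)
open Pool.Agent.NHP
open Pool.Agent.NHQ (Crv Mv fing)

namespace Pool.Agent.NHH

variable {N : Type*} [TopologicalSpace N] [ChartedSpace E3 N] [IsManifold (𝓡 3) ∞ N] [T2Space N]

omit [IsManifold (𝓡 3) ∞ N] in
theorem ext_chart {O : Set E} {β : E → N} (hβ : Cht O β) {f : E → ℝ} (hf : ContDiff ℝ ∞ f) {K : Set E} (hK : IsCompact K)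
    (hKO : K ⊆ O) (h0 : ∀ q ∉ K, f q = 0) : ∃ F : N → ℝ, ContMDiff (𝓡 3) 𝓘(ℝ, ℝ) ∞ F ∧ (∀ q ∈ O, F (β q) = f q) ∧
      ∀ y, y ∉ β '' O → F y = 0 := by
  classical
  obtain ⟨g, hg, hgs⟩ := hβ.inv
  refine ⟨fun y => if y ∈ β '' O then f (g y) else 0, ?_, ?_, ?_⟩
  · intro y
    by_cases hy : y ∈ β '' O
    · have h1 : IsOpen (β '' O) := hβ.img hβ.opn Subset.rfl
      have h2 : ContMDiffAt (𝓡 3) 𝓘(ℝ, ℝ) ∞ (fun y => f (g y)) y :=
        ContMDiffAt.comp y (hf.contMDiff.contMDiffAt) (hgs y hy)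
      refine h2.congr_of_eventuallyEq ?_
      filter_upwards [h1.mem_nhds hy] with z hz
      rw [if_pos hz]
    · have h1 : IsClosed (β '' K) := (hK.image_of_continuousOn (hβ.contOn.mono hKO)).isClosed
      have h2 : y ∉ β '' K := fun h => hy (image_mono hKO h)
      refine (contMDiffAt_const (c := (0 : ℝ))).congr_of_eventuallyEq ?_
      filter_upwards [h1.isOpen_compl.mem_nhds h2] with z hz
      by_cases hz1 : z ∈ β '' O
      · rw [if_pos hz1]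
        obtain ⟨q, hq, rfl⟩ := hz1
        rw [hg q hq]
        exact h0 q (fun h => hz ⟨q, h, rfl⟩)
      · rw [if_neg hz1]
  · intro q hq
    have h1 : β q ∈ β '' O := ⟨q, hq, rfl⟩
    simp only [h1, if_true, hg q hq]
  · intro y hy
    simp only [hy, if_false]

/-- the box function -/
theorem lst_box {ρ : ℝ} (hρ : 0 < ρ) : ∃ (f : E → ℝ) (K : Set E), ContDiff ℝ ∞ f ∧ IsCompact K ∧ K ⊆ Bxx ρ ∧
    (∀ q ∉ K, f q = 0) ∧ ∀ u τ : ℝ, |τ| ≤ ρ / 4 → f ((u : ℂ), τ) = bmp (u / (ρ / 2)) := by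
  refine ⟨fun q => bmp (q.1.re / (ρ / 2)) * bmp (q.1.im / (4 * ρ)) * bmp (q.2 / (4 * ρ)),
    {q | |q.1.re| ≤ ρ / 2 ∧ |q.1.im| ≤ ρ / 2 ∧ |q.2| ≤ ρ / 2}, ?_, ?_, ?_, ?_, ?_⟩
  · have hb : ContDiff ℝ ∞ bmp := Pool.Agent.NHQ.bmp_smooth
    have h1 : ContDiff ℝ ∞ (fun q : E => q.1.re / (ρ / 2)) :=
      ((Complex.reCLM.contDiff).comp contDiff_fst).div_const _
    have h2 : ContDiff ℝ ∞ (fun q : E => q.1.im / (4 * ρ)) :=
      ((Complex.imCLM.contDiff).comp contDiff_fst).div_const _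
    have h3 : ContDiff ℝ ∞ (fun q : E => q.2 / (4 * ρ)) := contDiff_snd.div_const _
    exact ((hb.comp h1).mul (hb.comp h2)).mul (hb.comp h3)
  · have h1 : IsClosed {q : E | |q.1.re| ≤ ρ / 2 ∧ |q.1.im| ≤ ρ / 2 ∧ |q.2| ≤ ρ / 2} := by
      have e1 : IsClosed {q : E | |q.1.re| ≤ ρ / 2} :=
        isClosed_le ((Complex.continuous_re.comp continuous_fst).abs) continuous_const
      have e2 : IsClosed {q : E | |q.1.im| ≤ ρ / 2} :=
        isClosed_le ((Complex.continuous_im.comp continuous_fst).abs) continuous_const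
      have e3 : IsClosed {q : E | |q.2| ≤ ρ / 2} := isClosed_le (continuous_snd.abs) continuous_const
      exact e1.inter (e2.inter e3)
    refine (isCompact_closedBall (0 : E) ρ).of_isClosed_subset h1 ?_
    rintro ⟨w, t⟩ ⟨h2, h3, h4⟩
    rw [Metric.mem_closedBall, dist_zero_right, Prod.norm_def]
    simp only at h2 h3 h4
    refine max_le ?_ ?_
    · have := Complex.norm_le_abs_re_add_abs_im w
      show ‖w‖ ≤ ρ
      linarith
    · show ‖t‖ ≤ ρ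
      rw [Real.norm_eq_abs]
      linarith
  · rintro ⟨w, t⟩ ⟨h2, h3, h4⟩
    simp only at h2 h3 h4
    exact ⟨lt_of_le_of_lt h2 (by linarith), lt_of_le_of_lt h3 (by linarith), lt_of_le_of_lt h4 (by linarith)⟩
  · rintro ⟨w, t⟩ hq
    show bmp (w.re / (ρ / 2)) * bmp (w.im / (4 * ρ)) * bmp (t / (4 * ρ)) = 0
    by_cases h1 : |w.re| ≤ ρ / 2
    · by_cases h2 : |w.im| ≤ ρ / 2
      · have h3 : ρ / 2 < |t| := by
          by_contra h3
          exact hq ⟨h1, h2, not_lt.1 h3⟩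
        have h4 : bmp (t / (4 * ρ)) = 0 := by
          apply Pool.Agent.NHQ.bmp_zero
          rw [abs_div, abs_of_pos (by linarith : (0 : ℝ) < 4 * ρ), le_div_iff₀ (by linarith)]
          linarith
        rw [h4, mul_zero]
      · have h4 : bmp (w.im / (4 * ρ)) = 0 := by
          apply Pool.Agent.NHQ.bmp_zero
          rw [abs_div, abs_of_pos (by linarith : (0 : ℝ) < 4 * ρ), le_div_iff₀ (by linarith)]
          linarith
        rw [h4, mul_zero, zero_mul]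
    · have h4 : bmp (w.re / (ρ / 2)) = 0 := by
        apply Pool.Agent.NHQ.bmp_zero
        rw [abs_div, abs_of_pos (by linarith : (0 : ℝ) < ρ / 2), le_div_iff₀ (by linarith)]
        linarith
      rw [h4, zero_mul, zero_mul]
  · intro u τ hτ
    show bmp (((u : ℂ)).re / (ρ / 2)) * bmp (((u : ℂ)).im / (4 * ρ)) * bmp (τ / (4 * ρ)) = bmp (u / (ρ / 2))
    have h1 : bmp (τ / (4 * ρ)) = 1 := by
      apply Pool.Agent.NHQ.bmp_one
      rw [abs_div, abs_of_pos (by linarith : (0 : ℝ) < 4 * ρ), div_le_iff₀ (by linarith)]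
      linarith
    have h2 : bmp (((u : ℂ)).im / (4 * ρ)) = 1 := by
      apply Pool.Agent.NHQ.bmp_one
      rw [Complex.ofReal_im, zero_div, abs_zero]
      norm_num
    rw [h1, h2, mul_one, mul_one, Complex.ofReal_re]

theorem crx_last {b : ℝ} {k : ℝ → N} {W : ℝ → Equiv.Perm N} {s₀ : ℝ} {m : ℕ} {x z : Fin m → ℝ} {ρ : ℝ} {G : Fin m → E → N}
    (hF : Frm b k W) (hk : Continuous k) (h : Crx b k W s₀ x z ρ G) (hper : ∀ x, k (x + 1) = k x) :
    ∃ δ : ℝ, 0 < δ ∧ ∀ d : ℝ, 0 < d → d < δ →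
      Mv (k 0) (kcf b k W (thb s₀ d ρ x Finset.univ)) (kc b k W (s₀ + d)) := by
  have hρ : 0 < ρ := h.rho
  obtain ⟨C, hCc, hCO, hCf⟩ := hF.push.supp
  have hC0 : k 0 ∉ C := fun h1 => (hCO h1) (Or.inl rfl)
  have hCb : k b ∉ C := fun h1 => (hCO h1) (Or.inr rfl)
  have hCs : ∀ s, ∀ y ∉ C, (W s).symm y = y := by
    intro s y hy
    rw [Equiv.symm_apply_eq]
    exact (hCf s y hy).symm
  have hCm : ∀ s, ∀ y ∈ C, W s y ∈ C := by
    intro s y hy
    by_contra h1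
    have h2 := hCf s _ h1
    have h3 := (W s).injective h2
    exact h1 (h3.symm ▸ hy)
  have hWc : Continuous fun q : ℝ × N => W q.1 q.2 := hF.push.cont
  -- the box functions
  obtain ⟨f, K, hf, hK, hKO, hf0, hf1⟩ := lst_box hρ
  have hext : ∀ i : Fin m, ∃ F : N → ℝ, ContMDiff (𝓡 3) 𝓘(ℝ, ℝ) ∞ F ∧ (∀ q ∈ Bxx ρ, F (G i q) = f q) ∧
      ∀ y, y ∉ G i '' Bxx ρ → F y = 0 := fun i => ext_chart (h.trv i).cht hf hK hKO hf0
  choose F hFs hFm hFn using hext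
  have hA : ∀ i, ∀ τ : ℝ, |τ| ≤ ρ / 4 → ∀ y ∈ Icc b 1, F i (W (s₀ + τ) (k y)) = bmp ((y - x i) / (ρ / 2)) := by
    intro i τ hτ y hy
    by_cases h1 : |y - x i| < ρ
    · have h2 := (h.trv i).mov (y - x i) τ h1 (by linarith)
      rw [add_sub_cancel] at h2
      rw [← h2, hFm i, hf1 _ _ hτ]
      refine ⟨?_, ?_, ?_⟩
      · simpa using h1
      · simpa using hρ
      · show |τ| < ρ
        linarith
    · rw [hFn i]
      · symm
        apply Pool.Agent.NHQ.bmp_zero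
        rw [abs_div, abs_of_pos (by linarith : (0 : ℝ) < ρ / 2), le_div_iff₀ (by linarith)]
        linarith
      · intro h2
        exact h1 (h.exc1 i τ (by linarith) y hy h2)
  -- the compact sets
  have hH : IsCompact (k '' Icc 0 b ∩ C) := (isCompact_Icc.image hk).inter hCc
  obtain ⟨H, hHe⟩ : ∃ H, H = k '' Icc 0 b ∩ C := ⟨_, rfl⟩
  rw [← hHe] at hH
  have hY : IsCompact {y | y ∈ Icc b 1 ∧ ∀ i, ρ / 32 ≤ |y - x i|} := by
    refine isCompact_Icc.of_isClosed_subset ?_ (fun y hy => hy.1)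
    have e1 : IsClosed {y : ℝ | ∀ i, ρ / 32 ≤ |y - x i|} := by
      rw [ofPred_forall]
      exact isClosed_iInter fun i => isClosed_le continuous_const ((continuous_id.sub continuous_const).abs)
    exact isClosed_Icc.inter e1
  obtain ⟨Y, hYe⟩ : ∃ Y, Y = {y | y ∈ Icc b 1 ∧ ∀ i, ρ / 32 ≤ |y - x i|} := ⟨_, rfl⟩
  rw [← hYe] at hY
  have hYH : ∀ y ∈ Y, W s₀ (k y) ∉ H := by
    intro y hy h1
    rw [hYe] at hy
    rw [hHe] at h1
    obtain ⟨h2, h3⟩ := h1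
    obtain ⟨⟨h4, h5⟩, h6⟩ := hy
    rcases eq_or_lt_of_le h4 with h7 | h7
    · rw [← h7, hCf s₀ _ hCb] at h3
      exact hCb h3
    · rcases eq_or_lt_of_le h5 with h8 | h8
      · have h9 : k y = k 0 := by rw [h8, ← hper 0, zero_add]
        rw [h9, hCf s₀ _ hC0] at h3
        exact hC0 h3
      · obtain ⟨i, hi⟩ := h.all y ⟨h7, h8⟩ h2
        have h9 := h6 i
        rw [hi, sub_self, abs_zero] at h9
        linarith
  have hmap : Continuous (fun q : ℝ × ℝ => W (s₀ + q.1) (k q.2)) :=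
    hWc.comp ((continuous_const.add continuous_fst).prodMk (hk.comp continuous_snd))
  obtain ⟨ρ₃, hρ₃, hρ₃H⟩ : ∃ ρ₃ : ℝ, 0 < ρ₃ ∧ ∀ τ : ℝ, |τ| ≤ ρ₃ → ∀ y ∈ Y, W (s₀ + τ) (k y) ∉ H := by
    have h1 : IsOpen ((fun q : ℝ × ℝ => W (s₀ + q.1) (k q.2)) ⁻¹' Hᶜ) := hH.isClosed.isOpen_compl.preimage hmap
    have h2 : ({(0 : ℝ)} : Set ℝ) ×ˢ Y ⊆ (fun q : ℝ × ℝ => W (s₀ + q.1) (k q.2)) ⁻¹' Hᶜ := by
      rintro ⟨τ, y⟩ ⟨h3, h4⟩
      have h5 : τ = 0 := h3
      show W (s₀ + τ) (k y) ∈ Hᶜ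
      rw [h5, add_zero]
      exact hYH y h4
    obtain ⟨u, v, hu, hv, hu0, hvY, huv⟩ := generalized_tube_lemma isCompact_singleton hY h1 h2
    obtain ⟨r, hr, hru⟩ := Metric.isOpen_iff.1 hu 0 (hu0 rfl)
    refine ⟨r / 2, by linarith, ?_⟩
    intro τ hτ y hy
    refine huv (show (τ, y) ∈ u ×ˢ v from ⟨hru ?_, hvY hy⟩)
    rw [Metric.mem_ball, dist_zero_right, Real.norm_eq_abs]
    linarith
  have hM : IsCompact ((fun q : ℝ × ℝ => W (s₀ + q.1) (k q.2)) '' (Icc (-ρ₃) ρ₃ ×ˢ Y) ∩ C) :=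
    ((isCompact_Icc.prod hY).image hmap).inter hCc
  have hMH : (fun q : ℝ × ℝ => W (s₀ + q.1) (k q.2)) '' (Icc (-ρ₃) ρ₃ ×ˢ Y) ∩ C ⊆ Hᶜ := by
    rintro _ ⟨⟨⟨τ, y⟩, ⟨h1, h2⟩, rfl⟩, -⟩
    exact hρ₃H τ (abs_le.2 h1) y h2
  obtain ⟨ψ, hψ, -, hψ1, -, hψt⟩ := exists_cutN hM hH.isClosed.isOpen_compl hMH
  have hψ0 : ∀ y ∈ H, ψ y = 0 := by
    intro y hy
    by_contra h1
    exact (hψt (subset_tsupport ψ h1)) hy
  -- the cut isotopy
  obtain ⟨χ, hχe⟩ : ∃ χ : N → ℝ, χ = fun y => ψ y * (1 - ∑ i, F i y) := ⟨_, rfl⟩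
  have hχ : ContMDiff (𝓡 3) 𝓘(ℝ, ℝ) ∞ χ := by
    rw [hχe]
    have h1 : ContMDiff (𝓡 3) 𝓘(ℝ, ℝ × (Fin m → ℝ)) ∞ (fun y => (ψ y, fun i => F i y)) := by
      refine ContMDiff.prodMk_space hψ ?_
      rw [contMDiff_pi_space]
      exact hFs
    have h2 : ContDiff ℝ ∞ (fun q : ℝ × (Fin m → ℝ) => q.1 * (1 - ∑ i, q.2 i)) := by
      refine contDiff_fst.mul (contDiff_const.sub (ContDiff.sum fun i _ => ?_))
      exact (contDiff_apply ℝ ℝ i).comp contDiff_snd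
    exact h2.contMDiff.comp h1
  obtain ⟨ε, hε, hcut⟩ := cut_push hF.push hχ (isCompact_Icc (a := s₀ - 1) (b := s₀ + 1))
  refine ⟨min (ρ / 4) (min ρ₃ (min (ε / 2) 1)), by positivity, ?_⟩
  intro d hd hdδ
  have hd1 : d < ρ / 4 := lt_of_lt_of_le hdδ (min_le_left _ _)
  have hd2 : d < ρ₃ := lt_of_lt_of_le hdδ ((min_le_right _ _).trans (min_le_left _ _))
  have hd3 : d < ε / 2 := lt_of_lt_of_le hdδ ((min_le_right _ _).trans ((min_le_right _ _).trans (min_le_left _ _)))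
  have hd4 : d < 1 := lt_of_lt_of_le hdδ ((min_le_right _ _).trans ((min_le_right _ _).trans (min_le_right _ _)))
  obtain ⟨V, hV, hV1⟩ := hcut (s₀ + d) ⟨by linarith, by linarith⟩ (-2 * d) (by
    rw [abs_mul, abs_of_pos hd]; norm_num; linarith)
  apply Pool.Agent.NHQ.Mv.symm
  refine ⟨V, hV.mono ?_, ?_⟩
  · intro y hy h1
    exact hy (Or.inl h1)
  intro l
  have hper' : Function.Periodic k 1 := hper
  have hkl : k l = k (Int.fract l) := by
    have h1 := hper'.int_mul ⌊l⌋ (Int.fract l)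
    rw [mul_one, Int.fract_add_floor] at h1
    exact h1
  unfold kc kcf
  rw [hkl]
  have hf0' := Int.fract_nonneg l
  have hf1' := Int.fract_lt_one l
  obtain ⟨t, ht⟩ : ∃ t, t = Int.fract l := ⟨_, rfl⟩
  rw [← ht] at hf0' hf1' ⊢
  by_cases htb : t ≤ b
  · rw [if_pos htb, if_pos htb, hV1]
    by_cases h1 : k t ∈ C
    · have h2 : χ (k t) = 0 := by
        rw [hχe]
        show ψ (k t) * _ = 0
        rw [hψ0 (k t) (by rw [hHe]; exact ⟨⟨t, ⟨hf0', htb⟩, rfl⟩, h1⟩), zero_mul]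
      rw [h2, mul_zero, add_zero, Equiv.apply_symm_apply]
    · rw [hCs _ _ h1, hCf _ _ h1]
  · rw [if_neg htb, if_neg htb, hV1, Equiv.symm_apply_apply]
    have htb' : b < t := not_le.1 htb
    by_cases h1 : k t ∈ C
    · have hS : ∀ i, F i (W (s₀ + d) (k t)) = bmp ((t - x i) / (ρ / 2)) := by
        intro i
        exact hA i d (by rw [abs_of_pos hd]; linarith) t ⟨htb'.le, hf1'.le⟩
      have hS' : ∑ i, F i (W (s₀ + d) (k t)) = ∑ i, bmp ((t - x i) / (ρ / 2)) :=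
        Finset.sum_congr rfl fun i _ => hS i
      congr 1
      rw [hχe]
      show W (thb s₀ d ρ x Finset.univ t) = W (s₀ + d + -2 * d * (ψ (W (s₀ + d) (k t)) * (1 - ∑ i, F i (W (s₀ + d) (k t)))))
      rw [hS']
      congr 1
      by_cases h2 : ∃ i, |t - x i| < ρ / 32
      · obtain ⟨i, hi⟩ := h2
        have h3 := thb_near h (d := d) (Finset.mem_univ i) (y := t) (by linarith)
        have h4 : bmp ((t - x i) / (ρ / 2)) = 1 := by
          apply Pool.Agent.NHQ.bmp_one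
          rw [abs_div, abs_of_pos (by linarith : (0 : ℝ) < ρ / 2), div_le_iff₀ (by linarith)]
          linarith
        have h5 : (2 * d) * ∑ i, bmp ((t - x i) / (ρ / 2)) = (2 * d) * 1 := by
          rw [h4] at h3
          unfold thb at h3
          linarith
        have h6 : ∑ i, bmp ((t - x i) / (ρ / 2)) = 1 := mul_left_cancel₀ (by linarith) h5
        unfold thb
        rw [h6]
        ring
      · have h3 : t ∈ Y := by
          rw [hYe]
          refine ⟨⟨htb'.le, hf1'.le⟩, fun i => ?_⟩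
          by_contra h4
          exact h2 ⟨i, not_le.1 h4⟩
        have h4 : ψ (W (s₀ + d) (k t)) = 1 := by
          apply hψ1
          exact ⟨⟨(d, t), ⟨⟨by linarith, by linarith⟩, h3⟩, rfl⟩, hCm _ _ h1⟩
        unfold thb
        rw [h4]
        ring
    · rw [hCf _ _ h1, hCf _ _ h1]

end Pool.Agent.NHH
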