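import Mathlib
import Pool.Agent.NHH.Bum
import Pool.Agent.NHQ.Lab
import Pool.Agent.NHQ.Shr
import Pool.Agent.NHP.Tra

/-!
# NHH/Stp: the finger of a crossing, pulled further, is the next bump of the time function (difficulty 3)

`T = Tc (G i) ρ d`.  `vshear` with `O = Bxx ρ`, `P = {q | q.1.re = 0 ∧ q.2 = 0}` (the fixed strand), `a w = 7/8 d bmp (re w / (ρ/2))`, `S = {(u, -d + 9/8 d bmp (u / (ρ/2))) | |u| ≤ ρ/16}`: the heights `-d + (9/8 + 7/8 r) d bmp` are in `[-d, d] ⊆ (-ρ, ρ)` and for `u = 0` they are `≥ d / 8 > 0`.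
`V'` = transport by the chart `G i` (`push_chart`); `V'` is a push of `{k 0}ᶜ` (`crx_zero`).  CLAIM: `V' 1 (fing T (kcf_J l)) = kcf_(insert i J) l`.  Let `f = fract l` (`k l = k f`).
* `f ≤ b`: both curves are `k f`.  `fing T (k f) = k f` (`fing_fix`: `T (u, 0) = k f`, `|u| < 1/8` gives `k f = G_i (ρ/2 u, -d) ∈ G_i '' Bxx ρ`, `exc2`, `fix` and injectivity: `-d = 0`).  `V' 1 (k f) = k f`: if `k f ∈ G_i '' Bxx ρ` it is `G_i (⟨0, f - z_i⟩, 0)`, a point of `P`, fixed by `V 1` (`PushE.out`).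
* `f > b`, `|f - x_i| < ρ`: `kcf_J l = W (s₀ - d) (k f) = G_i (f - x_i, -d)`; with `u = (f - x_i)/(ρ/2)`: `fing T` of it is `G_i (f - x_i, -d + 9/8 d bmp u)` (`|u| < 1`: `fing_foot`; `|u| ≥ 1`: `fing_fix`, `bmp u = 0`); `V' 1` gives `G_i (f - x_i, -d + 2 d bmp u)` (the point is in `S` or `a = 0`), which is
  `W (s₀ - d + 2 d bmp u) (k f)` (`mov`), and this is `kcf_(insert i J) l` (`thb_near`).
* `f > b`, `|f - x_i| ≥ ρ`: `y = kcf_J l = W (thb f) (k f)` is not in `G_i '' Bxx ρ` (`exc1`, `|thb f - s₀| ≤ d < ρ`), so `fing T` (`tc_sub`, `fing_off`) and `V' 1` fix it; `thb_insert`.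
-/

open scoped Manifold ContDiff Topology
open Set Filter
open Pool.Agent.CSG (stp)
open Pool.Agent.RSG (E3 ex Thick)
open Pool.Agent.KNT (bmp)
open Pool.Agent.NHP
open Pool.Agent.NHQ (Crv Mv fing)

namespace Pool.Agent.NHH

variable {N : Type*} [TopologicalSpace N] [ChartedSpace E3 N] [IsManifold (𝓡 3) ∞ N] [T2Space N]

theorem crx_step {b : ℝ} {k : ℝ → N} {W : ℝ → Equiv.Perm N} {s₀ : ℝ} {m : ℕ} {x z : Fin m → ℝ} {ρ : ℝ} {G : Fin m → E → N}
    (h : Crx b k W s₀ x z ρ G) (hper : ∀ x, k (x + 1) = k x) {d : ℝ} (hd : 0 < d) (hd' : d ≤ ρ / 4) {J : Finset (Fin m)}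
    {i : Fin m} (hi : i ∉ J) :
    Mv (k 0) (fing (Tc (G i) ρ d) ∘ kcf b k W (thb s₀ d ρ x J)) (kcf b k W (thb s₀ d ρ x (insert i J))) := by
  have hρ := h.rho
  have ht := h.trv i
  have hT : InjOn (Tc (G i) ρ d) TD := (crx_chd h hper hd hd' hi).cht.inj
  have hdρ : d < ρ := by linarith
  let P : Set E := {q | q.1.re = 0 ∧ q.2 = 0}
  have hP : IsClosed P := by
    have h1 : IsClosed {q : E | q.1.re = 0} := isClosed_eq (by fun_prop) continuous_const
    have h2 : IsClosed {q : E | q.2 = 0} := isClosed_eq (by fun_prop) continuous_const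
    exact h1.inter h2
  let a : ℂ → ℝ := fun w => 7 / 8 * d * bmp (w.re / (ρ / 2))
  have ha : ContDiff ℝ ∞ a := by
    refine contDiff_const.mul (Pool.Agent.NHQ.bmp_smooth.comp ?_)
    exact Complex.reCLM.contDiff.div_const _
  let sg : ℝ → E := fun u => ((u : ℂ), -d + 9 / 8 * d * bmp (u / (ρ / 2)))
  have hsg : Continuous sg := by
    refine Complex.continuous_ofReal.prodMk ?_
    refine continuous_const.add (continuous_const.mul ?_)
    exact Pool.Agent.NHQ.bmp_smooth.continuous.comp (continuous_id.div_const _)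
  obtain ⟨V, hV, hV1, -⟩ := Pool.Agent.NHQ.vshear (bxx_open ρ) hP ha (S := sg '' Icc (-(ρ / 16)) (ρ / 16))
    (isCompact_Icc.image hsg) (by
      rintro _ ⟨u, hu, rfl⟩ r hr
      have hB0 := Pool.Agent.NHQ.bmp_nonneg (u / (ρ / 2))
      have hB1 := Pool.Agent.NHQ.bmp_le_one (u / (ρ / 2))
      have hv : (sg u).2 + r * a (sg u).1 = -d + (9 / 8 + 7 / 8 * r) * d * bmp (u / (ρ / 2)) := by
        change -d + 9 / 8 * d * bmp (u / (ρ / 2)) + r * (7 / 8 * d * bmp ((u : ℂ).re / (ρ / 2))) = _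
        rw [Complex.ofReal_re]
        ring
      rw [hv]
      have hc0 : 0 ≤ (9 / 8 + 7 / 8 * r) * d := by nlinarith [hr.1]
      have hc1 : (9 / 8 + 7 / 8 * r) * d ≤ 2 * d := by nlinarith [hr.2]
      have h1 : 0 ≤ (9 / 8 + 7 / 8 * r) * d * bmp (u / (ρ / 2)) := mul_nonneg hc0 hB0
      have h2 : (9 / 8 + 7 / 8 * r) * d * bmp (u / (ρ / 2)) ≤ 2 * d := by nlinarith
      refine ⟨⟨?_, ?_, ?_⟩, ?_⟩
      · change |(u : ℂ).re| < ρ
        rw [Complex.ofReal_re, abs_lt]
        constructor <;> linarith [hu.1, hu.2]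
      · change |(u : ℂ).im| < ρ
        rw [Complex.ofReal_im, abs_zero]
        exact hρ
      · change |(-d + (9 / 8 + 7 / 8 * r) * d * bmp (u / (ρ / 2)))| < ρ
        rw [abs_lt]
        constructor <;> linarith
      · rintro ⟨h3, h4⟩
        change (u : ℂ).re = 0 at h3
        rw [Complex.ofReal_re] at h3
        change -d + (9 / 8 + 7 / 8 * r) * d * bmp (u / (ρ / 2)) = 0 at h4
        rw [h3, zero_div, Pool.Agent.NHQ.bmp_zero_eq] at h4
        nlinarith [hr.1])
  obtain ⟨V', hV', hVq, hVo⟩ := push_chart ht.cht (hV.mono (sdiff_subset))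
  refine ⟨V', hV'.mono ?_, ?_⟩
  · intro y hy hy'
    rw [mem_singleton_iff] at hy'
    exact crx_zero h i (hy' ▸ hy)
  intro l
  have hf0 := Int.fract_nonneg l
  have hf1 := Int.fract_lt_one l
  have hTe : ∀ u : ℝ, Tc (G i) ρ d ((u : ℂ), 0) = G i (((ρ / 2 * u : ℝ) : ℂ), -d) := by
    intro u
    unfold Tc
    rw [mul_zero, add_zero, Complex.ofReal_mul]
  have hTB : ∀ u : ℝ, |u| < 1 → ((((ρ / 2 * u : ℝ) : ℂ), -d) : E) ∈ Bxx ρ := by
    intro u hu
    refine ⟨?_, ?_, ?_⟩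
    · change |((ρ / 2 * u : ℝ) : ℂ).re| < ρ
      rw [Complex.ofReal_re, abs_mul, abs_of_pos (by linarith : (0 : ℝ) < ρ / 2)]
      nlinarith
    · change |((ρ / 2 * u : ℝ) : ℂ).im| < ρ
      rw [Complex.ofReal_im, abs_zero]
      exact hρ
    · change |(-d)| < ρ
      rw [abs_neg, abs_of_pos hd]
      exact hdρ
  by_cases hfb : Int.fract l ≤ b
  · have e1 : ∀ th : ℝ → ℝ, kcf b k W th l = k (Int.fract l) := by
      intro th
      unfold kcf
      rw [if_pos hfb]
      exact bum_fract hper l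
    rw [Function.comp_apply, e1, e1]
    have hfx : k (Int.fract l) ∈ G i '' Bxx ρ → |Int.fract l - z i| < ρ ∧ G i (⟨0, Int.fract l - z i⟩, 0) = k (Int.fract l) ∧
        ((⟨0, Int.fract l - z i⟩, 0) : E) ∈ Bxx ρ := by
      intro hm
      have h2 := h.exc2 i _ ⟨hf0, hfb⟩ hm
      have h3 := ht.fix _ h2
      rw [show z i + (Int.fract l - z i) = Int.fract l by ring] at h3
      refine ⟨h2, h3, ?_, h2, ?_⟩
      · simpa using hρ
      · simpa using hρ
    have e2 : fing (Tc (G i) ρ d) (k (Int.fract l)) = k (Int.fract l) := by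
      apply Pool.Agent.NHQ.fing_fix hT
      intro u hu hTu
      rw [hTe] at hTu
      have hB := hTB u (by linarith)
      obtain ⟨h2, h3, h4⟩ := hfx (hTu ▸ mem_image_of_mem _ hB)
      have h5 := ht.cht.inj hB h4 (hTu.trans h3.symm)
      have h6 : -d = 0 := congrArg Prod.snd h5
      linarith
    rw [e2]
    by_cases hm : k (Int.fract l) ∈ G i '' Bxx ρ
    · obtain ⟨h2, h3, h4⟩ := hfx hm
      rw [← h3, hVq 1 _ h4, hV.out 1]
      rintro ⟨-, h6⟩
      exact h6 ⟨rfl, rfl⟩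
    · exact (hVo 1 _ hm).symm
  · have e1 : ∀ th : ℝ → ℝ, kcf b k W th l = W (th (Int.fract l)) (k (Int.fract l)) := by
      intro th
      unfold kcf
      rw [if_neg hfb, ← bum_fract hper l]
    rw [Function.comp_apply, e1, e1]
    push Not at hfb
    by_cases hx : |Int.fract l - x i| < ρ
    · rw [thb_out h hi hx, thb_near h (Finset.mem_insert_self i J) hx]
      obtain ⟨u, hu⟩ : ∃ u : ℝ, u = (Int.fract l - x i) / (ρ / 2) := ⟨_, rfl⟩
      have hv : Int.fract l - x i = ρ / 2 * u := by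
        rw [hu]
        field_simp
      rw [← hu]
      have hB0 := Pool.Agent.NHQ.bmp_nonneg u
      have hB1 := Pool.Agent.NHQ.bmp_le_one u
      have hmv : ∀ τ : ℝ, |τ| < ρ → W (s₀ + τ) (k (Int.fract l)) = G i (((ρ / 2 * u : ℝ) : ℂ), τ) := by
        intro τ hτ
        have h3 := ht.mov _ τ hx hτ
        rw [show x i + (Int.fract l - x i) = Int.fract l by ring, hv] at h3
        exact h3.symm
      have hr1 : |(-d + 2 * d * bmp u)| < ρ := by
        rw [abs_lt]
        constructor <;> nlinarith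
      rw [show s₀ - d + 2 * d * bmp u = s₀ + (-d + 2 * d * bmp u) by ring, hmv _ hr1,
        show s₀ - d = s₀ + -d by ring, hmv (-d) (by rw [abs_neg, abs_of_pos hd]; exact hdρ)]
      rw [hv] at hx
      have hBx : ∀ τ : ℝ, |τ| < ρ → ((((ρ / 2 * u : ℝ) : ℂ), τ) : E) ∈ Bxx ρ := by
        intro τ hτ
        refine ⟨?_, ?_, hτ⟩
        · change |((ρ / 2 * u : ℝ) : ℂ).re| < ρ
          rw [Complex.ofReal_re]
          exact hx
        · change |((ρ / 2 * u : ℝ) : ℂ).im| < ρ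
          rw [Complex.ofReal_im, abs_zero]
          exact hρ
      have e2 : fing (Tc (G i) ρ d) (G i (((ρ / 2 * u : ℝ) : ℂ), -d)) = G i (((ρ / 2 * u : ℝ) : ℂ), -d + 9 / 8 * d * bmp u) := by
        by_cases hu1 : |u| < 1
        · rw [← hTe, Pool.Agent.NHQ.fing_foot hT hu1]
          unfold Tc
          rw [Complex.ofReal_mul]
          congr 2
          ring
        · push Not at hu1
          rw [Pool.Agent.NHQ.bmp_zero (by linarith), mul_zero, add_zero]
          apply Pool.Agent.NHQ.fing_fix hT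
          intro u' hu' hTu
          rw [hTe] at hTu
          have h5 := ht.cht.inj (hTB u' (by linarith)) (hBx (-d) (by rw [abs_neg, abs_of_pos hd]; exact hdρ)) hTu
          have h6 : ((ρ / 2 * u' : ℝ) : ℂ) = ((ρ / 2 * u : ℝ) : ℂ) := congrArg Prod.fst h5
          rw [Complex.ofReal_inj] at h6
          have h7 : u' = u := mul_left_cancel₀ (by positivity) h6
          rw [h7] at hu'
          linarith
      rw [e2]
      have hr2 : |(-d + 9 / 8 * d * bmp u)| < ρ := by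
        rw [abs_lt]
        constructor <;> nlinarith
      rw [hVq 1 _ (hBx _ hr2)]
      have hau : a ((ρ / 2 * u : ℝ) : ℂ) = 7 / 8 * d * bmp u := by
        change 7 / 8 * d * bmp (((ρ / 2 * u : ℝ) : ℂ).re / (ρ / 2)) = _
        rw [Complex.ofReal_re, mul_div_cancel_left₀ _ (by positivity : (ρ / 2 : ℝ) ≠ 0)]
      have hq : ((((ρ / 2 * u : ℝ) : ℂ), -d + 9 / 8 * d * bmp u) : E) ∈ sg '' Icc (-(ρ / 16)) (ρ / 16) ∨
          a ((((ρ / 2 * u : ℝ) : ℂ), -d + 9 / 8 * d * bmp u) : E).1 = 0 := by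
        by_cases hu2 : |u| < 1 / 8
        · left
          refine ⟨ρ / 2 * u, ?_, ?_⟩
          · rw [abs_lt] at hu2
            constructor <;> nlinarith
          · change (((ρ / 2 * u : ℝ) : ℂ), -d + 9 / 8 * d * bmp (ρ / 2 * u / (ρ / 2))) = _
            rw [mul_div_cancel_left₀ _ (by positivity : (ρ / 2 : ℝ) ≠ 0)]
        · right
          push Not at hu2
          change a ((ρ / 2 * u : ℝ) : ℂ) = 0
          rw [hau, Pool.Agent.NHQ.bmp_zero hu2, mul_zero]
      rw [hV1 _ hq 1, Pool.Agent.CSG.stp_one zero_lt_one le_rfl]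
      change _ = G i (((ρ / 2 * u : ℝ) : ℂ), -d + 9 / 8 * d * bmp u + 1 * a ((ρ / 2 * u : ℝ) : ℂ))
      rw [hau]
      congr 2
      ring
    · push Not at hx
      rw [thb_insert h hx]
      have hn : W (thb s₀ d ρ x J (Int.fract l)) (k (Int.fract l)) ∉ G i '' Bxx ρ := by
        intro hm
        have h1 := thb_mem h hd J (Int.fract l)
        have h2 := h.exc1 i (thb s₀ d ρ x J (Int.fract l) - s₀) (by linarith) _ ⟨hfb.le, hf1.le⟩
          (by rw [show s₀ + (thb s₀ d ρ x J (Int.fract l) - s₀) = thb s₀ d ρ x J (Int.fract l) by ring]; exact hm)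
        linarith
      rw [Pool.Agent.NHQ.fing_off hT (fun hm => hn (tc_sub h hd hd' i hm)), hVo 1 _ hn]

end Pool.Agent.NHH
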