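import Mathlib
import Pool.Agent.NHH.FrA
import Pool.Agent.NHH.Stp
import Pool.Agent.NHH.Lst
import Pool.Agent.NHQ.Thk

/-!
# NHH/Frl: from the time 0 to the time 1 (difficulty 3, assembly)

`hX`: a crossing change of a curve of the class gives an equivalent knot.  In the whole file `k` is a curve of the class: period `1` and `k y = k y' → y' = y + n` come from `Crv.thick` (`Thick.per`, `Thick.inj`), `k 0 = x`.
`crx_cross` (at one time `s₀`): `δ` = minimum of `ρ/4` and the `δ` of `crx_last`.  `Finset.induction_on J` (`J ⊆ univ`): `Crv x o (kcf (thb J)) ∧ LEqN (range (kc (s₀ - d))) (range (kcf (thb J)))`.  `J = ∅`: `thb ∅ = s₀ - d` (`Finset.sum_empty`).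
Step `insert i J`: `T = Tc (G i) ρ d`, `crx_chd`, `k 0 ∉ T '' TD` (`tc_sub`, `crx_zero`); `fing T ∘ kcf_J` is a `Crv` (`Crv.fing`), `range (fing T ∘ kcf_J) = kn (range kcf_J) T` (`NHQ.range_fing`), `hX` with `Cross`; then `crx_step`: `Crv.mv`, `Mv.leq`.  At the end `crx_last`.
`frame_leq`: `D = {s | Free b k W s}`; `[0, 1] \ D` is finite (image of the finite set under `Prod.fst`).  `R s s' = (Crv x o (kc s) → Crv x o (kc s') ∧ LEqN (range (kc s)) (range (kc s')))`, reflexive, transitive.  `chain` on `[0, 1]`.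
* `s₀` free: `ε` from `free_near`; `Mv (kc s₀) (kc s)`, `Mv (kc s₀) (kc s')` give `Mv (kc s) (kc s')`.
* `s₀` not free, so `0 < s₀ < 1`: choose `ε` such that `s₀` is the only non-free time of `[0, 1]` in `(s₀ - ε, s₀ + ε) ⊆ (0, 1)`.  `exists_crx`, `crx_cross`: `δ`.  Let `s ≤ s'` be free times in the neighbourhood.  If both are on the same side of `s₀`: `free_mv` on `[s, s']`.  If `s < s₀ < s'`: `d < min δ (min (s₀ - s) (s' - s₀))`, `free_mv` on
  `[s, s₀ - d]`, `crx_cross`, `free_mv` on `[s₀ + d, s']`.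
`kc_zero`: `kc b k W 0 = k`.
-/

open scoped Manifold ContDiff Topology
open Set Filter
open Pool.Agent.CSG (stp)
open Pool.Agent.RSG (E3 ex Thick)
open Pool.Agent.KNT (bmp)
open Pool.Agent.NHP
open Pool.Agent.NHQ (Crv Mv fing)

namespace Pool.Agent.NHH

open CategoryTheory

variable {N : Type*} [TopologicalSpace N] [ChartedSpace E3 N] [IsManifold (𝓡 3) ∞ N] [T2Space N]

theorem crx_cross {x : N} {o : FundamentalGroupoid.mk x ⟶ FundamentalGroupoid.mk x}
    (hX : ∀ (k' : ℝ → N) (K' : Set N), Crv x o k' → Cross (range k') K' → LEqN (range k') K') {b : ℝ} {k : ℝ → N}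
    {W : ℝ → Equiv.Perm N} (hk0 : k 0 = x) (hk : Continuous k) (hper : ∀ y, k (y + 1) = k y) (hF : Frm b k W) {s₀ : ℝ} {m : ℕ}
    {y z : Fin m → ℝ} {ρ : ℝ} {G : Fin m → E → N} (h : Crx b k W s₀ y z ρ G) :
    ∃ δ : ℝ, 0 < δ ∧ ∀ d : ℝ, 0 < d → d < δ → Crv x o (kc b k W (s₀ - d)) →
      Crv x o (kc b k W (s₀ + d)) ∧ LEqN (range (kc b k W (s₀ - d))) (range (kc b k W (s₀ + d))) := by
  obtain ⟨δ₀, hδ₀, hlast⟩ := crx_last hF hk h hper
  have hρ := h.rho
  refine ⟨min (ρ / 4) δ₀, lt_min (by positivity) hδ₀, ?_⟩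
  intro d hd hd1 hC
  have hd' : d ≤ ρ / 4 := (hd1.trans_le (min_le_left _ _)).le
  have hd2 : d < δ₀ := hd1.trans_le (min_le_right _ _)
  have key : ∀ J : Finset (Fin m), Crv x o (kcf b k W (thb s₀ d ρ y J)) ∧
      LEqN (range (kc b k W (s₀ - d))) (range (kcf b k W (thb s₀ d ρ y J))) := by
    intro J
    induction J using Finset.induction_on with
    | empty =>
      have e : thb s₀ d ρ y ∅ = fun _ => s₀ - d := by
        funext t
        simp [thb]
      rw [e]
      exact ⟨hC, LEqN.refl _⟩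
    | insert i J hi ih =>
      obtain ⟨hC1, hL1⟩ := ih
      have hT := crx_chd h hper hd hd' hi
      have hx : x ∉ Tc (G i) ρ d '' TD := by
        intro hx
        have := tc_sub h hd hd' i hx
        rw [← hk0] at this
        exact crx_zero h i this
      have hf := hC1.fing hT hx
      have hm := crx_step h hper hd hd' hi
      rw [hk0] at hm
      refine ⟨hf.mv hm, hL1.trans ?_⟩
      have h1 := hX _ _ hC1 ⟨_, hT, rfl⟩
      have h2 : range (fing (Tc (G i) ρ d) ∘ kcf b k W (thb s₀ d ρ y J)) =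
          kn (range (kcf b k W (thb s₀ d ρ y J))) (Tc (G i) ρ d) := by
        exact NHQ.range_fing hT
      rw [← h2] at h1
      exact h1.trans hm.leq
  obtain ⟨hC1, hL1⟩ := key Finset.univ
  have hm := hlast d hd hd2
  rw [hk0] at hm
  exact ⟨hC1.mv hm, hL1.trans hm.leq⟩

theorem frame_leq {x : N} {o : FundamentalGroupoid.mk x ⟶ FundamentalGroupoid.mk x}
    (hX : ∀ (k' : ℝ → N) (K' : Set N), Crv x o k' → Cross (range k') K' → LEqN (range k') K') {b : ℝ} {k : ℝ → N}
    {W : ℝ → Equiv.Perm N} (hk : Crv x o k) (hF : Frm b k W) (hf0 : Free b k W 0) (hf1 : Free b k W 1)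
    (hfin : {q : ℝ × ℝ | q.1 ∈ Icc (0 : ℝ) 1 ∧ q.2 ∈ Ioo b 1 ∧ W q.1 (k q.2) ∈ k '' Icc 0 b}.Finite)
    (htrv : ∀ s ∈ Icc (0 : ℝ) 1, ∀ y ∈ Ioo b 1, W s (k y) ∈ k '' Icc 0 b → ∃ (z ρ : ℝ) (G : E → N), Trv b k W s y z ρ G) :
    Crv x o (kc b k W 1) ∧ LEqN (range k) (range (kc b k W 1)) := by
  have hk0 : k 0 = x := hk.zero
  have hkc : Continuous k := hk.cont
  obtain ⟨κ, hκ, hκk⟩ := hk.thick
  have hper : ∀ y, k (y + 1) = k y := fun y => by rw [← hκk, ← hκk, hκ.per]
  have hinj : ∀ y z, k y = k z → ∃ n : ℤ, z = y + n := by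
    intro y z hyz
    rw [← hκk, ← hκk] at hyz
    exact (hκ.inj y 0 z 0 (by simp) (by simp) hyz).2
  have hmv : ∀ s s' : ℝ, Mv (k 0) (kc b k W s) (kc b k W s') → Crv x o (kc b k W s) →
      Crv x o (kc b k W s') ∧ LEqN (range (kc b k W s)) (range (kc b k W s')) := by
    intro s s' hm hC
    rw [hk0] at hm
    exact ⟨hC.mv hm, hm.leq⟩
  have hfree : ∀ s s' : ℝ, s ≤ s' → (∀ t ∈ Icc s s', Free b k W t) → Crv x o (kc b k W s) →
      Crv x o (kc b k W s') ∧ LEqN (range (kc b k W s)) (range (kc b k W s')) := by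
    intro s s' hs hf
    exact hmv s s' (free_mv hF hkc hper hs hf)
  have hfinD : (Icc (0 : ℝ) 1 \ {s | Free b k W s}).Finite := by
    refine (hfin.image Prod.fst).subset ?_
    rintro s ⟨hs, hns⟩
    have hns' : ¬ Free b k W s := hns
    unfold Free at hns'
    push Not at hns'
    obtain ⟨y, hy, hyk⟩ := hns'
    exact ⟨(s, y), ⟨hs, hy, hyk⟩, rfl⟩
  have main := chain (D := {s | Free b k W s}) (R := fun s s' => Crv x o (kc b k W s) →
      Crv x o (kc b k W s') ∧ LEqN (range (kc b k W s)) (range (kc b k W s'))) (a := 0) (b := 1) zero_le_one hf0 hf1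
      (fun s _ hC => ⟨hC, LEqN.refl _⟩)
      (fun s _ s' _ s'' _ h1 h2 hC => ⟨(h2 (h1 hC).1).1, (h1 hC).2.trans (h2 (h1 hC).1).2⟩) hfinD ?_
  · have h0 := kc_zero hF
    have h1 := main (by rw [h0]; exact hk)
    rw [h0] at h1
    exact h1
  · intro s₀ hs₀
    by_cases hf : Free b k W s₀
    · obtain ⟨ε, hε, h⟩ := free_near hF hkc hper hf
      refine ⟨ε, hε, ?_⟩
      intro s _ s' _ _ _ hs hs' _
      exact hmv s s' ((h s hs.le).symm.trans (h s' hs'.le))
    · -- the isolated time
      have h0 : s₀ ≠ 0 := fun h => hf (by rw [h]; exact hf0)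
      have h1 : s₀ ≠ 1 := fun h => hf (by rw [h]; exact hf1)
      have hs0 : 0 < s₀ := lt_of_le_of_ne hs₀.1 (Ne.symm h0)
      have hs1 : s₀ < 1 := lt_of_le_of_ne hs₀.2 h1
      have hfin2 : ((Icc (0 : ℝ) 1 \ {s | Free b k W s}) \ {s₀}).Finite := hfinD.subset sdiff_subset
      have hop : IsOpen ((Icc (0 : ℝ) 1 \ {s | Free b k W s}) \ {s₀})ᶜ := hfin2.isClosed.isOpen_compl
      obtain ⟨ε₁, hε₁, hball⟩ := Metric.isOpen_iff.1 hop s₀ (fun h => h.2 rfl)
      obtain ⟨m, y, z, ρ, G, hcrx⟩ := exists_crx hF hkc hinj (s₀ := s₀)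
        ((hfin.preimage (f := fun y : ℝ => (s₀, y)) (fun a _ b _ hab => congrArg Prod.snd hab)).subset
          (fun y hy => ⟨hs₀, hy.1, hy.2⟩)) (htrv s₀ hs₀)
      obtain ⟨δ, hδ, hcr⟩ := crx_cross hX hk0 hkc hper hF hcrx
      have hε : 0 < min ε₁ (min s₀ (1 - s₀)) := lt_min hε₁ (lt_min hs0 (by linarith))
      refine ⟨min ε₁ (min s₀ (1 - s₀)), hε, ?_⟩
      have hnear : ∀ t : ℝ, |t - s₀| < min ε₁ (min s₀ (1 - s₀)) → t ≠ s₀ → Free b k W t := by
        intro t ht hne
        by_contra hft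
        have a1 : |t - s₀| < ε₁ := ht.trans_le (min_le_left _ _)
        have a2 : |t - s₀| < s₀ := ht.trans_le ((min_le_right _ _).trans (min_le_left _ _))
        have a3 : |t - s₀| < 1 - s₀ := ht.trans_le ((min_le_right _ _).trans (min_le_right _ _))
        rw [abs_lt] at a2 a3
        exact hball (by rw [Metric.mem_ball, Real.dist_eq]; exact a1) ⟨⟨⟨by linarith, by linarith⟩, hft⟩, hne⟩
      intro s hsD s' hsD' _ _ hs hs' hss'
      have hs2 := abs_lt.1 hs
      have hs2' := abs_lt.1 hs'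
      have hne : s ≠ s₀ := fun h => hf (by rw [← h]; exact hsD)
      have hne' : s' ≠ s₀ := fun h => hf (by rw [← h]; exact hsD')
      rcases lt_or_gt_of_ne hne with hlt | hgt
      · rcases lt_or_gt_of_ne hne' with hlt' | hgt'
        · refine hfree s s' hss' ?_
          intro t ht
          refine hnear t ?_ (by linarith [ht.2] : t < s₀).ne
          rw [abs_lt]
          constructor <;> linarith [ht.1, ht.2]
        · -- across
          have hd : 0 < min δ (min (s₀ - s) (s' - s₀)) := lt_min hδ (lt_min (by linarith) (by linarith))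
          set d : ℝ := min δ (min (s₀ - s) (s' - s₀)) / 2 with hdd
          have hd0 : 0 < d := by positivity
          have hd1 : d < δ := by
            have := min_le_left δ (min (s₀ - s) (s' - s₀))
            rw [hdd]; linarith
          have hd2 : d < s₀ - s := by
            have := (min_le_right δ (min (s₀ - s) (s' - s₀))).trans (min_le_left _ _)
            rw [hdd]; linarith
          have hd3 : d < s' - s₀ := by
            have := (min_le_right δ (min (s₀ - s) (s' - s₀))).trans (min_le_right _ _)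
            rw [hdd]; linarith
          intro hC
          obtain ⟨b1, b2⟩ := hfree s (s₀ - d) (by linarith) (by
            intro t ht
            refine hnear t ?_ (by linarith [ht.2] : t < s₀).ne
            rw [abs_lt]
            constructor <;> linarith [ht.1, ht.2]) hC
          obtain ⟨b3, b4⟩ := hcr d hd0 hd1 b1
          obtain ⟨b5, b6⟩ := hfree (s₀ + d) s' (by linarith) (by
            intro t ht
            refine hnear t ?_ (by linarith [ht.1] : s₀ < t).ne'
            rw [abs_lt]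
            constructor <;> linarith [ht.1, ht.2]) b3
          exact ⟨b5, b2.trans (b4.trans b6)⟩
      · refine hfree s s' hss' ?_
        intro t ht
        refine hnear t ?_ (by linarith [ht.1] : s₀ < t).ne'
        rw [abs_lt]
        constructor <;> linarith [ht.1, ht.2]

end Pool.Agent.NHH
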