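import Mathlib
import Pool.Agent.NHP.Grp

/-!
# NHH/Gp: general position of an arc of the knot with respect to a surface (Sard in equal dimension)

`κ` thick, `F` a smooth map of an open subset of the plane to `N`, `Q` compact.  The arc `κ (y, 0)`, `z₀ ≤ y ≤ z₁`, meets `F '' Q`
only in `y₀ ≤ y ≤ y₁`.  Then for a small `v₀` the arc `κ (y, χ y * v₀)` meets `F '' Q` in finitely many points, transversally.
-/

open scoped Manifold ContDiff Topology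
open Set Filter
open Pool.Agent.RSG (E3 ex Thick)
open Pool.Agent.NHP

namespace Pool.Agent.NHH

section
variable {N : Type*} [TopologicalSpace N] [ChartedSpace E3 N]

theorem gp_loc {κ : ℝ × ℂ → N} (hκ : Thick κ) {q : E} (hq : ‖q.1‖ < 1) :
    IsLocalDiffeomorphAt 𝓘(ℝ, ℂ × ℝ) (𝓡 3) ∞ (fun q : E => κ (q.2, q.1)) q := by
  have h1 : IsLocalDiffeomorphAt 𝓘(ℝ, ℂ × ℝ) 𝓘(ℝ, ℝ × ℂ) ∞
      (ContinuousLinearEquiv.prodComm ℝ ℂ ℝ).toDiffeomorph q :=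
    (ContinuousLinearEquiv.prodComm ℝ ℂ ℝ).toDiffeomorph.isLocalDiffeomorph q
  have h2 : IsLocalDiffeomorphAt 𝓘(ℝ, ℝ × ℂ) (𝓡 3) ∞ κ
      ((ContinuousLinearEquiv.prodComm ℝ ℂ ℝ).toDiffeomorph q) := hκ.loc q.2 q.1 hq
  exact IsLocalDiffeomorphAt.comp (hf := h1) (hg := h2)

/-- the chart along an arc of the knot -/
theorem gp_cht {κ : ℝ × ℂ → N} (hκ : Thick κ) (a : ℝ) :
    Cht {q : E | ‖q.1‖ < 1 ∧ a < q.2 ∧ q.2 < a + 1} (fun q : E => κ (q.2, q.1)) := by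
  refine ⟨?_, fun q hq => gp_loc hκ hq.1, ?_⟩
  · have h1 : IsOpen {q : E | ‖q.1‖ < 1} := isOpen_lt (by fun_prop) continuous_const
    have h2 : IsOpen {q : E | a < q.2} := isOpen_lt continuous_const (by fun_prop)
    have h3 : IsOpen {q : E | q.2 < a + 1} := isOpen_lt (by fun_prop) continuous_const
    exact h1.inter (h2.inter h3)
  · rintro ⟨w, x⟩ ⟨h1, h2, h3⟩ ⟨w', x'⟩ ⟨h1', h2', h3'⟩ he
    simp only at h1 h2 h3 h1' h2' h3' he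
    obtain ⟨e1, m, e2⟩ := hκ.inj x w x' w' h1 h1' he
    have h4 : (-1 : ℝ) < m := by linarith
    have h5 : (m : ℝ) < 1 := by linarith
    have h6 : m = 0 := by
      have h7 : (-1 : ℤ) < m := by exact_mod_cast h4
      have h8 : m < (1 : ℤ) := by exact_mod_cast h5
      omega
    rw [h6] at e2
    simp only [Int.cast_zero, add_zero] at e2
    rw [e1, e2]

theorem gp_cont {κ : ℝ × ℂ → N} (hκ : Thick κ) : ContinuousOn κ {q | ‖q.2‖ < 1} := by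
  rintro ⟨l, v⟩ hv
  exact (hκ.loc l v hv).contMDiffAt.continuousAt.continuousWithinAt

end

theorem gp_det {A : (ℝ × ℝ) →L[ℝ] (ℝ × ℝ)} (h : ¬ Function.Bijective A) : A.det = 0 := by
  by_contra hd
  apply h
  have h1 : LinearMap.ker (A : (ℝ × ℝ) →ₗ[ℝ] (ℝ × ℝ)) = ⊥ := by
    by_contra hk
    exact hd (LinearMap.det_eq_zero_iff_ker_ne_bot.2 hk)
  have h2 : Function.Injective (A : (ℝ × ℝ) →ₗ[ℝ] (ℝ × ℝ)) := LinearMap.ker_eq_bot.1 h1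
  exact ⟨h2, LinearMap.injective_iff_surjective.1 h2⟩

/-- **Sard's theorem** in equal dimension, with a small regular value -/
theorem gp_sard {D : Set (ℝ × ℝ)} {v : ℝ × ℝ → ℂ} (hv : ∀ q ∈ D, DifferentiableAt ℝ v q) {ε : ℝ} (hε : 0 < ε) :
    ∃ v₀ : ℂ, v₀ ≠ 0 ∧ ‖v₀‖ < ε ∧ ∀ q ∈ D, v q = v₀ → Function.Bijective (fderiv ℝ v q) := by
  obtain ⟨e, he⟩ : ∃ e : ℂ ≃L[ℝ] ℝ × ℝ, e = Complex.equivRealProdCLM := ⟨_, rfl⟩
  have h1 : MeasureTheory.volume ((fun q => e (v q)) '' {q | q ∈ D ∧ ¬ Function.Bijective (fderiv ℝ v q)}) = 0 := by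
    refine MeasureTheory.addHaar_image_eq_zero_of_det_fderivWithin_eq_zero MeasureTheory.volume
      (f' := fun q => (e : ℂ →L[ℝ] ℝ × ℝ).comp (fderiv ℝ v q)) ?_ ?_
    · intro q hq
      exact (e.hasFDerivAt.comp q (hv q hq.1).hasFDerivAt).hasFDerivWithinAt
    · intro q hq
      apply gp_det
      intro hb
      apply hq.2
      have h2 : ⇑(fderiv ℝ v q) = e.symm ∘ ⇑((e : ℂ →L[ℝ] ℝ × ℝ).comp (fderiv ℝ v q)) := by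
        funext x
        simp
      rw [h2]
      exact e.symm.bijective.comp hb
  have h2 : MeasureTheory.volume ((fun q => e (v q)) '' {q | q ∈ D ∧ ¬ Function.Bijective (fderiv ℝ v q)} ∪ {0}) = 0 := by
    rw [MeasureTheory.measure_union_null_iff]
    exact ⟨h1, MeasureTheory.measure_singleton _⟩
  have h3 : IsOpen (e '' Metric.ball (0 : ℂ) ε) := e.toHomeomorph.isOpenMap _ Metric.isOpen_ball
  have h4 : 0 < MeasureTheory.volume (e '' Metric.ball (0 : ℂ) ε) :=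
    h3.measure_pos MeasureTheory.volume ⟨e 0, 0, Metric.mem_ball_self hε, rfl⟩
  have h5 : ¬ e '' Metric.ball (0 : ℂ) ε ⊆
      (fun q => e (v q)) '' {q | q ∈ D ∧ ¬ Function.Bijective (fderiv ℝ v q)} ∪ {0} := by
    intro h
    have := (MeasureTheory.measure_mono h).trans_eq h2
    exact absurd h4 (not_lt.2 this)
  rw [not_subset] at h5
  obtain ⟨_, ⟨v₀, hv₀, rfl⟩, h6⟩ := h5
  refine ⟨v₀, ?_, ?_, ?_⟩
  · rintro rfl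
    exact h6 (Or.inr (by rw [mem_singleton_iff, map_zero]))
  · rw [Metric.mem_ball, dist_zero_right] at hv₀
    exact hv₀
  · intro q hq hqv
    by_contra hb
    exact h6 (Or.inl ⟨q, ⟨hq, hb⟩, by show e (v q) = e v₀; rw [hqv]⟩)

/-- solutions of `v q' = v q` are isolated -/
theorem gp_iso {v : ℝ × ℝ → ℂ} {q : ℝ × ℝ} (hv : DifferentiableAt ℝ v q) (hb : Function.Bijective (fderiv ℝ v q)) (c : ℂ) :
    ∀ᶠ q' in 𝓝[≠] q, v q' ≠ c := by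
  obtain ⟨L, hL⟩ : ∃ L : (ℝ × ℝ) ≃L[ℝ] ℂ, (L : (ℝ × ℝ) →L[ℝ] ℂ) = fderiv ℝ v q := by
    refine ⟨ContinuousLinearEquiv.ofBijective (fderiv ℝ v q) (LinearMap.ker_eq_bot.2 hb.1)
      (LinearMap.range_eq_top.2 hb.2), ?_⟩
    exact ContinuousLinearEquiv.coe_ofBijective _ _ _
  have h1 : HasFDerivAt v (L : (ℝ × ℝ) →L[ℝ] ℂ) q := by rw [hL]; exact hv.hasFDerivAt
  exact h1.eventually_ne ⟨_, L.antilipschitz⟩

section
variable {N : Type*} [TopologicalSpace N] [ChartedSpace E3 N] [IsManifold (𝓡 3) ∞ N] [T2Space N]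

omit [ChartedSpace E3 N] [IsManifold (𝓡 3) ∞ N] in
theorem gp_closed {X : Type*} [TopologicalSpace X] [T2Space X] {K : Set X} (hK : IsCompact K) {f g : X → N}
    (hf : ContinuousOn f K) (hg : ContinuousOn g K) : IsCompact {x | x ∈ K ∧ f x = g x} := by
  have h1 : IsClosed (K ∩ (fun x => (f x, g x)) ⁻¹' diagonal N) :=
    (hf.prodMk hg).preimage_isClosed_of_isClosed hK.isClosed isClosed_diagonal
  exact hK.of_isClosed_subset h1 inter_subset_left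

/-- **General position.** -/
theorem gp_arc {κ : ℝ × ℂ → N} (hκ : Thick κ) {F : ℝ × ℝ → N} {U Q Q₁ : Set (ℝ × ℝ)} (hU : IsOpen U)
    (hF : ContMDiffOn 𝓘(ℝ, ℝ × ℝ) (𝓡 3) ∞ F U) (hQ : IsCompact Q) (hQU : Q ⊆ U) (hQ₁ : IsClosed Q₁) (hQ₁Q : Q₁ ⊆ Q)
    {z₀ w₀ w₁ z₁ : ℝ} (h₀ : z₀ < w₀) (h₁ : w₁ < z₁) (h₂ : z₁ < z₀ + 1)
    {χ : ℝ → ℝ} (hχ : Continuous χ) (hχ0 : ∀ y, 0 ≤ χ y) (hχ1 : ∀ y, χ y ≤ 1) (hχw : ∀ y ∈ Icc w₀ w₁, χ y = 1)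
    (hm : ∀ q ∈ Q, ∀ y ∈ Icc z₀ z₁, F q = κ (y, 0) → w₀ < y ∧ y < w₁)
    (hm₁ : ∀ q ∈ Q₁, ∀ y ∈ Icc z₀ z₁, F q ≠ κ (y, 0)) {ε : ℝ} (hε : 0 < ε) :
    ∃ v₀ : ℂ, v₀ ≠ 0 ∧ ‖v₀‖ < ε ∧ {q | q ∈ Q ∧ ∃ y ∈ Icc z₀ z₁, F q = κ (y, (χ y : ℂ) * v₀)}.Finite ∧
      (∀ q ∈ Q₁, ∀ y ∈ Icc z₀ z₁, F q ≠ κ (y, (χ y : ℂ) * v₀)) ∧
      ∀ q ∈ Q, ∀ y ∈ Icc z₀ z₁, F q = κ (y, (χ y : ℂ) * v₀) → w₀ < y ∧ y < w₁ ∧
        ∃ (l : ℝ × ℝ → ℝ) (v : ℝ × ℝ → ℂ), ContDiffAt ℝ ∞ l q ∧ ContDiffAt ℝ ∞ v q ∧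
          (∀ᶠ q' in 𝓝 q, F q' = κ (l q', v q')) ∧ l q = y ∧ v q = v₀ ∧ Function.Bijective (fderiv ℝ v q) := by
  -- the chart
  obtain ⟨a, ha0, ha1⟩ : ∃ a : ℝ, a < z₀ ∧ z₁ < a + 1 := ⟨(z₀ + z₁ - 1) / 2, by linarith, by linarith⟩
  have hC := gp_cht hκ a
  obtain ⟨O, hO⟩ : ∃ O : Set E, O = {q : E | ‖q.1‖ < 1 ∧ a < q.2 ∧ q.2 < a + 1} := ⟨_, rfl⟩
  rw [← hO] at hC
  obtain ⟨g, hg, hgs⟩ := hC.inv
  have hOo : IsOpen O := hC.opn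
  have hBO : IsOpen ((fun q : E => κ (q.2, q.1)) '' O) := hC.img hOo Subset.rfl
  -- the set where `F` is in the chart
  obtain ⟨D, hD⟩ : ∃ D : Set (ℝ × ℝ), D = U ∩ F ⁻¹' ((fun q : E => κ (q.2, q.1)) '' O) := ⟨_, rfl⟩
  have hDo : IsOpen D := by rw [hD]; exact hF.continuousOn.isOpen_inter_preimage hU hBO
  have hsm : ∀ q ∈ D, ContDiffAt ℝ ∞ (fun q => g (F q)) q := by
    intro q hq
    rw [hD] at hq
    have h1 : ContMDiffAt 𝓘(ℝ, ℝ × ℝ) (𝓡 3) ∞ F q := hF.contMDiffAt (hU.mem_nhds hq.1)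
    have h2 : ContMDiffAt 𝓘(ℝ, ℝ × ℝ) 𝓘(ℝ, ℂ × ℝ) ∞ (fun q => g (F q)) q := (hgs _ hq.2).comp q h1
    exact h2.contDiffAt
  have hvs : ∀ q ∈ D, ContDiffAt ℝ ∞ (fun q => (g (F q)).1) q := fun q hq => contDiffAt_fst.comp q (hsm q hq)
  have hls : ∀ q ∈ D, ContDiffAt ℝ ∞ (fun q => (g (F q)).2) q := fun q hq => contDiffAt_snd.comp q (hsm q hq)
  have hFD : ∀ q ∈ D, F q = κ ((g (F q)).2, (g (F q)).1) := by
    intro q hq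
    rw [hD] at hq
    obtain ⟨o, ho, hoe⟩ := hq.2
    rw [← hoe, hg o ho]
  -- compactness
  have hχv : ∀ (y : ℝ) (v : ℂ), ‖(χ y : ℂ) * v‖ ≤ ‖v‖ := by
    intro y v
    rw [norm_mul, Complex.norm_real, Real.norm_eq_abs, abs_of_nonneg (hχ0 y)]
    exact mul_le_of_le_one_left (norm_nonneg _) (hχ1 y)
  obtain ⟨M, hM⟩ : ∃ M : Set ((ℝ × ℝ) × ℝ × ℂ), M = Q ×ˢ (Icc z₀ z₁ ×ˢ Metric.closedBall (0 : ℂ) (1 / 2)) := ⟨_, rfl⟩
  have hMc : IsCompact M := by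
    rw [hM]
    exact hQ.prod (isCompact_Icc.prod (isCompact_closedBall _ _))
  have hfM : ContinuousOn (fun m : (ℝ × ℝ) × ℝ × ℂ => F m.1) M := by
    rw [hM]
    exact (hF.continuousOn.mono hQU).comp continuousOn_fst (fun m hm => hm.1)
  have hgM : ContinuousOn (fun m : (ℝ × ℝ) × ℝ × ℂ => κ (m.2.1, (χ m.2.1 : ℂ) * m.2.2)) M := by
    refine (gp_cont hκ).comp (f := fun m : (ℝ × ℝ) × ℝ × ℂ => (m.2.1, (χ m.2.1 : ℂ) * m.2.2)) ?_ ?_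
    · apply Continuous.continuousOn
      have h1 : Continuous fun m : (ℝ × ℝ) × ℝ × ℂ => χ m.2.1 := hχ.comp (by fun_prop)
      have h2 : Continuous fun m : (ℝ × ℝ) × ℝ × ℂ => ((χ m.2.1 : ℝ) : ℂ) := Complex.continuous_ofReal.comp h1
      exact (Continuous.prodMk (by fun_prop) (h2.mul (by fun_prop)))
    · intro m hm
      rw [hM] at hm
      have h1 := hm.2.2
      rw [mem_closedBall_zero_iff] at h1
      exact (hχv _ _).trans_lt (by linarith)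
  have hA := gp_closed hMc hfM hgM
  have hcl1 : IsClosed {m : (ℝ × ℝ) × ℝ × ℂ | m.2.1 ∉ Ioo w₀ w₁} := by
    have : IsOpen {m : (ℝ × ℝ) × ℝ × ℂ | m.2.1 ∈ Ioo w₀ w₁} := isOpen_Ioo.preimage (by fun_prop)
    exact this.isClosed_compl
  have hcl2 : IsClosed {m : (ℝ × ℝ) × ℝ × ℂ | m.1 ∈ Q₁} := hQ₁.preimage continuous_fst
  have hpos : ∀ A' : Set ((ℝ × ℝ) × ℝ × ℂ), IsCompact A' → (∀ m ∈ A', m.2.2 ≠ 0) →
      ∃ δ : ℝ, 0 < δ ∧ ∀ m ∈ A', δ ≤ ‖m.2.2‖ := by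
    intro A' hA' h
    exact hA'.exists_forall_le' (f := fun m : (ℝ × ℝ) × ℝ × ℂ => ‖m.2.2‖) (by fun_prop)
      (fun m hm => norm_pos_iff.2 (h m hm))
  obtain ⟨δ₁, hδ₁, hδ₁'⟩ := hpos _ (hA.inter_right hcl1) (by
    rintro ⟨q, y, v⟩ ⟨⟨hm1, hm2⟩, hm3⟩ hv
    rw [hM] at hm1
    simp only at hm2 hm3 hv
    rw [hv, mul_zero] at hm2
    exact hm3 (hm q hm1.1 y hm1.2.1 hm2))
  obtain ⟨δ₂, hδ₂, hδ₂'⟩ := hpos _ (hA.inter_right hcl2) (by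
    rintro ⟨q, y, v⟩ ⟨⟨hm1, hm2⟩, hm3⟩ hv
    rw [hM] at hm1
    simp only at hm2 hv
    rw [hv, mul_zero] at hm2
    exact hm₁ q hm3 y hm1.2.1 hm2)
  -- the regular value
  obtain ⟨v₀, hv0, hv1, hv2⟩ := gp_sard (D := D) (v := fun q => (g (F q)).1)
    (fun q hq => (hvs q hq).differentiableAt (by simp)) (ε := min ε (min (1 / 2) (min δ₁ δ₂)))
    (lt_min hε (lt_min (by norm_num) (lt_min hδ₁ hδ₂)))
  rw [lt_min_iff, lt_min_iff, lt_min_iff] at hv1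
  obtain ⟨hvε, hvh, hv3, hv4⟩ := hv1
  have hmemM : ∀ q ∈ Q, ∀ y ∈ Icc z₀ z₁, ((q, y, v₀) : (ℝ × ℝ) × ℝ × ℂ) ∈ M := by
    intro q hq y hy
    rw [hM]
    exact ⟨hq, hy, mem_closedBall_zero_iff.2 hvh.le⟩
  have hkey : ∀ q ∈ Q, ∀ y ∈ Icc z₀ z₁, F q = κ (y, (χ y : ℂ) * v₀) → w₀ < y ∧ y < w₁ := by
    intro q hq y hy he
    by_contra hn
    exact absurd (hδ₁' (q, y, v₀) ⟨⟨hmemM q hq y hy, he⟩, hn⟩) (not_le.2 hv3)
  have hkey2 : ∀ q ∈ Q₁, ∀ y ∈ Icc z₀ z₁, F q ≠ κ (y, (χ y : ℂ) * v₀) := by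
    intro q hq y hy he
    exact absurd (hδ₂' (q, y, v₀) ⟨⟨hmemM q (hQ₁Q hq) y hy, he⟩, hq⟩) (not_le.2 hv4)
  have hdata : ∀ q ∈ Q, ∀ y ∈ Icc z₀ z₁, F q = κ (y, (χ y : ℂ) * v₀) →
      q ∈ D ∧ (g (F q)).2 = y ∧ (g (F q)).1 = v₀ := by
    intro q hq y hy he
    obtain ⟨hy1, hy2⟩ := hkey q hq y hy he
    rw [hχw y ⟨hy1.le, hy2.le⟩, Complex.ofReal_one, one_mul] at he
    have hmem : ((v₀, y) : E) ∈ O := by
      rw [hO]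
      exact ⟨by show ‖v₀‖ < 1; linarith, by show a < y; linarith [hy.1], by show y < a + 1; linarith [hy.2]⟩
    have h1 : g (F q) = (v₀, y) := by rw [he]; exact hg (v₀, y) hmem
    refine ⟨?_, by rw [h1], by rw [h1]⟩
    rw [hD]
    exact ⟨hQU hq, (v₀, y), hmem, he.symm⟩
  refine ⟨v₀, hv0, hvε, ?_, hkey2, ?_⟩
  · -- finiteness
    by_contra hinf
    have hinf' : {q | q ∈ Q ∧ ∃ y ∈ Icc z₀ z₁, F q = κ (y, (χ y : ℂ) * v₀)}.Infinite := hinf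
    have hcomp : IsCompact {q | q ∈ Q ∧ ∃ y ∈ Icc z₀ z₁, F q = κ (y, (χ y : ℂ) * v₀)} := by
      have h1 : IsCompact ({m : (ℝ × ℝ) × ℝ × ℂ | m ∈ M ∧ F m.1 = κ (m.2.1, (χ m.2.1 : ℂ) * m.2.2)} ∩
          {m : (ℝ × ℝ) × ℝ × ℂ | m.2.2 = v₀}) :=
        hA.inter_right (isClosed_eq (by fun_prop) continuous_const)
      have h2 := h1.image (f := fun m : (ℝ × ℝ) × ℝ × ℂ => m.1) continuous_fst
      have h3 : (fun m : (ℝ × ℝ) × ℝ × ℂ => m.1) '' ({m : (ℝ × ℝ) × ℝ × ℂ | m ∈ M ∧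
          F m.1 = κ (m.2.1, (χ m.2.1 : ℂ) * m.2.2)} ∩ {m : (ℝ × ℝ) × ℝ × ℂ | m.2.2 = v₀}) =
          {q | q ∈ Q ∧ ∃ y ∈ Icc z₀ z₁, F q = κ (y, (χ y : ℂ) * v₀)} := by
        ext q
        constructor
        · rintro ⟨⟨q', y, v⟩, ⟨⟨hm1, hm2⟩, hm3⟩, rfl⟩
          have hm4 : v = v₀ := hm3
          rw [hm4] at hm2
          rw [hM] at hm1
          exact ⟨hm1.1, y, hm1.2.1, hm2⟩
        · rintro ⟨hq, y, hy, he⟩
          exact ⟨(q, y, v₀), ⟨⟨hmemM q hq y hy, he⟩, rfl⟩, rfl⟩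
      rw [h3] at h2
      exact h2
    obtain ⟨q, ⟨hq, y, hy, he⟩, hacc⟩ := hinf'.exists_accPt_of_subset_isCompact hcomp Subset.rfl
    obtain ⟨hqD, -, hqv⟩ := hdata q hq y hy he
    have hb := hv2 q hqD hqv
    have h1 := gp_iso ((hvs q hqD).differentiableAt (by simp)) hb v₀
    rw [accPt_iff_frequently_nhdsNE] at hacc
    apply hacc
    filter_upwards [h1] with q' hq' hmem
    obtain ⟨hq'Q, y', hy', he'⟩ := hmem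
    exact hq' (hdata q' hq'Q y' hy' he').2.2
  · intro q hq y hy he
    obtain ⟨hy1, hy2⟩ := hkey q hq y hy he
    obtain ⟨hqD, hql, hqv⟩ := hdata q hq y hy he
    refine ⟨hy1, hy2, fun q => (g (F q)).2, fun q => (g (F q)).1, hls q hqD, hvs q hqD, ?_, hql, hqv, hv2 q hqD hqv⟩
    filter_upwards [hDo.mem_nhds hqD] with q' hq'
    exact hFD q' hq'

end

/-- **Tilt.** -/
theorem gp_tilt {Z : Set (ℝ × ℝ)} (hZ : Z.Finite) {B : Set ℝ} (hB : B.Finite) {c₀ : ℝ} (hc₀ : 0 < c₀) :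
    ∃ c : ℝ, 0 < c ∧ c < c₀ ∧ c ∉ B ∧ InjOn (fun q : ℝ × ℝ => q.1 + c * q.2) Z := by
  have h1 : ((fun m : (ℝ × ℝ) × ℝ × ℝ => (m.2.1 - m.1.1) / (m.1.2 - m.2.2)) '' (Z ×ˢ Z)).Finite :=
    (hZ.prod hZ).image _
  have h2 : ¬ Ioo 0 c₀ ⊆ (fun m : (ℝ × ℝ) × ℝ × ℝ => (m.2.1 - m.1.1) / (m.1.2 - m.2.2)) '' (Z ×ˢ Z) ∪ B := by
    intro h
    exact (Ioo_infinite hc₀) ((h1.union hB).subset h)
  rw [not_subset] at h2
  obtain ⟨c, ⟨hc0, hc1⟩, hc⟩ := h2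
  refine ⟨c, hc0, hc1, fun h => hc (Or.inr h), ?_⟩
  rintro ⟨s, x⟩ hq ⟨s', x'⟩ hq' he
  simp only at he
  by_cases hx : x = x'
  · rw [hx] at he ⊢
    rw [Prod.mk.injEq]
    exact ⟨by linarith, rfl⟩
  · exfalso
    apply hc
    left
    refine ⟨((s, x), (s', x')), ⟨hq, hq'⟩, ?_⟩
    show (s' - s) / (x - x') = c
    rw [div_eq_iff (sub_ne_zero.2 hx)]
    linarith

end Pool.Agent.NHH
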