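import Mathlib
import Pool.Agent.NHH.Defs
import Pool.Agent.NHH.Gp
import Pool.Agent.NHQ.Shr
import Pool.Agent.NHQ.Thk
import Pool.Agent.NHP.Tra

/-!
# NHH/Gpa: a push which shifts an arc of the knot (difficulty 3)

`exists_rho` (NHQ/Thk) or the tube lemma: `ρ ∈ (0, 1)` with `κ (l, v) ∉ A` for `l ∈ [z₀, z₁]`, `‖v‖ < ρ`.  `ε = ρ`.  Let `v₀ = r e`, `r = ‖v₀‖ < ρ`, `‖e‖ = 1` (`v₀ = 0`: `push_refl`).
Chart `β (w, t) = κ (re w, e (t + i im w))` on `O = {z₀ < re w < z₁, ‖t + i im w‖ < ρ}` (`Thick.loc` composed with a linear isomorphism; injective since `z₁ - z₀ < 1`).  `vshear` with this `O`, `P = ∅`, `a w = r χ (re w)`, `S = {(l, 0) | l ∈ [z₀', z₁']}`: `‖s r χ‖ ≤ r < ρ`.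
`V 1 (l, 0) = (l, r χ l)` for `l ∈ (z₀, z₁)` (`l ∈ [z₀', z₁']` or `χ l = 0`).  Transport by `push_chart`: `V' 1 (κ (l, 0)) = κ (l, e r χ l) = κ (l, χ l v₀)`; for `l = z₀, z₁`: `χ l = 0`, the point is not in `β '' O` (or use `push_chart`, third part).
`β '' O ⊆ κ '' {z₀ < l < z₁, ‖v‖ < 1} \ A`.
-/

open scoped Manifold ContDiff Topology
open Set Filter
open Pool.Agent.CSG (stp)
open Pool.Agent.RSG (E3 ex Thick)
open Pool.Agent.KNT (bmp)
open Pool.Agent.NHP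
open Pool.Agent.NHQ (Crv Mv fing)

namespace Pool.Agent.NHH

variable {N : Type*} [TopologicalSpace N] [ChartedSpace E3 N] [IsManifold (𝓡 3) ∞ N] [T2Space N]

theorem gpa_bij {f f' : E → E} (hf : ContDiff ℝ ∞ f) (hf' : ContDiff ℝ ∞ f') (h1 : ∀ q, f' (f q) = q)
    (h2 : ∀ q, f (f' q) = q) (q : E) : Function.Bijective (fderiv ℝ f q) := by
  have d1 : DifferentiableAt ℝ f q := hf.contDiffAt.differentiableAt (by norm_num)
  have d2 : DifferentiableAt ℝ f' (f q) := hf'.contDiffAt.differentiableAt (by norm_num)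
  have e1 : (fderiv ℝ f' (f q)).comp (fderiv ℝ f q) = ContinuousLinearMap.id ℝ E := by
    have k1 := d2.hasFDerivAt.comp q d1.hasFDerivAt
    have k2 : HasFDerivAt (f' ∘ f) (ContinuousLinearMap.id ℝ E) q := by
      have : f' ∘ f = id := funext h1
      rw [this]
      exact hasFDerivAt_id q
    exact k1.unique k2
  have d3 : DifferentiableAt ℝ f (f' (f q)) := by rw [h1]; exact d1
  have e2 : (fderiv ℝ f q).comp (fderiv ℝ f' (f q)) = ContinuousLinearMap.id ℝ E := by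
    have k1 := d3.hasFDerivAt.comp (f q) d2.hasFDerivAt
    rw [h1] at k1
    have k2 : HasFDerivAt (f ∘ f') (ContinuousLinearMap.id ℝ E) (f q) := by
      have : f ∘ f' = id := funext h2
      rw [this]
      exact hasFDerivAt_id (f q)
    exact k1.unique k2
  constructor
  · intro v w hvw
    have k1 := congrArg (fun L : E →L[ℝ] E => L v) e1
    have k2 := congrArg (fun L : E →L[ℝ] E => L w) e1
    have k1' : fderiv ℝ f' (f q) (fderiv ℝ f q v) = v := k1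
    have k2' : fderiv ℝ f' (f q) (fderiv ℝ f q w) = w := k2
    rw [← k1', ← k2', hvw]
  · intro v
    have k1 := congrArg (fun L : E →L[ℝ] E => L v) e2
    exact ⟨fderiv ℝ f' (f q) v, k1⟩

/-- the linear chart -/
noncomputable def gpa_f (e : ℂ) (q : E) : E := (e * (⟨q.2, q.1.im⟩ : ℂ), q.1.re)

/-- its inverse -/
noncomputable def gpa_g (e : ℂ) (q : E) : E := ((⟨q.2, (e⁻¹ * q.1).im⟩ : ℂ), (e⁻¹ * q.1).re)

theorem gpa_mk {F : Type*} [NormedAddCommGroup F] [NormedSpace ℝ F] {a b : F → ℝ} (ha : ContDiff ℝ ∞ a)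
    (hb : ContDiff ℝ ∞ b) : ContDiff ℝ ∞ fun q : F => (⟨a q, b q⟩ : ℂ) := by
  have h3 : ContDiff ℝ ∞ fun q : F => Complex.equivRealProdCLM.symm (a q, b q) :=
    Complex.equivRealProdCLM.symm.contDiff.comp (ha.prodMk hb)
  have h4 : (fun q : F => (⟨a q, b q⟩ : ℂ)) = fun q : F => Complex.equivRealProdCLM.symm (a q, b q) := by
    funext q
    apply Complex.ext <;> simp [Complex.equivRealProdCLM_symm_apply]
  rw [h4]
  exact h3

theorem gpa_f_smooth (e : ℂ) : ContDiff ℝ ∞ (gpa_f e) := by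
  have him : ContDiff ℝ ∞ fun q : E => q.1.im := Complex.imCLM.contDiff.comp contDiff_fst
  have hre : ContDiff ℝ ∞ fun q : E => q.1.re := Complex.reCLM.contDiff.comp contDiff_fst
  exact (contDiff_const.mul (gpa_mk contDiff_snd him)).prodMk hre

theorem gpa_g_smooth (e : ℂ) : ContDiff ℝ ∞ (gpa_g e) := by
  have h0 : ContDiff ℝ ∞ fun q : E => e⁻¹ * q.1 := contDiff_const.mul contDiff_fst
  have him : ContDiff ℝ ∞ fun q : E => (e⁻¹ * q.1).im := Complex.imCLM.contDiff.comp h0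
  have hre : ContDiff ℝ ∞ fun q : E => (e⁻¹ * q.1).re := Complex.reCLM.contDiff.comp h0
  exact (gpa_mk contDiff_snd him).prodMk hre

theorem gpa_gf {e : ℂ} (he : e ≠ 0) (q : E) : gpa_g e (gpa_f e q) = q := by
  unfold gpa_g gpa_f
  refine Prod.ext ?_ ?_
  · apply Complex.ext
    · rfl
    · show (e⁻¹ * (e * (⟨q.2, q.1.im⟩ : ℂ))).im = q.1.im
      rw [inv_mul_cancel_left₀ he]
  · show (e⁻¹ * (e * (⟨q.2, q.1.im⟩ : ℂ))).re = q.2
    rw [inv_mul_cancel_left₀ he]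

theorem gpa_fg {e : ℂ} (he : e ≠ 0) (q : E) : gpa_f e (gpa_g e q) = q := by
  unfold gpa_g gpa_f
  refine Prod.ext ?_ rfl
  show e * (⟨(e⁻¹ * q.1).re, (e⁻¹ * q.1).im⟩ : ℂ) = q.1
  have h1 : (⟨(e⁻¹ * q.1).re, (e⁻¹ * q.1).im⟩ : ℂ) = e⁻¹ * q.1 := rfl
  rw [h1, mul_inv_cancel_left₀ he]

theorem gpa_int {x : ℝ} {m : ℤ} (h0 : 0 < x) (h1 : x < 1) (h : x = m) : False := by
  rw [h] at h0 h1
  have h2 : (0 : ℤ) < m := by exact_mod_cast h0
  have h3 : m < (1 : ℤ) := by exact_mod_cast h1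
  omega

theorem gp_push {κ : ℝ × ℂ → N} (hκ : Thick κ) {z₀ z₀' z₁' z₁ : ℝ} (h0 : z₀ < z₀') (h1 : z₀' < z₁') (h2 : z₁' < z₁)
    (h3 : z₁ < z₀ + 1) {A : Set N} (hA : IsClosed A) (hAd : ∀ l ∈ Icc z₀ z₁, κ (l, 0) ∉ A) {χ : ℝ → ℝ} (hχ : ContDiff ℝ ∞ χ)
    (hχ0 : ∀ y, 0 ≤ χ y) (hχ1 : ∀ y, χ y ≤ 1) (hχs : ∀ y, y ≤ z₀' ∨ z₁' ≤ y → χ y = 0) :
    ∃ ε : ℝ, 0 < ε ∧ ε ≤ 1 ∧ ∀ v₀ : ℂ, ‖v₀‖ < ε → ∃ V : ℝ → Equiv.Perm N,
      Push (κ '' {q | q.1 ∈ Ioo z₀ z₁ ∧ ‖q.2‖ < 1} \ A) V ∧ ∀ l ∈ Icc z₀ z₁, V 1 (κ (l, 0)) = κ (l, (χ l : ℂ) * v₀) := by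
  have hcore : IsCompact ((fun l : ℝ => κ (l, 0)) '' Icc z₀ z₁) := isCompact_Icc.image (NHQ.thick_core hκ)
  obtain ⟨ρ, hρ, hρ1, hρA⟩ := NHQ.exists_rho hκ (U := Aᶜ) hcore.isClosed hA.isOpen_compl (by
    rintro l ⟨l', hl', he⟩
    rw [← he]
    exact hAd l' hl')
  refine ⟨ρ, hρ, hρ1, fun v₀ hv₀ => ?_⟩
  by_cases hv0 : v₀ = 0
  · exact ⟨_, push_refl _, fun l _ => by rw [hv0, mul_zero]; rfl⟩
  obtain ⟨r, hr_def⟩ : ∃ r : ℝ, r = ‖v₀‖ := ⟨_, rfl⟩
  have hr : 0 < r := by rw [hr_def]; exact norm_pos_iff.2 hv0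
  have hrρ : r < ρ := by rw [hr_def]; exact hv₀
  have hrc : (r : ℂ) ≠ 0 := Complex.ofReal_ne_zero.2 hr.ne'
  obtain ⟨e, he_def⟩ : ∃ e : ℂ, e = v₀ / (r : ℂ) := ⟨_, rfl⟩
  have he0 : e ≠ 0 := by rw [he_def]; exact div_ne_zero hv0 hrc
  have her : e * (r : ℂ) = v₀ := by rw [he_def, div_mul_cancel₀ _ hrc]
  have hen : ‖e‖ = 1 := by
    rw [he_def, norm_div, Complex.norm_real, Real.norm_eq_abs, abs_of_pos hr, ← hr_def, div_self hr.ne']
  obtain ⟨O, hO_def⟩ : ∃ O : Set E, O = {q : E | ‖(⟨q.2, q.1.im⟩ : ℂ)‖ < ρ ∧ z₀ < q.1.re ∧ q.1.re < z₁} := ⟨_, rfl⟩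
  have him : ContDiff ℝ ∞ fun q : E => q.1.im := Complex.imCLM.contDiff.comp contDiff_fst
  have hre : ContDiff ℝ ∞ fun q : E => q.1.re := Complex.reCLM.contDiff.comp contDiff_fst
  have hOo : IsOpen O := by
    rw [hO_def]
    exact (isOpen_lt (gpa_mk contDiff_snd him).continuous.norm continuous_const).inter
      ((isOpen_lt continuous_const hre.continuous).inter (isOpen_lt hre.continuous continuous_const))
  have hβ : Cht O fun q : E => κ (q.1.re, e * (⟨q.2, q.1.im⟩ : ℂ)) := by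
    refine (gp_cht hκ z₀).comp (f := gpa_f e) hOo (fun q _ => (gpa_f_smooth e).contDiffAt)
      (fun q _ => gpa_bij (gpa_f_smooth e) (gpa_g_smooth e) (gpa_gf he0) (gpa_fg he0) q)
      (Function.LeftInverse.injective (gpa_gf he0)).injOn ?_
    intro q hq
    rw [hO_def] at hq
    obtain ⟨a1, a2, a3⟩ := hq
    refine ⟨?_, a2, ?_⟩
    · show ‖e * (⟨q.2, q.1.im⟩ : ℂ)‖ < 1
      rw [norm_mul, hen, one_mul]
      linarith
    · show q.1.re < z₀ + 1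
      linarith
  have ha : ContDiff ℝ ∞ fun w : ℂ => r * χ w.re := contDiff_const.mul (hχ.comp Complex.reCLM.contDiff)
  have hmkn : ∀ x : ℝ, ‖(⟨x, 0⟩ : ℂ)‖ = |x| := by
    intro x
    have : (⟨x, 0⟩ : ℂ) = (x : ℂ) := rfl
    rw [this, Complex.norm_real, Real.norm_eq_abs]
  obtain ⟨V, hV, hVf, -⟩ := NHQ.vshear hOo (P := ∅) isClosed_empty ha
    (S := (fun l : ℝ => (((l : ℝ) : ℂ), (0 : ℝ))) '' Icc z₀' z₁')
    (isCompact_Icc.image (by fun_prop)) (by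
      rintro _ ⟨l, hl, rfl⟩ t ht
      refine ⟨?_, notMem_empty _⟩
      rw [hO_def]
      refine ⟨?_, ?_, ?_⟩
      · show ‖(⟨0 + t * (r * χ (l : ℂ).re), (l : ℂ).im⟩ : ℂ)‖ < ρ
        rw [Complex.ofReal_im, Complex.ofReal_re, hmkn, zero_add]
        have b1 := hχ0 l
        have b2 := hχ1 l
        have b3 : 0 ≤ t * (r * χ l) := mul_nonneg ht.1 (mul_nonneg hr.le b1)
        rw [abs_of_nonneg b3]
        have b4 : t * (r * χ l) ≤ 1 * (r * 1) :=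
          mul_le_mul ht.2 (mul_le_mul_of_nonneg_left b2 hr.le) (mul_nonneg hr.le b1) zero_le_one
        linarith
      · show z₀ < (l : ℂ).re
        rw [Complex.ofReal_re]
        linarith [hl.1]
      · show (l : ℂ).re < z₁
        rw [Complex.ofReal_re]
        linarith [hl.2])
  rw [sdiff_empty] at hV
  obtain ⟨V', hV', hV1, hV2⟩ := push_chart hβ hV
  refine ⟨V', hV'.mono ?_, ?_⟩
  · rintro _ ⟨q, hq, rfl⟩
    rw [hO_def] at hq
    obtain ⟨a1, a2, a3⟩ := hq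
    have hn : ‖e * (⟨q.2, q.1.im⟩ : ℂ)‖ < ρ := by
      rw [norm_mul, hen, one_mul]
      exact a1
    refine ⟨⟨(q.1.re, e * (⟨q.2, q.1.im⟩ : ℂ)), ⟨⟨a2, a3⟩, lt_of_lt_of_le hn hρ1⟩, rfl⟩, ?_⟩
    exact hρA _ _ ⟨q.1.re, ⟨a2.le, a3.le⟩, rfl⟩ hn
  · intro l hl
    by_cases hl' : z₀ < l ∧ l < z₁
    · have hqO : (((l : ℝ) : ℂ), (0 : ℝ)) ∈ O := by
        rw [hO_def]
        refine ⟨?_, ?_, ?_⟩
        · show ‖(⟨0, (l : ℂ).im⟩ : ℂ)‖ < ρ
          rw [Complex.ofReal_im, hmkn, abs_zero]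
          exact hρ
        · show z₀ < (l : ℂ).re
          rw [Complex.ofReal_re]
          exact hl'.1
        · show (l : ℂ).re < z₁
          rw [Complex.ofReal_re]
          exact hl'.2
      have h5 := hV1 1 _ hqO
      have h6 : V 1 (((l : ℝ) : ℂ), (0 : ℝ)) = (((l : ℝ) : ℂ), r * χ l) := by
        rw [hVf]
        · rw [CSG.stp_one (by norm_num) le_rfl]
          refine Prod.ext rfl ?_
          show 0 + 1 * (r * χ (l : ℂ).re) = r * χ l
          rw [Complex.ofReal_re]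
          ring
        · by_cases h7 : z₀' ≤ l ∧ l ≤ z₁'
          · exact Or.inl ⟨l, h7, rfl⟩
          · right
            show r * χ (l : ℂ).re = 0
            rw [Complex.ofReal_re, hχs l, mul_zero]
            by_contra h8
            push Not at h8
            exact h7 ⟨h8.1.le, h8.2.le⟩
      rw [h6] at h5
      have h7 : κ (l, 0) = κ (((((l : ℝ) : ℂ), (0 : ℝ)) : E).1.re, e * (⟨((((l : ℝ) : ℂ), (0 : ℝ)) : E).2,
          ((((l : ℝ) : ℂ), (0 : ℝ)) : E).1.im⟩ : ℂ)) := by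
        show κ (l, 0) = κ ((l : ℂ).re, e * (⟨0, (l : ℂ).im⟩ : ℂ))
        rw [Complex.ofReal_re, Complex.ofReal_im]
        have : (⟨0, 0⟩ : ℂ) = 0 := rfl
        rw [this, mul_zero]
      rw [h7, h5]
      show κ ((l : ℂ).re, e * (⟨r * χ l, (l : ℂ).im⟩ : ℂ)) = κ (l, (χ l : ℂ) * v₀)
      rw [Complex.ofReal_re, Complex.ofReal_im]
      have : (⟨r * χ l, 0⟩ : ℂ) = ((r * χ l : ℝ) : ℂ) := rfl
      rw [this, Complex.ofReal_mul, ← mul_assoc, her, mul_comm]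
    · have hχl : χ l = 0 := by
        apply hχs
        by_contra h8
        push Not at h8
        exact hl' ⟨by linarith [h8.1], by linarith [h8.2]⟩
      rw [hχl, Complex.ofReal_zero, zero_mul]
      apply hV2
      rintro ⟨q, hq, he⟩
      rw [hO_def] at hq
      obtain ⟨a1, a2, a3⟩ := hq
      have hn : ‖e * (⟨q.2, q.1.im⟩ : ℂ)‖ < 1 := by
        rw [norm_mul, hen, one_mul]
        linarith
      obtain ⟨-, m, hm⟩ := hκ.inj l 0 q.1.re (e * (⟨q.2, q.1.im⟩ : ℂ)) (by simp) hn he.symm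
      by_cases h9 : z₀ < l
      · have h10 : z₁ ≤ l := by
          by_contra h11
          exact hl' ⟨h9, not_le.1 h11⟩
        have h12 : l = z₁ := le_antisymm hl.2 h10
        refine gpa_int (x := l - q.1.re) (m := -m) (by linarith) (by linarith) ?_
        push_cast
        linarith
      · have h12 : l = z₀ := le_antisymm (not_lt.1 h9) hl.1
        refine gpa_int (x := q.1.re - l) (m := m) (by linarith) (by linarith) ?_
        linarith

end Pool.Agent.NHH
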