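import Mathlib
import Pool.Agent.NHH.Gpa
import Pool.Agent.CSG.LDb

/-!
# NHH/Gpb: general position: all crossings are transversal and finitely many (difficulty 4)

`κ` thick with `κ (l, 0) = k l`, `k 0 = x`.  `C` = compact support of `W`, `C ⊆ {k 0, k b}ᶜ`, `W s y = y` for `y ∉ C`, `W s '' C = C`.  `Z = {z ∈ [0, b] | k z ∈ C}` is compact, `0, b ∉ Z`: choose `0 < z₀ < z₀' < w₀ < w₁ < z₁' < z₁ < b` with `Z ⊆ (w₀, w₁)`.
FACT (F): if `s ∈ ℝ`, `y ∈ [b, 1]`, `z ∈ [0, b]`, `W s (k y) = k z`, then `k z ∈ C` (so `z ∈ Z`) or `{y, z}` is `{b, b}` or `{1, 0}`: if `k z ∉ C` then `k y ∉ C`, `k y = k z`, `y = z + n` (`Thick.inj`).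
`χ` smooth, `0 ≤ χ ≤ 1`, `χ = 1` on `[w₀, w₁]`, `χ = 0` for `y ≤ z₀'` or `z₁' ≤ y` (`stp`).  `A = k '' [b, 1] ∪ W 1 '' (k '' [b, 1])`, compact; `k l ∉ A` for `l ∈ [z₀, z₁]` (`Thick.inj`; `Free 1`, and `W 1 (k b) = k b`, `W 1 (k 1) = k 0`).  `gp_push`: `ε`.
`gp_arc` with `F (s, y) = W s (k y)`, `U = univ` (`F` is smooth: `W` is smooth in `(s, y)`, `k` is smooth), `Q = [0, 1] × [b, 1]`, `Q₁ = {0, 1} × [b, 1]`: `hm`: (F) with `z ∈ [z₀, z₁] ⊆ (0, b)`; `hm₁`: time `0`: `W 0 = id`, `k y ≠ k z`; time `1`: `Free 1` and the ends.  It gives `v₀`, `‖v₀‖ < ε`; `gp_push` gives `V`.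
`k̂ = V 1 ∘ k`: `Mv x k k̂` (`k 0, k b ∉` support: `Thick.inj`), so `Crv x o k̂` (`Crv.mv`); `k̂ z = κ (z, χ z v₀)` for `z ∈ [z₀, z₁]`, `k̂ z = k z` for the other `z ∈ [0, 1]`, in particular on `[b, 1]`, at `0` and `b`.  `Frm b k̂ W`.
CROSSINGS of `k̂`: `s ∈ [0, 1]`, `y ∈ (b, 1)`, `W s (k y) = k̂ z`, `z ∈ [0, b]`.  If `z ∉ [z₀, z₁]`: `k̂ z = k z`, (F) gives `z ∈ Z ⊆ (w₀, w₁)`, contradiction.  So `z ∈ [z₀, z₁]` and `(s, y)` is in the finite set of `gp_arc`; none for `s = 0, 1` (`Free 0`, `Free 1`).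
TRANSVERSALITY: `gp_arc` gives `l, v` smooth at `q = (s, y)`, `F = κ (l, v)` near `q`, `l q = z ∈ (w₀, w₁)`, `v q = v₀`, `fderiv ℝ v q` bijective.  `G (w, τ) = κ (l (s + τ, y + re w) + im w, v (s + τ, y + re w))`: the inner map is smooth near `0` with injective derivative
(`(w, τ) ↦ (Dl (τ, re w) + im w, Dv (τ, re w))`), so `G` is a local diffeomorphism at `0` (`CSG.ld_of_fderiv`, `Thick.loc` at `(z, v₀)`, `‖v₀‖ < 1`), hence near `0` and injective near `0` (`CSG.ld_eventually`, `CSG.ld_injOn`): `Cht (Bxx ρ) G` for small `ρ`.  `mov`: `G (u, τ) = F (s + τ, y + u)` and `k̂ = k` on `[b, 1]`.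
`fix`: `G (⟨0, t⟩, 0) = κ (z + t, v₀) = k̂ (z + t)` since `χ = 1` near `z`.
`Mv x (kc b k W 1) (kc b k̂ W 1)`: the push `V`: `f = fract l ≤ b`: `V 1 (k l) = k̂ l`; `f > b`: `W 1 (k̂ l) = W 1 (k l)`, and `V 1` fixes `W 1 (k l) ∈ A`.
-/

open scoped Manifold ContDiff Topology
open Set Filter
open Pool.Agent.CSG (stp)
open Pool.Agent.RSG (E3 ex Thick)
open Pool.Agent.KNT (bmp)
open Pool.Agent.NHP
open Pool.Agent.NHQ (Crv Mv fing)

namespace Pool.Agent.NHH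

open CategoryTheory

variable {N : Type*} [TopologicalSpace N] [ChartedSpace E3 N] [IsManifold (𝓡 3) ∞ N] [T2Space N]

theorem gpb_bxx (ρ : ℝ) : IsOpen (Bxx ρ) := by
  have e1 : IsOpen {q : E | |q.1.re| < ρ} :=
    isOpen_lt ((Complex.continuous_re.comp continuous_fst).abs) continuous_const
  have e2 : IsOpen {q : E | |q.1.im| < ρ} :=
    isOpen_lt ((Complex.continuous_im.comp continuous_fst).abs) continuous_const
  have e3 : IsOpen {q : E | |q.2| < ρ} := isOpen_lt (continuous_snd.abs) continuous_const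
  exact e1.inter (e2.inter e3)

theorem gpb_ball {r : ℝ} {ρ : ℝ} (h : 2 * ρ ≤ r) {q : E} (hq : q ∈ Bxx ρ) : q ∈ Metric.ball (0 : E) r := by
  obtain ⟨w, t⟩ := q
  obtain ⟨h1, h2, h3⟩ := hq
  simp only at h1 h2 h3
  rw [Metric.mem_ball, dist_zero_right, Prod.norm_def]
  have h4 := abs_nonneg t
  refine max_lt ?_ ?_
  · have := Complex.norm_le_abs_re_add_abs_im w
    show ‖w‖ < r
    linarith
  · show ‖t‖ < r
    rw [Real.norm_eq_abs]
    linarith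

omit [IsManifold (𝓡 3) ∞ N] [T2Space N] in
/-- the functions `l`, `v` of `gp_arc` are smooth near the point -/
theorem gpb_near {κ : ℝ × ℂ → N} (hκ : Thick κ) {F : ℝ × ℝ → N} (hF : ContMDiff 𝓘(ℝ, ℝ × ℝ) (𝓡 3) ∞ F) {q : ℝ × ℝ}
    {l : ℝ × ℝ → ℝ} {v : ℝ × ℝ → ℂ} (hl : ContDiffAt ℝ ∞ l q) (hv : ContDiffAt ℝ ∞ v q)
    (he : ∀ᶠ q' in 𝓝 q, F q' = κ (l q', v q')) (hv1 : ‖v q‖ < 1) :
    ∀ᶠ q' in 𝓝 q, ContDiffAt ℝ ∞ l q' ∧ ContDiffAt ℝ ∞ v q' := by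
  have hC := gp_cht hκ (l q - 1 / 2)
  obtain ⟨g, hg, hgs⟩ := hC.inv
  obtain ⟨O, hO⟩ : ∃ O : Set E, O = {p : E | ‖p.1‖ < 1 ∧ l q - 1 / 2 < p.2 ∧ p.2 < l q - 1 / 2 + 1} := ⟨_, rfl⟩
  have hOo : IsOpen O := by rw [hO]; exact hC.opn
  have hq : (v q, l q) ∈ O := by
    rw [hO]
    exact ⟨hv1, by show l q - 1 / 2 < l q; linarith, by show l q < l q - 1 / 2 + 1; linarith⟩
  rw [← hO] at hg hgs
  have h1 : ∀ᶠ q' in 𝓝 q, (v q', l q') ∈ O :=
    (hv.continuousAt.prodMk hl.continuousAt).eventually (hOo.mem_nhds hq)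
  filter_upwards [(he.and h1).eventually_nhds] with q' hq'
  have h2 : (fun p => g (F p)) =ᶠ[𝓝 q'] fun p => (v p, l p) := by
    filter_upwards [hq'] with p hp
    have := hg _ hp.2
    rw [hp.1]
    exact this
  have h3 := hq'.self_of_nhds
  have h4 : F q' ∈ (fun q : E => κ (q.2, q.1)) '' O := ⟨(v q', l q'), h3.2, h3.1.symm⟩
  have h5 : ContMDiffAt 𝓘(ℝ, ℝ × ℝ) 𝓘(ℝ, ℂ × ℝ) ∞ (fun p => g (F p)) q' := (hgs _ h4).comp q' (hF q')
  have h6 : ContDiffAt ℝ ∞ (fun p => (v p, l p)) q' := h5.contDiffAt.congr_of_eventuallyEq h2.symm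
  exact ⟨contDiffAt_snd.comp q' h6, contDiffAt_fst.comp q' h6⟩

/-- the map of the crossing is a local diffeomorphism -/
theorem gpb_ld {q : ℝ × ℝ} {l : ℝ × ℝ → ℝ} {v : ℝ × ℝ → ℂ}
    (hs : ∀ᶠ q' in 𝓝 q, ContDiffAt ℝ ∞ l q' ∧ ContDiffAt ℝ ∞ v q') (hb : Function.Bijective (fderiv ℝ v q)) :
    IsLocalDiffeomorphAt 𝓘(ℝ, ℂ × ℝ) 𝓘(ℝ, ℝ × ℂ) ∞
      (fun p : ℂ × ℝ => (l (q.1 + p.2, q.2 + p.1.re) + p.1.im, v (q.1 + p.2, q.2 + p.1.re))) 0 := by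
  have hAs : ContDiff ℝ ∞ (fun p : ℂ × ℝ => (q.1 + p.2, q.2 + p.1.re)) :=
    (contDiff_const.add contDiff_snd).prodMk (contDiff_const.add ((Complex.reCLM.contDiff).comp contDiff_fst))
  have hA0 : (fun p : ℂ × ℝ => (q.1 + p.2, q.2 + p.1.re)) 0 = q := by simp
  have him : ContDiff ℝ ∞ (fun p : ℂ × ℝ => p.1.im) := (Complex.imCLM.contDiff).comp contDiff_fst
  have hAt : Tendsto (fun p : ℂ × ℝ => (q.1 + p.2, q.2 + p.1.re)) (𝓝 0) (𝓝 q) := by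
    have h0 : ContinuousAt (fun p : ℂ × ℝ => (q.1 + p.2, q.2 + p.1.re)) 0 := hAs.continuous.continuousAt
    unfold ContinuousAt at h0
    rwa [hA0] at h0
  apply Pool.Agent.CSG.ld_of_fderiv
  · filter_upwards [hAt.eventually hs] with p hp
    exact ((hp.1.comp p hAs.contDiffAt).add him.contDiffAt).prodMk (hp.2.comp p hAs.contDiffAt)
  · rw [Module.finrank_prod, Module.finrank_prod, add_comm]
  · have hs0 := hs.self_of_nhds
    have hdl : HasFDerivAt l (fderiv ℝ l q) q := (hs0.1.differentiableAt (by simp)).hasFDerivAt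
    have hdv : HasFDerivAt v (fderiv ℝ v q) q := (hs0.2.differentiableAt (by simp)).hasFDerivAt
    have hdA : HasFDerivAt (fun p : ℂ × ℝ => (q.1 + p.2, q.2 + p.1.re))
        ((ContinuousLinearMap.snd ℝ ℂ ℝ).prod (Complex.reCLM.comp (ContinuousLinearMap.fst ℝ ℂ ℝ))) 0 :=
      (((ContinuousLinearMap.snd ℝ ℂ ℝ).hasFDerivAt).const_add q.1).prodMk
        (((Complex.reCLM.comp (ContinuousLinearMap.fst ℝ ℂ ℝ)).hasFDerivAt).const_add q.2)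
    have hdi : HasFDerivAt (fun p : ℂ × ℝ => p.1.im) (Complex.imCLM.comp (ContinuousLinearMap.fst ℝ ℂ ℝ)) 0 :=
      (Complex.imCLM.comp (ContinuousLinearMap.fst ℝ ℂ ℝ)).hasFDerivAt
    have hdl' : HasFDerivAt l (fderiv ℝ l q) ((fun p : ℂ × ℝ => (q.1 + p.2, q.2 + p.1.re)) 0) := by rw [hA0]; exact hdl
    have hdv' : HasFDerivAt v (fderiv ℝ v q) ((fun p : ℂ × ℝ => (q.1 + p.2, q.2 + p.1.re)) 0) := by rw [hA0]; exact hdv
    have hd := ((hdl'.comp 0 hdA).add hdi).prodMk (hdv'.comp 0 hdA)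
    rintro ⟨w, τ⟩ h
    have h1 := hd.fderiv
    have h2 : (fun p : ℂ × ℝ => (l (q.1 + p.2, q.2 + p.1.re) + p.1.im, v (q.1 + p.2, q.2 + p.1.re))) =
      (fun x : ℂ × ℝ => (((l ∘ fun p : ℂ × ℝ => (q.1 + p.2, q.2 + p.1.re)) + fun p : ℂ × ℝ => p.1.im) x,
        (v ∘ fun p : ℂ × ℝ => (q.1 + p.2, q.2 + p.1.re)) x)) := rfl
    rw [h2, h1] at h
    have h3 : fderiv ℝ l q (τ, w.re) + w.im = 0 := congrArg Prod.fst h
    have h4 : fderiv ℝ v q (τ, w.re) = 0 := congrArg Prod.snd h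
    have h5 : (τ, w.re) = ((0 : ℝ), (0 : ℝ)) := by
      apply hb.1
      rw [h4]
      exact (map_zero (fderiv ℝ v q)).symm
    have h6 : τ = 0 := congrArg Prod.fst h5
    have h7 : w.re = 0 := congrArg Prod.snd h5
    have h8 : w.im = 0 := by
      rw [h6, h7] at h3
      have h9 : fderiv ℝ l q ((0 : ℝ), (0 : ℝ)) = 0 := map_zero (fderiv ℝ l q)
      rw [h9, zero_add] at h3
      exact h3
    rw [Prod.mk_eq_zero]
    exact ⟨Complex.ext h7 h8, h6⟩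

theorem exists_gp {x : N} {o : FundamentalGroupoid.mk x ⟶ FundamentalGroupoid.mk x} {b : ℝ} {k : ℝ → N} {W : ℝ → Equiv.Perm N}
    (hk : Crv x o k) (hF : Frm b k W) (h1 : Free b k W 1) :
    ∃ k' : ℝ → N, Mv x k k' ∧ Crv x o k' ∧ Frm b k' W ∧ Free b k' W 0 ∧ Free b k' W 1 ∧
      Mv x (kc b k W 1) (kc b k' W 1) ∧
      {q : ℝ × ℝ | q.1 ∈ Icc (0 : ℝ) 1 ∧ q.2 ∈ Ioo b 1 ∧ W q.1 (k' q.2) ∈ k' '' Icc 0 b}.Finite ∧
      ∀ s ∈ Icc (0 : ℝ) 1, ∀ y ∈ Ioo b 1, W s (k' y) ∈ k' '' Icc 0 b → ∃ (z ρ : ℝ) (G : E → N), Trv b k' W s y z ρ G := by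
  have hb0 := hF.pos
  have hb1 := hF.lt
  obtain ⟨κ, hκ, hκk⟩ := hk.thick
  have hkx : k 0 = x := hk.zero
  have hkc : Continuous k := hk.cont
  have hper : ∀ l, k (l + 1) = k l := by
    intro l
    rw [← hκk, ← hκk, hκ.per]
  have hinj : ∀ l l', k l = k l' → ∃ m : ℤ, l' = l + m := by
    intro l l' h
    rw [← hκk, ← hκk] at h
    exact (hκ.inj l 0 l' 0 (by simp) (by simp) h).2
  have hk1 : k 1 = k 0 := by rw [← hper 0, zero_add]
  obtain ⟨C, hCc, hCO, hCf⟩ := hF.push.supp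
  have hC0 : k 0 ∉ C := fun h1 => (hCO h1) (Or.inl rfl)
  have hCb : k b ∉ C := fun h1 => (hCO h1) (Or.inr rfl)
  have hCm : ∀ s, ∀ y ∈ C, W s y ∈ C := by
    intro s y hy
    by_contra h1
    have h2 := hCf s _ h1
    have h3 := (W s).injective h2
    exact h1 (h3.symm ▸ hy)
  -- fact (F)
  have hFF : ∀ (s : ℝ), ∀ y ∈ Icc b 1, ∀ z ∈ Icc 0 b, W s (k y) = k z → k z ∈ C ∨ (y = b ∧ z = b) ∨ (y = 1 ∧ z = 0) := by
    intro s y hy z hz he
    by_cases h2 : k z ∈ C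
    · exact Or.inl h2
    right
    have h3 : k y ∉ C := by
      intro h3
      apply h2
      rw [← he]
      exact hCm s _ h3
    rw [hCf s _ h3] at he
    obtain ⟨n, hn⟩ := hinj _ _ he
    obtain ⟨hy1, hy2⟩ := hy
    obtain ⟨hz1, hz2⟩ := hz
    have h4 : (n : ℝ) ≤ 0 := by linarith
    have h5 : (-1 : ℝ) ≤ n := by linarith
    have h6 : n ≤ 0 := by exact_mod_cast h4
    have h7 : -1 ≤ n := by exact_mod_cast h5
    have h8 : n = 0 ∨ n = -1 := by omega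
    rcases h8 with h8 | h8
    · left
      rw [h8, Int.cast_zero, add_zero] at hn
      exact ⟨by linarith, by linarith⟩
    · right
      rw [h8] at hn
      push_cast at hn
      exact ⟨by linarith, by linarith⟩
  -- the margin
  obtain ⟨r, hr, hrb, hr0, hr1⟩ : ∃ r : ℝ, 0 < r ∧ r ≤ b / 2 ∧ (∀ z, |z| < r → k z ∉ C) ∧ ∀ z, |z - b| < r → k z ∉ C := by
    have h2 : IsOpen (k ⁻¹' Cᶜ) := hCc.isClosed.isOpen_compl.preimage hkc
    obtain ⟨r1, hr1, h3⟩ := Metric.isOpen_iff.1 h2 0 hC0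
    obtain ⟨r2, hr2, h4⟩ := Metric.isOpen_iff.1 h2 b hCb
    refine ⟨min (min r1 r2) (b / 2), by positivity, min_le_right _ _, ?_, ?_⟩
    · intro z hz
      apply h3
      rw [Metric.mem_ball, Real.dist_eq, sub_zero]
      exact lt_of_lt_of_le hz ((min_le_left _ _).trans (min_le_left _ _))
    · intro z hz
      apply h4
      rw [Metric.mem_ball, Real.dist_eq]
      exact lt_of_lt_of_le hz ((min_le_left _ _).trans (min_le_right _ _))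
  have hrC : ∀ z ∈ Icc 0 b, k z ∈ C → r ≤ z ∧ z ≤ b - r := by
    intro z hz hzC
    constructor
    · by_contra h2
      exact hr0 z (by rw [abs_of_nonneg hz.1]; linarith) hzC
    · by_contra h2
      exact hr1 z (by rw [abs_sub_comm, abs_of_nonneg (by linarith [hz.2])]; linarith) hzC
  obtain ⟨z₀, hz₀⟩ : ∃ z₀, z₀ = r / 5 := ⟨_, rfl⟩
  obtain ⟨z₀', hz₀'⟩ : ∃ z₀', z₀' = 2 * r / 5 := ⟨_, rfl⟩
  obtain ⟨w₀, hw₀⟩ : ∃ w₀, w₀ = 3 * r / 5 := ⟨_, rfl⟩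
  obtain ⟨w₁, hw₁⟩ : ∃ w₁, w₁ = b - 3 * r / 5 := ⟨_, rfl⟩
  obtain ⟨z₁', hz₁'⟩ : ∃ z₁', z₁' = b - 2 * r / 5 := ⟨_, rfl⟩
  obtain ⟨z₁, hz₁⟩ : ∃ z₁, z₁ = b - r / 5 := ⟨_, rfl⟩
  obtain ⟨χ, hχe⟩ : ∃ χ : ℝ → ℝ, χ = fun y => stp z₀' w₀ y * (1 - stp w₁ z₁' y) := ⟨_, rfl⟩
  have hχs : ContDiff ℝ ∞ χ := by
    rw [hχe]
    exact (Pool.Agent.CSG.stp_smooth _ _).mul (contDiff_const.sub (Pool.Agent.CSG.stp_smooth _ _))
  have hχ0 : ∀ y, 0 ≤ χ y := by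
    intro y
    rw [hχe]
    exact mul_nonneg (Pool.Agent.CSG.stp_nonneg _ _ _) (sub_nonneg.2 (Pool.Agent.CSG.stp_le_one _ _ _))
  have hχ1 : ∀ y, χ y ≤ 1 := by
    intro y
    rw [hχe]
    have e1 := Pool.Agent.CSG.stp_nonneg w₁ z₁' y
    have e2 := Pool.Agent.CSG.stp_le_one z₀' w₀ y
    have e3 := Pool.Agent.CSG.stp_le_one w₁ z₁' y
    exact mul_le_one₀ e2 (by linarith) (by linarith)
  have hχw : ∀ y ∈ Icc w₀ w₁, χ y = 1 := by
    intro y hy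
    rw [hχe]
    show stp z₀' w₀ y * (1 - stp w₁ z₁' y) = 1
    rw [Pool.Agent.CSG.stp_one (by linarith) hy.1, Pool.Agent.CSG.stp_zero (by linarith) hy.2]
    ring
  have hχz : ∀ y, y ≤ z₀' ∨ z₁' ≤ y → χ y = 0 := by
    intro y hy
    rw [hχe]
    show stp z₀' w₀ y * (1 - stp w₁ z₁' y) = 0
    rcases hy with hy | hy
    · rw [Pool.Agent.CSG.stp_zero (by linarith) hy, zero_mul]
    · rw [Pool.Agent.CSG.stp_one (by linarith) hy, sub_self, mul_zero]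
  -- the compact set `A`
  have hWc : Continuous fun q : ℝ × N => W q.1 q.2 := hF.push.cont
  have hW1c : Continuous (W 1) := hWc.comp (continuous_const.prodMk continuous_id)
  obtain ⟨A, hAe⟩ : ∃ A : Set N, A = k '' Icc b 1 ∪ W 1 '' (k '' Icc b 1) := ⟨_, rfl⟩
  have hAcl : IsClosed A := by
    rw [hAe]
    exact ((isCompact_Icc.image hkc).union ((isCompact_Icc.image hkc).image hW1c)).isClosed
  have hAk : ∀ y ∈ Icc b 1, k y ∈ A := by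
    intro y hy
    rw [hAe]
    exact Or.inl ⟨y, hy, rfl⟩
  have hAW : ∀ y ∈ Icc b 1, W 1 (k y) ∈ A := by
    intro y hy
    rw [hAe]
    exact Or.inr ⟨k y, ⟨y, hy, rfl⟩, rfl⟩
  have hAd : ∀ l ∈ Icc z₀ z₁, k l ∉ A := by
    intro l hl h2
    obtain ⟨hl1, hl2⟩ := hl
    have h3 : ∀ y ∈ Icc b 1, k y ≠ k l := by
      intro y hy h4
      obtain ⟨n, hn⟩ := hinj _ _ h4
      have h5 : (n : ℝ) < 0 := by linarith [hy.1]
      have h6 : (-1 : ℝ) < n := by linarith [hy.2]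
      have h7 : n < 0 := by exact_mod_cast h5
      have h8 : -1 < n := by exact_mod_cast h6
      omega
    rw [hAe] at h2
    rcases h2 with ⟨y, hy, he⟩ | ⟨_, ⟨y, hy, rfl⟩, he⟩
    · exact h3 y hy he
    · rcases eq_or_lt_of_le hy.1 with h7 | h7
      · rw [← h7, hCf 1 _ hCb] at he
        exact h3 b ⟨le_rfl, hb1.le⟩ he
      · rcases eq_or_lt_of_le hy.2 with h8 | h8
        · rw [h8, hk1, hCf 1 _ hC0, ← hk1] at he
          exact h3 1 ⟨hb1.le, le_rfl⟩ he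
        · exact h1 y ⟨h7, h8⟩ ⟨l, ⟨by linarith, by linarith⟩, he.symm⟩
  obtain ⟨ε, hε, hε1, hpush⟩ := gp_push hκ (z₀ := z₀) (z₀' := z₀') (z₁' := z₁') (z₁ := z₁) (by linarith) (by linarith)
    (by linarith) (by linarith) hAcl (fun l hl => by rw [hκk]; exact hAd l hl) hχs hχ0 hχ1 hχz
  -- the surface
  have hks : ContMDiff 𝓘(ℝ, ℝ) (𝓡 3) ∞ k := by
    intro l
    have h2 : ContMDiffAt 𝓘(ℝ, ℝ × ℂ) (𝓡 3) ∞ κ (l, 0) := (hκ.loc l 0 (by simp)).contMDiffAt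
    have h3 : ContMDiffAt 𝓘(ℝ, ℝ) 𝓘(ℝ, ℝ × ℂ) ∞ (fun l : ℝ => (l, (0 : ℂ))) l :=
      (contDiff_id.prodMk contDiff_const).contMDiff.contMDiffAt
    have h4 : ContMDiffAt 𝓘(ℝ, ℝ) (𝓡 3) ∞ (fun l : ℝ => κ (l, (0 : ℂ))) l := h2.comp l h3
    have h5 : k = fun l : ℝ => κ (l, (0 : ℂ)) := funext fun l => (hκk l).symm
    rw [h5]
    exact h4
  have hFs : ContMDiff 𝓘(ℝ, ℝ × ℝ) (𝓡 3) ∞ (fun q : ℝ × ℝ => W q.1 (k q.2)) := by
    have h2 : ContMDiff 𝓘(ℝ, ℝ × ℝ) 𝓘(ℝ, ℝ) ∞ (fun q : ℝ × ℝ => q.1) := contDiff_fst.contMDiff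
    have h3 : ContMDiff 𝓘(ℝ, ℝ × ℝ) 𝓘(ℝ, ℝ) ∞ (fun q : ℝ × ℝ => q.2) := contDiff_snd.contMDiff
    exact hF.push.smooth.comp (h2.prodMk (hks.comp h3))
  obtain ⟨v₀, -, hv₀, hfin, hno, htr⟩ := gp_arc hκ (F := fun q : ℝ × ℝ => W q.1 (k q.2)) (U := univ)
    (Q := Icc (0 : ℝ) 1 ×ˢ Icc b 1) (Q₁ := ({0, 1} : Set ℝ) ×ˢ Icc b 1) (z₀ := z₀) (w₀ := w₀) (w₁ := w₁) (z₁ := z₁)
    isOpen_univ hFs.contMDiffOn
    (isCompact_Icc.prod isCompact_Icc) (subset_univ _)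
    (((Set.toFinite ({0, 1} : Set ℝ)).isClosed).prod isClosed_Icc)
    (by
      rintro ⟨s, y⟩ ⟨h2, h3⟩
      refine ⟨?_, h3⟩
      rcases h2 with h2 | h2
      · show s ∈ Icc (0 : ℝ) 1
        rw [show s = 0 from h2]; exact ⟨le_rfl, zero_le_one⟩
      · show s ∈ Icc (0 : ℝ) 1
        rw [show s = 1 from h2]; exact ⟨zero_le_one, le_rfl⟩)
    (by linarith) (by linarith) (by linarith) hχs.continuous hχ0 hχ1 hχw
    (by
      rintro ⟨s, y⟩ ⟨h2, h3⟩ z hz he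
      have he' : W s (k y) = k z := by rw [← hκk z]; exact he
      have hz' : z ∈ Icc 0 b := ⟨by linarith [hz.1], by linarith [hz.2]⟩
      rcases hFF s y h3 z hz' he' with h4 | h4 | h4
      · have := hrC z hz' h4
        exact ⟨by linarith [this.1], by linarith [this.2]⟩
      · exfalso
        linarith [hz.2, h4.2]
      · exfalso
        linarith [hz.1, h4.2])
    (by
      rintro ⟨s, y⟩ ⟨h2, h3⟩ z hz he
      have he' : W s (k y) = k z := by rw [← hκk z]; exact he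
      apply hAd z hz
      rw [← he']
      rcases h2 with h2 | h2
      · rw [show s = 0 from h2, hF.push.zero]
        exact hAk y h3
      · rw [show s = 1 from h2]
        exact hAW y h3)
    hε
  obtain ⟨V, hV, hV1⟩ := hpush v₀ hv₀
  have hVA : ∀ y ∈ A, V 1 y = y := fun y hy => hV.out 1 (fun h2 => h2.2 hy)
  have hVx : Push {x}ᶜ V := by
    refine hV.mono ?_
    intro y hy h2
    apply hy.2
    rw [show y = x from h2, ← hkx, ← hk1]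
    exact hAk 1 ⟨hb1.le, le_rfl⟩
  obtain ⟨k', hk'e⟩ : ∃ k' : ℝ → N, k' = fun l => V 1 (k l) := ⟨_, rfl⟩
  have hk' : ∀ l, k' l = V 1 (k l) := fun l => by rw [hk'e]
  have hMv : Mv x k k' := ⟨V, hVx, hk'⟩
  have hk'b : ∀ l ∈ Icc b 1, k' l = k l := fun l hl => by rw [hk', hVA _ (hAk l hl)]
  have hk'0 : k' 0 = k 0 := by rw [hk', ← hk1, hVA _ (hAk 1 ⟨hb1.le, le_rfl⟩)]
  have hk'z : ∀ l ∈ Icc z₀ z₁, k' l = κ (l, (χ l : ℂ) * v₀) := fun l hl => by rw [hk', ← hκk, hV1 l hl]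
  have hk'n : ∀ l ∈ Icc 0 b, l ∉ Icc z₀ z₁ → k' l = k l := by
    intro l hl hl'
    rw [hk']
    apply hV.out 1
    rintro ⟨⟨⟨l', v'⟩, ⟨h2, h3⟩, h4⟩, -⟩
    rw [← hκk] at h4
    obtain ⟨-, n, hn⟩ := hκ.inj l' v' l 0 h3 (by simp) h4
    simp only at h2
    have h5 : (n : ℝ) < 1 := by linarith [h2.1, hl.2]
    have h6 : (-1 : ℝ) < n := by linarith [h2.2, hl.1]
    have h7 : n < 1 := by exact_mod_cast h5
    have h8 : -1 < n := by exact_mod_cast h6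
    have h9 : n = 0 := by omega
    rw [h9, Int.cast_zero, add_zero] at hn
    exact hl' ⟨by linarith [h2.1], by linarith [h2.2]⟩
  have hkey : ∀ (s : ℝ), ∀ y ∈ Ioo b 1, W s (k' y) ∈ k' '' Icc 0 b →
      ∃ z ∈ Icc z₀ z₁, W s (k y) = κ (z, (χ z : ℂ) * v₀) := by
    rintro s y hy ⟨z, hz, he⟩
    rw [hk'b y ⟨hy.1.le, hy.2.le⟩] at he
    by_cases h2 : z ∈ Icc z₀ z₁
    · exact ⟨z, h2, by rw [← he, hk'z z h2]⟩
    · exfalso
      rw [hk'n z hz h2] at he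
      rcases hFF s y ⟨hy.1.le, hy.2.le⟩ z hz he.symm with h4 | h4 | h4
      · have := hrC z hz h4
        exact h2 ⟨by linarith [this.1], by linarith [this.2]⟩
      · linarith [hy.1, h4.1]
      · linarith [hy.2, h4.1]
  refine ⟨k', hMv, hk.mv hMv, ⟨hb0, hb1, ?_⟩, ?_, ?_, ?_, ?_, ?_⟩
  · rw [hk'0, hk'b b ⟨le_rfl, hb1.le⟩]
    exact hF.push
  · intro y hy h2
    obtain ⟨z, hz, he⟩ := hkey 0 y hy h2
    exact hno (0, y) ⟨Or.inl rfl, hy.1.le, hy.2.le⟩ z hz he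
  · intro y hy h2
    obtain ⟨z, hz, he⟩ := hkey 1 y hy h2
    exact hno (1, y) ⟨Or.inr rfl, hy.1.le, hy.2.le⟩ z hz he
  · refine ⟨V, hVx, ?_⟩
    intro l
    unfold kc kcf
    by_cases htb : Int.fract l ≤ b
    · rw [if_pos htb, if_pos htb, hk']
    · rw [if_neg htb, if_neg htb]
      have hper' : Function.Periodic k 1 := hper
      have hkl : k l = k (Int.fract l) := by
        have h1 := hper'.int_mul ⌊l⌋ (Int.fract l)
        rw [mul_one, Int.fract_add_floor] at h1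
        exact h1
      have hfl : Int.fract l ∈ Icc b 1 := ⟨(not_le.1 htb).le, (Int.fract_lt_one l).le⟩
      rw [hk', hkl, hVA _ (hAk _ hfl), hVA _ (hAW _ hfl)]
  · refine hfin.subset ?_
    rintro ⟨s, y⟩ ⟨h2, h3, h4⟩
    exact ⟨⟨h2, h3.1.le, h3.2.le⟩, hkey s y h3 h4⟩
  · intro s hs y hy h2
    obtain ⟨z, hz, he⟩ := hkey s y hy h2
    obtain ⟨hz1, hz2, l, v, hl, hv, hlv, hlq, hvq, hbij⟩ := htr (s, y) ⟨hs, hy.1.le, hy.2.le⟩ z hz he
    have hvn : ‖v (s, y)‖ < 1 := by rw [hvq]; linarith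
    have hnear := gpb_near hκ hFs hl hv hlv hvn
    have hld := gpb_ld hnear hbij
    obtain ⟨G, hG⟩ : ∃ G : E → N, G = fun p => κ (l (s + p.2, y + p.1.re) + p.1.im, v (s + p.2, y + p.1.re)) := ⟨_, rfl⟩
    have hGld : IsLocalDiffeomorphAt 𝓘(ℝ, ℂ × ℝ) (𝓡 3) ∞ G 0 := by
      have h3 : IsLocalDiffeomorphAt 𝓘(ℝ, ℝ × ℂ) (𝓡 3) ∞ κ
          ((fun p : ℂ × ℝ => (l (s + p.2, y + p.1.re) + p.1.im, v (s + p.2, y + p.1.re))) 0) := by
        have h4 : (fun p : ℂ × ℝ => (l (s + p.2, y + p.1.re) + p.1.im, v (s + p.2, y + p.1.re))) 0 = (z, v₀) := by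
          simp [hlq, hvq]
        rw [h4]
        exact hκ.loc z v₀ (by linarith)
      rw [hG]
      exact IsLocalDiffeomorphAt.comp (hf := hld) (hg := h3)
    have hGev := Pool.Agent.CSG.ld_eventually hGld
    obtain ⟨U, hU, hUi⟩ := Pool.Agent.CSG.ld_injOn hGld
    obtain ⟨r1, hr1, hb1'⟩ := Metric.mem_nhds_iff.1 (inter_mem hGev hU)
    obtain ⟨r2, hr2, hb2⟩ := Metric.mem_nhds_iff.1 hlv
    obtain ⟨ρ, hρ, hρ1, hρ2, hρ3, hρ4, hρ5, hρ6⟩ : ∃ ρ : ℝ, 0 < ρ ∧ 2 * ρ ≤ r1 ∧ ρ ≤ r2 ∧ ρ ≤ (y - b) / 2 ∧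
        ρ ≤ (1 - y) / 2 ∧ ρ ≤ z - w₀ ∧ ρ ≤ w₁ - z := by
      have e1 : 0 < y - b := sub_pos.2 hy.1
      have e2 : 0 < 1 - y := sub_pos.2 hy.2
      have e3 : 0 < z - w₀ := sub_pos.2 hz1
      have e4 : 0 < w₁ - z := sub_pos.2 hz2
      refine ⟨min (r1 / 2) (min r2 (min ((y - b) / 2) (min ((1 - y) / 2) (min (z - w₀) (w₁ - z))))), by positivity, ?_,
        ?_, ?_, ?_, ?_, ?_⟩
      · have := min_le_left (r1 / 2) (min r2 (min ((y - b) / 2) (min ((1 - y) / 2) (min (z - w₀) (w₁ - z)))))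
        linarith
      · exact (min_le_right _ _).trans (min_le_left _ _)
      · exact (min_le_right _ _).trans ((min_le_right _ _).trans (min_le_left _ _))
      · exact (min_le_right _ _).trans ((min_le_right _ _).trans ((min_le_right _ _).trans (min_le_left _ _)))
      · exact (min_le_right _ _).trans ((min_le_right _ _).trans ((min_le_right _ _).trans
          ((min_le_right _ _).trans (min_le_left _ _))))
      · exact (min_le_right _ _).trans ((min_le_right _ _).trans ((min_le_right _ _).trans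
          ((min_le_right _ _).trans (min_le_right _ _))))
    have hr' := hr
    refine ⟨z, ρ, G, ⟨hρ, by linarith [hy.1], by linarith [hy.2], by linarith, by linarith,
      ⟨gpb_bxx ρ, fun q hq => (hb1' (gpb_ball hρ1 hq)).1, ?_⟩, ?_, ?_⟩⟩
    · intro p hp p' hp' h3
      exact hUi (hb1' (gpb_ball hρ1 hp)).2 (hb1' (gpb_ball hρ1 hp')).2 h3
    · intro u τ hu hτ
      have h3 : (s + τ, y + u) ∈ Metric.ball (s, y) r2 := by
        rw [Metric.mem_ball, Prod.dist_eq]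
        refine max_lt ?_ ?_
        · show dist (s + τ) s < r2
          rw [Real.dist_eq, add_sub_cancel_left]
          linarith
        · show dist (y + u) y < r2
          rw [Real.dist_eq, add_sub_cancel_left]
          linarith
      have h4 : W (s + τ) (k (y + u)) = κ (l (s + τ, y + u), v (s + τ, y + u)) := hb2 h3
      rw [hk'b (y + u) ⟨by linarith [(abs_lt.1 hu).1, hy.1], by linarith [(abs_lt.1 hu).2, hy.2]⟩, h4, hG]
      simp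
    · intro t ht
      have h3 : z + t ∈ Icc w₀ w₁ := ⟨by linarith [(abs_lt.1 ht).1], by linarith [(abs_lt.1 ht).2]⟩
      rw [hk'z (z + t) ⟨by linarith [h3.1], by linarith [h3.2]⟩, hχw _ h3, hG]
      simp [hlq, hvq]

end Pool.Agent.NHH
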