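import Mathlib
import Pool.Agent.NHE.Two
import Pool.Agent.NHE.Std
import Pool.Agent.NHE.Pth
import Pool.Agent.NHP.Lfn
import Pool.Agent.NHQ.Sg
import Pool.Agent.NHH.Off
import Pool.Agent.NHH.Defs

/-!
# NHH/Trn: transport of the long arc (difficulty 4)

`κ` and `κ'` agree near the base point and their cores have the same class.  For small `b` there is a push `W` of
`N - {k 0, k b}` with `κ' (l, 0) = W 1 (κ (l, 0))` on `[b, 1]`: `two_tubes` for the tubes along the long arcs (homotopic in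
`N - {k 0}` by `homotopic_off`), then `lifting`.
-/

open scoped Manifold ContDiff Topology
open Set Filter CategoryTheory
open Pool.Agent.CSG (stp)
open Pool.Agent.RSG (E3 ex Thick)
open Pool.Agent.NHP Pool.Agent.NHE
open Pool.Agent.NHQ (cl PC)

namespace Pool.Agent.NHH

variable {N : Type*} [TopologicalSpace N] [ChartedSpace E3 N]

/-- the tube `(w, x) ↦ κ (A x, c w)` -/
theorem trn_cht {κ : ℝ × ℂ → N} (hκ : Thick κ) {A : ℝ → ℝ} (hA : ContDiff ℝ ∞ A) (hA' : ∀ x, 0 < deriv A x) {c : ℝ}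
    (hc : 0 < c) {D : Set E} (hD : IsOpen D) (hw : ∀ q ∈ D, c * ‖q.1‖ < 1) (hl : ∀ q ∈ D, ∀ q' ∈ D, A q'.2 - A q.2 < 1) :
    Cht D (fun q => κ (A q.2, (c : ℂ) * q.1)) := by
  have hn : (∞ : WithTop ℕ∞) ≠ 0 := by simp
  have hinj : Function.Injective A := (strictMono_of_deriv_pos hA').injective
  have hnorm : ∀ q : E, ‖(c : ℂ) * q.1‖ = c * ‖q.1‖ := fun q => by
    rw [norm_mul, Complex.norm_real, Real.norm_eq_abs, abs_of_pos hc]
  refine ⟨hD, fun q hq => ?_, fun q hq q' hq' he => ?_⟩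
  · have h1 : IsLocalDiffeomorphAt 𝓘(ℝ, ℂ × ℝ) 𝓘(ℝ, ℝ × ℂ) ∞ (fun q : E => (A q.2, (c : ℂ) * q.1)) q := by
      refine CSG.ld_of_fderiv (Eventually.of_forall fun y => ?_) ?_ ?_
      · exact ((hA.comp contDiff_snd).prodMk (contDiff_const.mul contDiff_fst)).contDiffAt
      · rw [Module.finrank_prod, Module.finrank_prod, add_comm]
      · intro v hv
        have hd1 : HasFDerivAt (fun q : E => A q.2) (deriv A q.2 • ContinuousLinearMap.snd ℝ ℂ ℝ) q :=
          (hA.differentiable hn q.2).hasDerivAt.comp_hasFDerivAt q hasFDerivAt_snd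
        have hd2 : HasFDerivAt (fun q : E => (c : ℂ) * q.1) ((c : ℂ) • ContinuousLinearMap.fst ℝ ℂ ℝ) q :=
          HasFDerivAt.const_mul hasFDerivAt_fst (c : ℂ)
        rw [(hd1.prodMk hd2).fderiv] at hv
        have e1 : deriv A q.2 * v.2 = 0 := congrArg Prod.fst hv
        have e2 : (c : ℂ) * v.1 = 0 := congrArg Prod.snd hv
        have e3 : v.2 = 0 := by
          rcases mul_eq_zero.1 e1 with h | h
          · exact absurd h (hA' q.2).ne'
          · exact h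
        have e4 : v.1 = 0 := by
          rcases mul_eq_zero.1 e2 with h | h
          · exact absurd h (by exact_mod_cast hc.ne')
          · exact h
        exact Prod.ext e4 e3
    exact IsLocalDiffeomorphAt.comp (hf := h1) (hg := hκ.loc _ _ (by rw [hnorm]; exact hw q hq))
  · obtain ⟨h1, m, hm⟩ := hκ.inj _ _ _ _ (by rw [hnorm]; exact hw q hq) (by rw [hnorm]; exact hw q' hq') he
    have h2 := hl q hq q' hq'
    have h3 := hl q' hq' q hq
    have hm1 : (m : ℝ) < 1 := by linarith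
    have hm2 : -1 < (m : ℝ) := by linarith
    have hm0 : m = 0 := by
      have a1 : m < 1 := by exact_mod_cast hm1
      have a2 : -1 < m := by exact_mod_cast hm2
      omega
    rw [hm0, Int.cast_zero, add_zero] at hm
    refine Prod.ext ?_ (hinj hm).symm
    exact mul_left_cancel₀ (by exact_mod_cast hc.ne') h1

/-- the parameter of the long arc -/
noncomputable def trn_A (b x : ℝ) : ℝ := b + b * (x - 1 / 8) + (1 - 2 * b) * stp (1 / 8) (3 / 4) x

theorem trn_A_smooth (b : ℝ) : ContDiff ℝ ∞ (trn_A b) :=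
  (contDiff_const.add (contDiff_const.mul (contDiff_id.sub contDiff_const))).add
    (contDiff_const.mul (CSG.stp_smooth _ _))

theorem trn_A_deriv {b : ℝ} (h0 : 0 < b) (h1 : b < 1 / 2) (x : ℝ) : 0 < deriv (trn_A b) x := by
  have hn : (∞ : WithTop ℕ∞) ≠ 0 := by simp
  have hs : HasDerivAt (stp (1 / 8) (3 / 4)) (deriv (stp (1 / 8) (3 / 4)) x) x :=
    ((CSG.stp_smooth _ _).differentiable hn x).hasDerivAt
  have h2 : HasDerivAt (trn_A b) (b * 1 + (1 - 2 * b) * deriv (stp (1 / 8) (3 / 4)) x) x :=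
    (((hasDerivAt_id x).sub_const (1 / 8)).const_mul b |>.const_add b).add (hs.const_mul (1 - 2 * b))
  rw [h2.deriv]
  have h3 := CSG.stp_deriv_nonneg (a := 1 / 8) (b := 3 / 4) (by norm_num) x
  have h4 : 0 ≤ (1 - 2 * b) * deriv (stp (1 / 8) (3 / 4)) x := mul_nonneg (by linarith) h3
  linarith

theorem trn_A_lo (b : ℝ) {x : ℝ} (h : x ≤ 1 / 8) : trn_A b x = b + b * (x - 1 / 8) := by
  unfold trn_A
  rw [CSG.stp_zero (by norm_num) h]
  ring

theorem trn_A_hi (b : ℝ) {x : ℝ} (h : 3 / 4 ≤ x) : trn_A b x = 1 + b * (x - 9 / 8) := by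
  unfold trn_A
  rw [CSG.stp_one (by norm_num) h]
  ring

omit [ChartedSpace E3 N] in
/-- the classes of the middle arcs agree -/
theorem trn_mid {x : N} {k k' : ℝ → N} (hk : Continuous k) (hk' : Continuous k')
    {o : FundamentalGroupoid.mk x ⟶ FundamentalGroupoid.mk x} (h : PC k o) (h' : PC k' o) {b d : ℝ} (hb : 0 ≤ b)
    (hd : d ≤ 1) (e1 : ∀ t ∈ Icc 0 b, k' t = k t) (e2 : ∀ t ∈ Icc d 1, k' t = k t)
    {p r : N} {γ : FundamentalGroupoid.mk p ⟶ FundamentalGroupoid.mk r} (hγ : PC (fun t => k (b + (d - b) * t)) γ) :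
    PC (fun t => k' (b + (d - b) * t)) γ := by
  obtain rfl : k b = p := by simpa using hγ.zero
  obtain rfl : k d = r := by simpa using hγ.one
  have h0 : k 0 = x := h.zero
  have h1 : k 1 = x := h.one
  obtain ⟨γ', hγ'⟩ : ∃ γ' : FundamentalGroupoid.mk (k b) ⟶ FundamentalGroupoid.mk (k d),
      PC (fun t => k' (b + (d - b) * t)) γ' := by
    refine NHQ.exists_PC (by fun_prop) ?_ ?_
    · simp only [mul_zero, add_zero]
      exact e1 b ⟨hb, le_rfl⟩
    · simp only [mul_one, add_sub_cancel]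
      exact e2 d ⟨le_rfl, hd⟩
  obtain ⟨α, hα⟩ : ∃ α : FundamentalGroupoid.mk x ⟶ FundamentalGroupoid.mk (k b), PC (fun t => k (0 + (b - 0) * t)) α := by
    refine NHQ.exists_PC (by fun_prop) ?_ ?_
    · simp only [mul_zero, add_zero]; exact h0
    · simp
  obtain ⟨ζ, hζ⟩ : ∃ ζ : FundamentalGroupoid.mk (k d) ⟶ FundamentalGroupoid.mk x, PC (fun t => k (d + (1 - d) * t)) ζ := by
    refine NHQ.exists_PC (by fun_prop) ?_ ?_
    · simp
    · simp only [mul_one, add_sub_cancel]; exact h1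
  have hα' : PC (fun t => k' (0 + (b - 0) * t)) α := by
    refine hα.congr fun t ht => e1 _ ⟨?_, ?_⟩
    · have := mul_nonneg hb ht.1
      linarith
    · have := mul_le_mul_of_nonneg_left ht.2 hb
      linarith
  have hζ' : PC (fun t => k' (d + (1 - d) * t)) ζ := by
    refine hζ.congr fun t ht => e2 _ ⟨?_, ?_⟩
    · have := mul_nonneg (sub_nonneg.2 hd) ht.1
      linarith
    · have := mul_le_mul_of_nonneg_left ht.2 (sub_nonneg.2 hd)
      linarith
  have k1 : PC (fun t => k (0 + (1 - 0) * t)) ((α ≫ γ) ≫ ζ) :=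
    NHQ.PC.add convex_univ hk.continuousOn (mem_univ 0) (mem_univ d) (mem_univ 1)
      (NHQ.PC.add convex_univ hk.continuousOn (mem_univ 0) (mem_univ b) (mem_univ d) hα hγ) hζ
  have k2 : PC (fun t => k' (0 + (1 - 0) * t)) ((α ≫ γ') ≫ ζ) :=
    NHQ.PC.add convex_univ hk'.continuousOn (mem_univ 0) (mem_univ d) (mem_univ 1)
      (NHQ.PC.add convex_univ hk'.continuousOn (mem_univ 0) (mem_univ b) (mem_univ d) hα' hγ') hζ'
  have k3 : (α ≫ γ) ≫ ζ = o := k1.unique (h.congr fun t _ => by ring_nf)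
  have k4 : (α ≫ γ') ≫ ζ = o := k2.unique (h'.congr fun t _ => by ring_nf)
  have k5 : (α ≫ γ) ≫ ζ = (α ≫ γ') ≫ ζ := k3.trans k4.symm
  have k6 : γ = γ' := by
    have := (cancel_mono ζ).1 k5
    exact (cancel_epi α).1 this
  rw [k6]
  exact hγ'

section
variable [IsManifold (𝓡 3) ∞ N] [T2Space N]

omit [IsManifold (𝓡 3) ∞ N] [T2Space N] in
theorem trn_cont {κ : ℝ × ℂ → N} (hκ : Thick κ) : Continuous fun l : ℝ => κ (l, 0) := by
  rw [continuous_iff_continuousAt]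
  intro l
  have h1 : ContinuousAt κ (l, 0) := CSG.ld_continuousAt (hκ.loc l 0 (by simp))
  exact ContinuousAt.comp (g := κ) h1 (by fun_prop)

omit [IsManifold (𝓡 3) ∞ N] [T2Space N] in
/-- the base point is not on the tube -/
theorem trn_ne {κ : ℝ × ℂ → N} (hκ : Thick κ) {l : ℝ} (h0 : 0 < l) (h1 : l < 1) {v : ℂ} (hv : ‖v‖ < 1) :
    κ (l, v) ≠ κ (0, 0) := by
  intro he
  obtain ⟨-, m, hm⟩ := hκ.inj _ _ _ _ hv (by simp) he
  have a1 : -1 < (m : ℝ) := by linarith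
  have a2 : (m : ℝ) < 0 := by linarith
  have a3 : -1 < m := by exact_mod_cast a1
  have a4 : m < 0 := by exact_mod_cast a2
  omega

omit [ChartedSpace E3 N] [IsManifold (𝓡 3) ∞ N] [T2Space N] in
/-- the label of a class of `{x}ᶜ` -/
theorem trn_repI {Y : Set N} {y y' : Y} {f : ℝ → N} {a d : ℝ} {c : Path y y'} (h : RepI f a d c) :
    PC (fun t => f (a + t * (d - a))) (cl (NHT.incl c)) := by
  obtain ⟨γ, h1, h2⟩ := h
  refine ⟨NHT.incl γ, fun t => h1 t, ?_⟩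
  exact NHQ.cl_eq (h2.map ⟨_, continuous_subtype_val⟩)

theorem transport [ConnectedSpace N] {κ κ' : ℝ × ℂ → N} (hκ : Thick κ) (hκ' : Thick κ') {ρ : ℝ} (hρ : 0 < ρ)
    (heq : ∀ (l : ℝ) (v : ℂ), |l| < ρ → ‖v‖ < ρ → κ' (l, v) = κ (l, v))
    {o : FundamentalGroupoid.mk (κ (0, 0)) ⟶ FundamentalGroupoid.mk (κ (0, 0))} (h : PC (fun l => κ (l, 0)) o)
    (h' : PC (fun l => κ' (l, 0)) o) : ∃ (b : ℝ) (W : ℝ → Equiv.Perm N), Frm b (fun l => κ (l, 0)) W ∧
      ∀ l, κ' (l, 0) = kc b (fun l => κ (l, 0)) W 1 l := by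
  have hst : ∀ x, 0 ≤ stp (1 / 8) (3 / 4) x ∧ stp (1 / 8) (3 / 4) x ≤ 1 := fun x => ⟨CSG.stp_nonneg _ _ _, CSG.stp_le_one _ _ _⟩
  -- parameters
  obtain ⟨b, hb0, hb1, hbρ⟩ : ∃ b : ℝ, 0 < b ∧ b ≤ 1 / 4 ∧ b ≤ ρ / 4 :=
    ⟨min (1 / 4) (ρ / 4), lt_min (by norm_num) (by positivity), min_le_left _ _, min_le_right _ _⟩
  have hper : ∀ l v, κ (l - 1, v) = κ (l, v) := fun l v => by rw [← hκ.per (l - 1) v, sub_add_cancel]
  have hper' : ∀ l v, κ' (l - 1, v) = κ' (l, v) := fun l v => by rw [← hκ'.per (l - 1) v, sub_add_cancel]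
  have heq' : ∀ (l : ℝ) (v : ℂ), |l - 1| < ρ → ‖v‖ < ρ → κ' (l, v) = κ (l, v) := by
    intro l v h1 h2
    rw [← hper' l v, heq _ _ h1 h2, hper]
  have hAmono : StrictMono (trn_A b) := strictMono_of_deriv_pos (trn_A_deriv hb0 (by linarith))
  have hAm : trn_A b (-(1 / 4)) = b + b * (-(1 / 4) - 1 / 8) := trn_A_lo b (by norm_num)
  have hAp : trn_A b (5 / 4) = 1 + b * (5 / 4 - 9 / 8) := trn_A_hi b (by norm_num)
  have hA0 : ∀ {x : ℝ}, -(1 / 4) < x → 0 < trn_A b x := fun {x} hx => by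
    have := hAmono hx
    rw [hAm] at this
    nlinarith
  have hA18 : trn_A b (1 / 8) = b := by rw [trn_A_lo b le_rfl]; ring
  have hA78 : trn_A b (7 / 8) = 1 - b / 4 := by rw [trn_A_hi b (by norm_num)]; ring
  have hA98 : trn_A b (9 / 8) = 1 := by rw [trn_A_hi b (by norm_num)]; ring
  have hA1 : ∀ {x : ℝ}, x < 1 → trn_A b x < 1 := fun {x} hx => by
    have := hAmono (show x < 9 / 8 by linarith)
    rwa [hA98] at this
  have hTDo : IsOpen TD := by
    have e : TD = {q : E | ‖q.1‖ < 1} ∩ ({q : E | -(1 / 4) < q.2} ∩ {q : E | q.2 < 5 / 4}) := rfl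
    rw [e]
    exact (isOpen_lt (by fun_prop) (by fun_prop)).inter ((isOpen_lt (by fun_prop) (by fun_prop)).inter
      (isOpen_lt (by fun_prop) (by fun_prop)))
  have hTl : ∀ q ∈ TD, ∀ q' ∈ TD, trn_A b q'.2 - trn_A b q.2 < 1 := by
    rintro q ⟨-, hq1, -⟩ q' ⟨-, -, hq2⟩
    have a1 := hAmono hq1
    have a2 := hAmono hq2
    rw [hAm] at a1
    rw [hAp] at a2
    nlinarith
  have hTw : ∀ q ∈ TD, b * ‖q.1‖ < 1 := by
    rintro q ⟨hq, -, -⟩
    have := norm_nonneg q.1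
    nlinarith
  have hnorm : ∀ w : ℂ, ‖((b : ℝ) : ℂ) * w‖ = b * ‖w‖ := fun w => by
    rw [norm_mul, Complex.norm_real, Real.norm_eq_abs, abs_of_pos hb0]
  obtain ⟨T₀, hT₀⟩ : ∃ T₀ : E → N, T₀ = fun q => κ (trn_A b q.2, (b : ℂ) * q.1) := ⟨_, rfl⟩
  obtain ⟨T₁, hT₁⟩ : ∃ T₁ : E → N, T₁ = fun q => κ' (trn_A b q.2, (b : ℂ) * q.1) := ⟨_, rfl⟩
  have hc₀ : Cht TD T₀ := by
    rw [hT₀]
    exact trn_cht hκ (trn_A_smooth b) (trn_A_deriv hb0 (by linarith)) hb0 hTDo hTw hTl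
  have hc₁ : Cht TD T₁ := by
    rw [hT₁]
    exact trn_cht hκ' (trn_A_smooth b) (trn_A_deriv hb0 (by linarith)) hb0 hTDo hTw hTl
  -- the space `Y`
  have hx0 : κ' (0, 0) = κ (0, 0) := heq 0 0 (by simpa using hρ) (by simpa using hρ)
  obtain ⟨Y, hY⟩ : ∃ Y : Set N, Y = {κ (0, 0)}ᶜ := ⟨_, rfl⟩
  have hYo : IsOpen Y := by rw [hY]; exact isOpen_compl_singleton
  have hTb : ∀ q ∈ TD, ‖((b : ℝ) : ℂ) * q.1‖ < b := by
    rintro q ⟨hq, -, -⟩
    rw [hnorm]
    have := norm_nonneg q.1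
    nlinarith
  have hY0 : ∀ q ∈ TD, 0 < q.2 → q.2 < 1 → T₀ q ∈ Y := by
    intro q hq h1 h2
    rw [hY, hT₀]
    exact trn_ne hκ (hA0 (by linarith)) (hA1 h2) ((hTb q hq).trans (by linarith))
  have hY1 : ∀ q ∈ TD, 0 < q.2 → q.2 < 1 → T₁ q ∈ Y := by
    intro q hq h1 h2
    rw [hY, hT₁, mem_compl_iff, mem_singleton_iff, ← hx0]
    exact trn_ne hκ' (hA0 (by linarith)) (hA1 h2) ((hTb q hq).trans (by linarith))
  have hhi : ∀ q ∈ TD, 3 / 4 < q.2 → T₀ q = T₁ q := by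
    intro q hq h1
    rw [hT₀, hT₁]
    refine (heq' _ _ ?_ ((hTb q hq).trans (by linarith))).symm
    have h2 := hq.2.2
    rw [trn_A_hi b h1.le, abs_lt]
    constructor <;> nlinarith
  -- the arcs
  have hax : ∀ x : ℝ, -(1 / 4) < x → x < 5 / 4 → ((0 : ℂ), x) ∈ TD := fun x h1 h2 => ⟨by simp, h1, h2⟩
  have hk0 : ∀ x, T₀ (0, x) = κ (trn_A b x, 0) := fun x => by rw [hT₀]; simp
  have hk1 : ∀ x, T₁ (0, x) = κ' (trn_A b x, 0) := fun x => by rw [hT₁]; simp
  have hAc : Continuous (trn_A b) := (trn_A_smooth b).continuous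
  have hc0' : Continuous fun x : ℝ => T₀ (0, x) := by
    simp only [hk0]
    exact (trn_cont hκ).comp hAc
  have hc1' : Continuous fun x : ℝ => T₁ (0, x) := by
    simp only [hk1]
    exact (trn_cont hκ').comp hAc
  have hu : uIcc (1 / 8 : ℝ) (7 / 8) = Icc (1 / 8) (7 / 8) := uIcc_of_le (by norm_num)
  have e18 : T₁ (0, 1 / 8) = T₀ (0, 1 / 8) := by
    rw [hk0, hk1, hA18]
    exact heq _ _ (by rw [abs_of_pos hb0]; linarith) (by simpa using hρ)
  have e78 : T₁ (0, 7 / 8) = T₀ (0, 7 / 8) := (hhi _ (hax _ (by norm_num) (by norm_num)) (by norm_num)).symm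
  let y : Y := ⟨T₀ (0, 1 / 8), hY0 _ (hax _ (by norm_num) (by norm_num)) (by norm_num) (by norm_num)⟩
  let y' : Y := ⟨T₀ (0, 7 / 8), hY0 _ (hax _ (by norm_num) (by norm_num)) (by norm_num) (by norm_num)⟩
  obtain ⟨c, hc⟩ := exists_repI (Y := Y) (y := y) (y' := y') (f := fun x => T₀ (0, x)) (a := 1 / 8) (b := 7 / 8)
    hc0'.continuousOn (by
      intro t ht
      rw [hu] at ht
      exact hY0 _ (hax _ (by linarith [ht.1]) (by linarith [ht.2])) (by linarith [ht.1]) (by linarith [ht.2])) rfl rfl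
  obtain ⟨c', hc'⟩ := exists_repI (Y := Y) (y := y) (y' := y') (f := fun x => T₁ (0, x)) (a := 1 / 8) (b := 7 / 8)
    hc1'.continuousOn (by
      intro t ht
      rw [hu] at ht
      exact hY1 _ (hax _ (by linarith [ht.1]) (by linarith [ht.2])) (by linarith [ht.1]) (by linarith [ht.2])) e18 e78
  have hcc : c.Homotopic c' := by
    have p0 := trn_repI hc
    have p1 := trn_repI hc'
    have q0 : PC (fun t => κ (b + (1 - b / 4 - b) * t, 0)) (cl (NHT.incl c)) := by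
      refine NHQ.PC.convex (F := fun l : ℝ => κ (l, 0)) (u := fun t => trn_A b (1 / 8 + t * (7 / 8 - 1 / 8)))
        (v := fun t => b + (1 - b / 4 - b) * t) convex_univ (trn_cont hκ).continuousOn ?_ ?_ (fun _ _ => mem_univ _)
        (fun _ _ => mem_univ _) ?_ ?_ ?_
      · exact (hAc.comp (by fun_prop)).continuousOn
      · fun_prop
      · simp only [zero_mul, add_zero, mul_zero, hA18]
      · simp only [one_mul, mul_one]
        rw [show (1 / 8 + (7 / 8 - 1 / 8) : ℝ) = 7 / 8 by norm_num, hA78]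
        ring
      · refine p0.congr fun t _ => ?_
        show κ (trn_A b (1 / 8 + t * (7 / 8 - 1 / 8)), 0) = T₀ (0, 1 / 8 + t * (7 / 8 - 1 / 8))
        rw [hk0]
    have q1 : PC (fun t => κ' (b + (1 - b / 4 - b) * t, 0)) (cl (NHT.incl c')) := by
      refine NHQ.PC.convex (F := fun l : ℝ => κ' (l, 0)) (u := fun t => trn_A b (1 / 8 + t * (7 / 8 - 1 / 8)))
        (v := fun t => b + (1 - b / 4 - b) * t) convex_univ (trn_cont hκ').continuousOn ?_ ?_ (fun _ _ => mem_univ _)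
        (fun _ _ => mem_univ _) ?_ ?_ ?_
      · exact (hAc.comp (by fun_prop)).continuousOn
      · fun_prop
      · simp only [zero_mul, add_zero, mul_zero, hA18]
      · simp only [one_mul, mul_one]
        rw [show (1 / 8 + (7 / 8 - 1 / 8) : ℝ) = 7 / 8 by norm_num, hA78]
        ring
      · refine p1.congr fun t _ => ?_
        show κ' (trn_A b (1 / 8 + t * (7 / 8 - 1 / 8)), 0) = T₁ (0, 1 / 8 + t * (7 / 8 - 1 / 8))
        rw [hk1]
    have q2 : PC (fun t => κ' (b + (1 - b / 4 - b) * t, 0)) (cl (NHT.incl c)) := by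
      refine trn_mid (k := fun l : ℝ => κ (l, 0)) (k' := fun l : ℝ => κ' (l, 0)) (d := 1 - b / 4) (trn_cont hκ) (trn_cont hκ')
        h h' hb0.le (by linarith) ?_ ?_ q0
      · intro t ht
        exact heq _ _ (by rw [abs_of_nonneg ht.1]; linarith [ht.2]) (by simpa using hρ)
      · intro t ht
        exact heq' _ _ (by rw [abs_lt]; constructor <;> linarith [ht.1, ht.2]) (by simpa using hρ)
    have q3 : cl (NHT.incl c) = cl (NHT.incl c') := q2.unique q1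
    subst hY
    exact homotopic_off c c' (NHQ.cl_exact q3)
  obtain ⟨V, hV, hVf, hVT⟩ := two_tubes hc₀ hc₁ hY0 hY1 hhi hc hc' hcc
  -- the chart at `κ (b, 0)`
  obtain ⟨β, hβd⟩ : ∃ β : E → N, β = fun q => T₀ (q.1, 1 / 8 + q.2) := ⟨_, rfl⟩
  have hBl : ∀ q ∈ Bl (1 / 32), ‖q.1‖ < 1 / 32 ∧ |q.2| < 1 / 32 := by
    intro q hq
    have h1 : ‖q.1‖ ^ 2 + q.2 ^ 2 < (1 / 32) ^ 2 := hq
    have h2 : ‖q.1‖ ^ 2 < (1 / 32) ^ 2 := by nlinarith [sq_nonneg q.2]
    have h3 : q.2 ^ 2 < (1 / 32) ^ 2 := by nlinarith [sq_nonneg ‖q.1‖]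
    exact ⟨lt_of_pow_lt_pow_left₀ 2 (by norm_num) h2, abs_lt_of_sq_lt_sq h3 (by norm_num)⟩
  have hBT : ∀ q ∈ Bl (1 / 32), ((q.1, 1 / 8 + q.2) : E) ∈ TD := by
    intro q hq
    obtain ⟨h1, h2⟩ := hBl q hq
    rw [abs_lt] at h2
    exact ⟨by show ‖q.1‖ < 1; linarith, by show -(1 / 4) < 1 / 8 + q.2; linarith, by show 1 / 8 + q.2 < 5 / 4; linarith⟩
  have hβ : Cht (Bl (1 / 32)) β := by
    rw [hβd]
    refine hc₀.comp (f := fun q : E => (q.1, 1 / 8 + q.2)) (isOpen_Bl _) ?_ ?_ ?_ hBT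
    · intro q _
      exact (contDiff_fst.prodMk (contDiff_const.add contDiff_snd)).contDiffAt
    · intro q _
      have hd : HasFDerivAt (fun q : E => ((q.1, 1 / 8 + q.2) : E)) (ContinuousLinearMap.id ℝ E) q := by
        have h1 : HasFDerivAt (fun q : E => ((0, 1 / 8) : E) + q) (ContinuousLinearMap.id ℝ E) q :=
          (hasFDerivAt_id q).const_add _
        have h2 : (fun q : E => ((q.1, 1 / 8 + q.2) : E)) = fun q : E => ((0, 1 / 8) : E) + q := by
          funext q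
          exact Prod.ext (zero_add _).symm rfl
        rw [h2]
        exact h1
      rw [hd.fderiv]
      exact Function.bijective_id
    · intro q _ q' _ he
      have h1 : q.1 = q'.1 := (Prod.ext_iff.1 he).1
      have h2 : 1 / 8 + q.2 = 1 / 8 + q'.2 := (Prod.ext_iff.1 he).2
      exact Prod.ext h1 (by linarith)
  have hβ0 : β 0 = y := by
    rw [hβd]
    show T₀ ((0 : E).1, 1 / 8 + (0 : E).2) = T₀ (0, 1 / 8)
    simp
  have hβY : β '' Bl (1 / 32) ⊆ Y := by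
    rintro _ ⟨q, hq, rfl⟩
    rw [hβd]
    obtain ⟨h1, h2⟩ := hBl q hq
    rw [abs_lt] at h2
    exact hY0 _ (hBT q hq) (by show 0 < 1 / 8 + q.2; linarith) (by show 1 / 8 + q.2 < 1; linarith)
  have hV1 : ∃ ρ₁ : ℝ, 0 < ρ₁ ∧ ∀ q ∈ Bl ρ₁, V 1 (β q) = β q := by
    have hn1 : {q : E | |trn_A b (1 / 8 + q.2)| < ρ} ∈ 𝓝 (0 : E) := by
      have hc2 : Continuous fun q : E => |trn_A b (1 / 8 + q.2)| :=
        continuous_abs.comp (hAc.comp (by fun_prop))
      refine (isOpen_lt hc2 continuous_const).mem_nhds ?_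
      show |trn_A b (1 / 8 + (0 : E).2)| < ρ
      rw [Prod.snd_zero, add_zero, hA18, abs_of_pos hb0]
      linarith
    obtain ⟨ρ₁, hρ₁, hs⟩ := exists_Bl (Filter.inter_mem hn1 ((isOpen_Bl (1 / 32)).mem_nhds (zero_mem_Bl (by norm_num))))
    refine ⟨ρ₁, hρ₁, ?_⟩
    intro q hq
    obtain ⟨h1, h2⟩ := hs (show nr q ≤ ρ₁ ^ 2 from le_of_lt hq)
    obtain ⟨h3, h4⟩ := hBl q h2
    rw [abs_lt] at h4
    rw [hβd]
    show V 1 (T₀ (q.1, 1 / 8 + q.2)) = T₀ (q.1, 1 / 8 + q.2)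
    rw [hVT (q.1, 1 / 8 + q.2) (by show ‖q.1‖ ≤ 1 / 2; linarith) (by show 3 / 32 ≤ 1 / 8 + q.2; linarith)
      (by show 1 / 8 + q.2 < 5 / 4; linarith), hT₀, hT₁]
    exact heq _ _ h1 ((hTb _ (hBT q h2)).trans (by linarith))
  obtain ⟨W, R, m, hW, hR, ⟨ρ₂, hρ₂, hWβ⟩, hRβ, hVW⟩ := lifting hYo hV hVf (by norm_num) hβ hβY hβ0 hV1
    (show (0 : ℝ) < 1 / 32 by norm_num) le_rfl
  -- `R` fixes the core
  have hR1 : ∀ l : ℝ, R 1 (κ (l, 0)) = κ (l, 0) := by
    intro l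
    by_cases hl : κ (l, 0) ∈ β '' Bl (1 / 32)
    · obtain ⟨q, hq, hql⟩ := hl
      have h1 : κ (trn_A b (1 / 8 + q.2), (b : ℂ) * q.1) = κ (l, 0) := by
        rw [← hql, hβd, hT₀]
      obtain ⟨h2, -⟩ := hκ.inj _ _ _ _ ((hTb _ (hBT q hq)).trans (by linarith)) (by simp) h1
      have h3 : q.1 = 0 := by
        rcases mul_eq_zero.1 h2 with h | h
        · exact absurd h (by exact_mod_cast hb0.ne')
        · exact h
      have h4 : rotP m (1 / 32) 1 q = q := by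
        rw [rotP_apply]
        exact Prod.ext (by simp only [h3, mul_zero]) rfl
      rw [← hql, hRβ 1 q hq, h4]
    · exact hR.out 1 hl
  have hWV : ∀ l : ℝ, W 1 (κ (l, 0)) = V 1 (κ (l, 0)) := fun l => by rw [hVW, hR1]
  have hlong : ∀ l : ℝ, b ≤ l → l ≤ 1 → V 1 (κ (l, 0)) = κ' (l, 0) := by
    intro l h1 h2
    obtain ⟨x, ⟨hx1, hx2⟩, hx⟩ := intermediate_value_Icc (show (1 / 8 : ℝ) ≤ 9 / 8 by norm_num) hAc.continuousOn
      (show l ∈ Icc (trn_A b (1 / 8)) (trn_A b (9 / 8)) by rw [hA18, hA98]; exact ⟨h1, h2⟩)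
    have h3 := hVT (0, x) (by simp) (by show 3 / 32 ≤ x; linarith) (by show x < 5 / 4; linarith)
    rw [hk0, hk1, hx] at h3
    exact h3
  refine ⟨b, W, ⟨hb0, by linarith, ?_⟩, ?_⟩
  · obtain ⟨C, hC1, hC2, hC3⟩ := hW.supp
    refine ⟨hW.smooth, hW.smooth_symm, hW.zero, C \ β '' Bl (min ρ₂ (1 / 32)), ?_, ?_, ?_⟩
    · exact hC1.diff (hβ.img (isOpen_Bl _) (Bl_mono (lt_min hρ₂ (by norm_num)) (min_le_right _ _)))
    · rintro z ⟨hz1, hz2⟩ hz3
      rcases hz3 with hz3 | hz3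
      · have := hC2 hz1
        rw [hY] at this
        exact this hz3
      · refine hz2 ⟨0, zero_mem_Bl (lt_min hρ₂ (by norm_num)), ?_⟩
        rw [hβ0, mem_singleton_iff.1 hz3]
        show T₀ (0, 1 / 8) = κ (b, 0)
        rw [hk0, hA18]
    · intro s x hx
      by_cases hxC : x ∈ C
      · have hx2 : x ∈ β '' Bl (min ρ₂ (1 / 32)) := by
          by_contra h1
          exact hx ⟨hxC, h1⟩
        obtain ⟨q, hq, rfl⟩ := hx2
        exact hWβ s q (Bl_mono (lt_min hρ₂ (by norm_num)) (min_le_left _ _) hq)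
      · exact hC3 s x hxC
  · intro l
    have hf0 := Int.fract_nonneg l
    have hf1 := Int.fract_lt_one l
    have hfe : κ (l, 0) = κ (Int.fract l, 0) := by
      have := Std_per hκ (Int.fract l) 0 ⌊l⌋
      rwa [Int.fract_add_floor] at this
    have hfe' : κ' (l, 0) = κ' (Int.fract l, 0) := by
      have := Std_per hκ' (Int.fract l) 0 ⌊l⌋
      rwa [Int.fract_add_floor] at this
    show κ' (l, 0) = kcf b (fun l => κ (l, 0)) W (fun _ => 1) l
    unfold kcf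
    split_ifs with hlb
    · show κ' (l, 0) = κ (l, 0)
      rw [hfe, hfe']
      exact heq _ _ (by rw [abs_of_nonneg hf0]; linarith) (by simpa using hρ)
    · show κ' (l, 0) = W 1 (κ (l, 0))
      rw [hWV, hfe, hfe', hlong _ (not_le.1 hlb).le hf1.le]

theorem exists_frm [ConnectedSpace N] {κ κ' : ℝ × ℂ → N} (hκ : Thick κ) (hκ' : Thick κ') {ρ : ℝ} (hρ : 0 < ρ)
    (hg : ∀ (l : ℝ) (v : ℂ), |l| < ρ → ‖v‖ < ρ → κ' (l, v) = κ (l, v))
    {o : FundamentalGroupoid.mk (κ (0, 0)) ⟶ FundamentalGroupoid.mk (κ (0, 0))}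
    (ho : PC (fun l => κ (l, 0)) o) (ho' : PC (fun l => κ' (l, 0)) o) :
    ∃ (b : ℝ) (W : ℝ → Equiv.Perm N), Frm b (fun l => κ (l, 0)) W ∧ Free b (fun l => κ (l, 0)) W 1 ∧
      ∀ l, kc b (fun l => κ (l, 0)) W 1 l = κ' (l, 0) := by
  obtain ⟨b, W, hF, hk⟩ := transport hκ hκ' hρ hg ho ho'
  refine ⟨b, W, hF, ?_, fun l => (hk l).symm⟩
  rintro x ⟨hx1, hx2⟩ ⟨z, ⟨hz1, hz2⟩, hz⟩
  have hb := hF.lt
  have hb0 := hF.pos
  have hfx : Int.fract x = x := Int.fract_eq_self.2 ⟨by linarith, hx2⟩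
  have hfz : Int.fract z = z := Int.fract_eq_self.2 ⟨hz1, by linarith⟩
  have e1 : κ' (x, 0) = W 1 (κ (x, 0)) := by
    rw [hk x]
    show kcf b (fun l => κ (l, 0)) W (fun _ => 1) x = _
    unfold kcf
    rw [if_neg (by rw [hfx]; exact not_le.2 hx1)]
  have e2 : κ' (z, 0) = κ (z, 0) := by
    rw [hk z]
    show kcf b (fun l => κ (l, 0)) W (fun _ => 1) z = _
    unfold kcf
    rw [if_pos (by rw [hfz]; exact hz2)]
  have e3 : κ' (z, 0) = κ' (x, 0) := by
    rw [e1, e2]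
    exact hz
  obtain ⟨-, m, hm⟩ := hκ'.inj _ _ _ _ (by simp) (by simp) e3
  have a1 : (0 : ℝ) < m := by linarith
  have a2 : (m : ℝ) < 1 := by linarith
  have a3 : 0 < m := by exact_mod_cast a1
  have a4 : m < 1 := by exact_mod_cast a2
  omega

end

end Pool.Agent.NHH
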