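import Mathlib
import Pool.Agent.NHH.Bgm
import Pool.Agent.NHH.Trn
import Pool.Agent.NHH.Gpb
import Pool.Agent.NHH.Frl

/-!
# NHH/Hom: freely homotopic thick knots are equivalent, if the crossing changes are equivalences (assembly of the block H)
-/

open scoped Manifold ContDiff Topology
open Set Filter
open Pool.Agent.RSG (E3 ex Thick)
open Pool.Agent.NHP
open Pool.Agent.NHT (FreeHomotopic)
open Pool.Agent.NHQ (Crv Mv PC)

namespace Pool.Agent.NHH

open CategoryTheory

variable {N : Type*} [TopologicalSpace N] [ChartedSpace E3 N] [IsManifold (𝓡 3) ∞ N] [T2Space N]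

theorem homotopy_leq [ConnectedSpace N] {κ κ' : ℝ × ℂ → N} (hκ : Thick κ) (hκ' : Thick κ') (hF : FreeHomotopic κ κ')
    {o : FundamentalGroupoid.mk (κ (0, 0)) ⟶ FundamentalGroupoid.mk (κ (0, 0))} (ho : PC (fun l => κ (l, 0)) o)
    (hX : ∀ (k' : ℝ → N) (K' : Set N), Crv (κ (0, 0)) o k' → Cross (range k') K' → LEqN (range k') K') :
    LEqN (core κ) (core κ') := by
  obtain ⟨V, κ'', o', hV, hκ'', hc, ⟨ρ, hρ, hg⟩, ho', ho''⟩ := base_germ hκ hκ' hF
  have e1 : o' = o := ho'.unique ho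
  subst e1
  have hk : Crv (κ (0, 0)) o' (fun l => κ (l, 0)) := ⟨⟨κ, hκ, fun _ => rfl⟩, rfl, ho'⟩
  obtain ⟨b, W, hFr, hfree, hend⟩ := exists_frm hκ hκ'' hρ hg ho' ho''
  obtain ⟨k', h1, h2, h3, h4, h5, h6, h7, h8⟩ := exists_gp hk hFr hfree
  obtain ⟨-, h9⟩ := frame_leq hX h2 h3 h4 h5 h7 h8
  have e2 : core κ'' = V 1 '' core κ' := by
    unfold core
    rw [← range_comp]
    exact congrArg range (funext hc)
  have e3 : range (kc b (fun l => κ (l, 0)) W 1) = core κ'' := congrArg range (funext hend)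
  have s1 : LEqN (core κ) (range k') := Mv.leq h1
  have s2 : LEqN (core κ'') (range (kc b k' W 1)) := by
    rw [← e3]
    exact Mv.leq h6
  have s3 : LEqN (core κ') (core κ'') := by
    rw [e2]
    exact LEqN.diff _ hV
  exact (s1.trans h9).trans (s2.symm.trans s3.symm)

end Pool.Agent.NHH
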